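import Pool.Agent.H53.BS.Stm

/-! BS-ASM (helper51): the infinite construction. -/

set_option autoImplicit false

open Finset Pool.Agent.H53.ET

namespace Pool.Agent.H53.BS.ASM

theorem rp_zero {B : Finset ℕ} {X n : ℕ} (h : ∀ b ∈ B, b < X) (hn : 2 * X ≤ n) : rp B B n = 0 := by
  unfold rp
  rw [card_eq_zero, filter_eq_empty_iff]
  rintro ⟨a, b⟩ hab heq
  rw [mem_product] at hab
  have h1 := h a hab.1
  have h2 := h b hab.2
  simp only at heq h1 h2
  omega

theorem rep_le_rp {A : Set ℕ} {B : Finset ℕ} {n : ℕ} (h : ∀ a ∈ A, a ≤ n → a ∈ B) :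
    rep A n ≤ rp B B n := by
  unfold rp
  apply rep_le_card
  intro a ha b hb hab
  rw [mem_filter, mem_product]
  exact ⟨⟨h a ha (by omega), h b hb (by omega)⟩, hab⟩

/-- the properties of a state -/
def St (k u₁ : ℕ) (s : ℕ × Finset ℕ) : Prop :=
  u₁ ≤ s.1 ∧ k + 52 ≤ s.1 ∧ Sp k s.1 s.2 ∧ (s.2 = ∅ ∨ ∃ u' : ℕ, u' + 2 ≤ s.1 ∧ Inv k u' s.2)

theorem main : S_STAGE → S_SEQ → S_INV → S_ASM := by
  intro hSTAGE hSEQ hINV k
  obtain ⟨u₁, hu₁⟩ := hSTAGE k
  have hnext : ∀ s : {s : ℕ × Finset ℕ // St k u₁ s}, ∃ U : Finset ℕ,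
      ((∀ a ∈ U, 2 ^ (s.1.1 * (k + 25)) ≤ a ∧ a < 2 ^ (s.1.1 * (k + 41) + 1)) ∧
      (∀ n, 4 * 2 ^ (s.1.1 * (k + 25)) ≤ n → n < 2 ^ (s.1.1 * (k + 41)) →
        ∃ a ∈ U, ∃ b ∈ U, a + b = n) ∧
      (∀ n, rp (s.1.2 ∪ U) (s.1.2 ∪ U) n ≤ rp s.1.2 s.1.2 n + (5 * k + 224) +
        if n < 2 ^ (k + 29 + s.1.1 * (k + 25)) then 2 ^ (27 * s.1.1) else 0)) ∧
      St k u₁ (nx k s.1.1, s.1.2 ∪ U) := by
    rintro ⟨⟨u, B⟩, h1, h2, h3, h4⟩
    obtain ⟨U, hU1, hU2, hU3, hU4⟩ := hu₁ u h1 B h3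
    obtain ⟨hI1, hI2⟩ := hINV k u B U h2 hU1 hU4 h4
    obtain ⟨-, -, hs, -, -, -⟩ := hSEQ k u h2
    refine ⟨U, ⟨hU1, hU2, hU3⟩, ?_, ?_, hI2, Or.inr ⟨u, hs, hI1⟩⟩
    · simp only at h1 ⊢; omega
    · simp only at h2 ⊢; omega
  choose nU hnU using hnext
  have h0 : St k u₁ (max u₁ (k + 52), ∅) := by
    refine ⟨le_max_left _ _, le_max_right _ _, ⟨by simp, ?_⟩, Or.inl rfl⟩
    intro i _ c
    simp [cls]
  let sq : ℕ → {s : ℕ × Finset ℕ // St k u₁ s} := fun t =>
    Nat.rec ⟨(max u₁ (k + 52), ∅), h0⟩ (fun _ s => ⟨(nx k s.1.1, s.1.2 ∪ nU s), (hnU s).2⟩) t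
  set u : ℕ → ℕ := fun t => (sq t).1.1 with hu
  set B : ℕ → Finset ℕ := fun t => (sq t).1.2 with hB
  set U : ℕ → Finset ℕ := fun t => nU (sq t) with hU
  have hu0 : k + 52 ≤ u 0 := le_max_right _ _
  have hB0 : B 0 = ∅ := rfl
  have husucc : ∀ t, u (t + 1) = nx k (u t) := fun t => rfl
  have hBsucc : ∀ t, B (t + 1) = B t ∪ U t := fun t => rfl
  have huk : ∀ t, k + 52 ≤ u t := fun t => (sq t).2.2.1
  have hSp : ∀ t, Sp k (u t) (B t) := fun t => (sq t).2.2.2.1
  have hU1 : ∀ t, ∀ a ∈ U t, 2 ^ (u t * (k + 25)) ≤ a ∧ a < 2 ^ (u t * (k + 41) + 1) :=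
    fun t => (hnU (sq t)).1.1
  have hU2 : ∀ t, ∀ n, 4 * 2 ^ (u t * (k + 25)) ≤ n → n < 2 ^ (u t * (k + 41)) →
      ∃ a ∈ U t, ∃ b ∈ U t, a + b = n := fun t => (hnU (sq t)).1.2.1
  have hU3 : ∀ t, ∀ n, rp (B (t + 1)) (B (t + 1)) n ≤ rp (B t) (B t) n + (5 * k + 224) +
      if n < 2 ^ (k + 29 + u t * (k + 25)) then 2 ^ (27 * u t) else 0 :=
    fun t => (hnU (sq t)).1.2.2
  have hseq := fun t => hSEQ k (u t) (huk t)
  simp only [← husucc] at hseq
  have hulti : ∀ t, u t + 2 ≤ u (t + 1) := fun t => (hseq t).2.2.1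
  have humono : Monotone u := monotone_nat_of_le_succ fun t => by have := hulti t; omega
  have hut : ∀ t, t ≤ u t := by
    intro t
    induction t with
    | zero => exact Nat.zero_le _
    | succ t ih => have := hulti t; omega
  have hBmono : ∀ s t, s ≤ t → B s ⊆ B t := by
    intro s t hst
    induction hst with
    | refl => exact Subset.rfl
    | step _ ih => exact ih.trans (by rw [hBsucc]; exact subset_union_left)
  have hpow : ∀ s t, s ≤ t → 2 ^ (u s * (k + 25)) ≤ 2 ^ (u t * (k + 25)) := fun s t hst =>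
    Nat.pow_le_pow_right (by norm_num) (Nat.mul_le_mul_right _ (humono hst))
  -- small elements are in the early stages
  have hsmall : ∀ t s a, a ∈ B s → a < 2 ^ (u t * (k + 25)) → a ∈ B t := by
    intro t s
    induction s with
    | zero => intro a ha _; rw [hB0] at ha; exact absurd ha (notMem_empty _)
    | succ s ih =>
      intro a ha hlt
      rw [hBsucc, mem_union] at ha
      rcases ha with ha | ha
      · exact ih a ha hlt
      · have h1 := (hU1 s a ha).1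
        have h2 : s < t := by
          by_contra hcon
          push Not at hcon
          have := hpow t s hcon
          omega
        apply hBmono (s + 1) t h2
        rw [hBsucc, mem_union]
        exact Or.inr ha
  let A : Set ℕ := {a | ∃ t, a ∈ B t}
  have hrep : ∀ t n, n < 2 ^ (u t * (k + 25)) → rep A n ≤ rp (B t) (B t) n := by
    intro t n hn
    apply rep_le_rp
    rintro a ⟨s, ha⟩ han
    exact hsmall t s a ha (by omega)
  have hzero : ∀ t n, 2 ^ (k + 29 + u t * (k + 25)) ≤ n → rp (B t) (B t) n = 0 := by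
    intro t n hn
    apply rp_zero (hSp t).1
    have : 2 ^ (k + 29 + u t * (k + 25)) = 2 * 2 ^ (k + 28 + u t * (k + 25)) := by
      rw [← pow_succ']; congr 1; ring
    omega
  refine ⟨A, u, by omega, fun t => (hseq t).2.2.2.2.1, ?_, ?_, ?_⟩
  · -- covering
    intro n hn
    have hex : ∃ t, n < 2 ^ (u t * (k + 41)) := by
      refine ⟨n, ?_⟩
      calc n < 2 ^ n := Nat.lt_two_pow_self
        _ ≤ 2 ^ (u n * (k + 41)) := by
          apply Nat.pow_le_pow_right (by norm_num)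
          have := hut n
          nlinarith
    have h1 := Nat.find_spec hex
    set t := Nat.find hex with ht
    have h2 : 4 * 2 ^ (u t * (k + 25)) ≤ n := by
      rcases Nat.eq_zero_or_pos t with h | h
      · rw [h]; exact hn
      · obtain ⟨t', ht'⟩ : ∃ t', t = t' + 1 := ⟨t - 1, by omega⟩
        have h3 : ¬ n < 2 ^ (u t' * (k + 41)) := Nat.find_min hex (by omega)
        push Not at h3
        refine le_trans ?_ h3
        rw [ht']
        have h4 := (hseq t').1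
        calc 4 * 2 ^ (u (t' + 1) * (k + 25)) = 2 ^ (u (t' + 1) * (k + 25) + 2) := by
              rw [pow_add]; ring
          _ ≤ 2 ^ (u t' * (k + 41)) := Nat.pow_le_pow_right (by norm_num) h4
    obtain ⟨a, ha, b, hb, hab⟩ := hU2 t n h2 h1
    have hmem : ∀ a ∈ U t, a ∈ A := by
      intro a ha
      refine ⟨t + 1, ?_⟩
      rw [hBsucc, mem_union]
      exact Or.inr ha
    exact rep_pos_of (hmem a ha) (hmem b hb) hab
  · -- small `n`
    intro n hn
    have h1 := hrep 0 n hn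
    rw [hB0] at h1
    simpa [rp] using h1
  · intro t n hn1 hn2
    have h1 := (hrep (t + 1) n hn2).trans (hU3 t n)
    constructor
    · have h2 : rp (B t) (B t) n ≤ 5 * k + 224 := by
        rcases Nat.eq_zero_or_pos t with h | h
        · rw [h, hB0]; simp [rp]
        · obtain ⟨t', rfl⟩ : ∃ t', t = t' + 1 := ⟨t - 1, by omega⟩
          have h3 : 2 ^ (k + 29 + u t' * (k + 25)) ≤ n :=
            (Nat.pow_le_pow_right (by norm_num) (hseq t').2.2.2.2.2).trans hn1
          have h4 := hU3 t' n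
          rw [hzero t' n h3, if_neg (not_lt.2 h3), Nat.zero_add, Nat.add_zero] at h4
          exact h4
      have h5 : (if n < 2 ^ (k + 29 + u t * (k + 25)) then 2 ^ (27 * u t) else 0) ≤
          2 ^ (27 * u t) := by
        split_ifs
        · exact le_rfl
        · exact Nat.zero_le _
      calc rep A n ≤ rp (B t) (B t) n + (5 * k + 224) +
            if n < 2 ^ (k + 29 + u t * (k + 25)) then 2 ^ (27 * u t) else 0 := h1
        _ ≤ (5 * k + 224) + (5 * k + 224) + 2 ^ (27 * u t) := by gcongr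
        _ = 2 * (5 * k + 224) + 2 ^ (27 * u t) := by ring
    · intro h2
      rw [hzero t n h2, if_neg (not_lt.2 h2), Nat.zero_add, Nat.add_zero] at h1
      exact h1

end Pool.Agent.H53.BS.ASM
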