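import Pool.Agent.H53.BS.Stm2

/-! BS-ASM2: the infinite construction with a growing parameter. -/

set_option autoImplicit false

open Finset Filter Pool.Agent.H53.ET

namespace Pool.Agent.H53.BS.ASM2

theorem rp_zero {B : Finset ℕ} {X n : ℕ} (h : ∀ b ∈ B, b < X) (hn : 2 * X ≤ n) : rp B B n = 0 := by
  unfold rp
  rw [card_eq_zero, filter_eq_empty_iff]
  rintro ⟨a, b⟩ hab heq
  rw [mem_product] at hab
  have h1 := h a hab.1
  have h2 := h b hab.2
  simp only at heq h1 h2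
  omega

theorem rep_le_rp {A : Set ℕ} {B : Finset ℕ} {n : ℕ} (h : ∀ a ∈ A, a ≤ n → a ∈ B) :
    rep A n ≤ rp B B n := by
  unfold rp
  apply rep_le_card
  intro a ha b hb hab
  rw [mem_filter, mem_product]
  exact ⟨⟨h a ha (by omega), h b hb (by omega)⟩, hab⟩

/-- the properties of a state -/
def St (τ : ℕ → ℕ) (s : ℕ × ℕ × Finset ℕ) : Prop :=
  τ s.1 ≤ s.2.1 ∧ s.1 + 60 ≤ s.2.1 ∧ Sp s.1 s.2.1 s.2.2 ∧
    (s.2.2 = ∅ ∨ ∃ j u' : ℕ, j ≤ s.1 ∧ u' + 2 ≤ s.2.1 ∧ Inv j u' s.2.2)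

/-- the next number of levels -/
def nk (τ : ℕ → ℕ) (k u : ℕ) : ℕ := if τ (k + 1) ≤ nx2 k (k + 1) u then k + 1 else k

theorem nk_cases (τ : ℕ → ℕ) (k u : ℕ) : nk τ k u = k ∨ nk τ k u = k + 1 := by
  unfold nk
  split_ifs
  · exact Or.inr rfl
  · exact Or.inl rfl

/-- a monotone walk with steps `0`, `1` which goes on tends to infinity -/
theorem tendsto_walk {k : ℕ → ℕ} (h1 : ∀ t, k (t + 1) = k t ∨ k (t + 1) = k t + 1)
    (h2 : ∀ m, ∃ T, ∀ t, T ≤ t → k t = m → k (t + 1) = m + 1) : Tendsto k atTop atTop := by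
  have hmono : Monotone k := monotone_nat_of_le_succ fun t => by
    rcases h1 t with h | h <;> omega
  refine tendsto_atTop_atTop_of_monotone hmono fun m => ?_
  induction m with
  | zero => exact ⟨0, Nat.zero_le _⟩
  | succ m ih =>
    obtain ⟨t, ht⟩ := ih
    obtain ⟨T, hT⟩ := h2 m
    by_contra hcon
    push Not at hcon
    have h3 : k (max t T) = m := by
      have h4 := hcon (max t T)
      have h5 := hmono (le_max_left t T)
      omega
    have h4 := hT (max t T) (le_max_right _ _) h3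
    have h5 := hcon (max t T + 1)
    omega

theorem main : S_STAGE → S_SEQ2 → S_INV2 → S_ASM2 := by
  intro hSTAGE hSEQ hINV τ₀
  choose u₁ hu₁ using hSTAGE
  obtain ⟨τ, hτ⟩ : ∃ τ : ℕ → ℕ, τ = fun k => max (τ₀ k) (u₁ k) := ⟨_, rfl⟩
  have hτ0 : ∀ k, τ₀ k ≤ τ k := fun k => by rw [hτ]; exact le_max_left _ _
  have hτ1 : ∀ k, u₁ k ≤ τ k := fun k => by rw [hτ]; exact le_max_right _ _
  clear hτ
  have hnext : ∀ s : {s : ℕ × ℕ × Finset ℕ // St τ s}, ∃ U : Finset ℕ,
      ((∀ a ∈ U, 2 ^ (s.1.2.1 * (s.1.1 + 25)) ≤ a ∧ a < 2 ^ (s.1.2.1 * (s.1.1 + 41) + 1)) ∧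
      (∀ n, 4 * 2 ^ (s.1.2.1 * (s.1.1 + 25)) ≤ n → n < 2 ^ (s.1.2.1 * (s.1.1 + 41)) →
        ∃ a ∈ U, ∃ b ∈ U, a + b = n) ∧
      (∀ n, rp (s.1.2.2 ∪ U) (s.1.2.2 ∪ U) n ≤ rp s.1.2.2 s.1.2.2 n + (5 * s.1.1 + 224) +
        if n < 2 ^ (s.1.1 + 29 + s.1.2.1 * (s.1.1 + 25)) then 2 ^ (27 * s.1.2.1) else 0)) ∧
      St τ (nk τ s.1.1 s.1.2.1, nx2 s.1.1 (nk τ s.1.1 s.1.2.1) s.1.2.1, s.1.2.2 ∪ U) := by
    rintro ⟨⟨k, u, B⟩, h1, h2, h3, h4⟩
    obtain ⟨U, hU1, hU2, hU3, hU4⟩ := hu₁ k u ((hτ1 k).trans h1) B h3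
    have hk := nk_cases τ k u
    obtain ⟨hI1, hI2⟩ := hINV k (nk τ k u) u B U hk h2 hU1 hU4 h4
    obtain ⟨-, -, hs, -, -, -, hs7⟩ := hSEQ k (nk τ k u) u hk h2
    refine ⟨U, ⟨hU1, hU2, hU3⟩, ?_, hs7, hI2, Or.inr ⟨k, u, ?_, hs, hI1⟩⟩
    · show τ (nk τ k u) ≤ nx2 k (nk τ k u) u
      by_cases h : τ (k + 1) ≤ nx2 k (k + 1) u
      · have e : nk τ k u = k + 1 := if_pos h
        rw [e]
        exact h
      · have e : nk τ k u = k := if_neg h
        rw [e] at hs ⊢
        have h1' : τ k ≤ u := h1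
        omega
    · show k ≤ nk τ k u
      rcases hk with h | h <;> omega
  choose nU hnU using hnext
  have h0 : St τ (0, max (τ 0) 60, ∅) := by
    refine ⟨le_max_left _ _, ?_, ⟨by simp, ?_⟩, Or.inl rfl⟩
    · show 0 + 60 ≤ max (τ 0) 60
      rw [Nat.zero_add]
      exact le_max_right _ _
    · intro i _ c
      simp [cls]
  let sq : ℕ → {s : ℕ × ℕ × Finset ℕ // St τ s} := fun t =>
    Nat.rec ⟨(0, max (τ 0) 60, ∅), h0⟩ (fun _ s => ⟨(nk τ s.1.1 s.1.2.1,
      nx2 s.1.1 (nk τ s.1.1 s.1.2.1) s.1.2.1, s.1.2.2 ∪ nU s), (hnU s).2⟩) t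
  set k : ℕ → ℕ := fun t => (sq t).1.1 with hk
  set u : ℕ → ℕ := fun t => (sq t).1.2.1 with hu
  set B : ℕ → Finset ℕ := fun t => (sq t).1.2.2 with hB
  set U : ℕ → Finset ℕ := fun t => nU (sq t) with hU
  have hk0 : k 0 = 0 := rfl
  have hB0 : B 0 = ∅ := rfl
  have hksucc : ∀ t, k (t + 1) = nk τ (k t) (u t) := fun t => rfl
  have husucc : ∀ t, u (t + 1) = nx2 (k t) (k (t + 1)) (u t) := fun t => rfl
  have hBsucc : ∀ t, B (t + 1) = B t ∪ U t := fun t => rfl
  have huτ : ∀ t, τ (k t) ≤ u t := fun t => (sq t).2.1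
  have huk : ∀ t, k t + 60 ≤ u t := fun t => (sq t).2.2.1
  have hSp : ∀ t, Sp (k t) (u t) (B t) := fun t => (sq t).2.2.2.1
  have hU1 : ∀ t, ∀ a ∈ U t, 2 ^ (u t * (k t + 25)) ≤ a ∧ a < 2 ^ (u t * (k t + 41) + 1) :=
    fun t => (hnU (sq t)).1.1
  have hU2 : ∀ t, ∀ n, 4 * 2 ^ (u t * (k t + 25)) ≤ n → n < 2 ^ (u t * (k t + 41)) →
      ∃ a ∈ U t, ∃ b ∈ U t, a + b = n := fun t => (hnU (sq t)).1.2.1
  have hU3 : ∀ t, ∀ n, rp (B (t + 1)) (B (t + 1)) n ≤ rp (B t) (B t) n + (5 * k t + 224) +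
      if n < 2 ^ (k t + 29 + u t * (k t + 25)) then 2 ^ (27 * u t) else 0 :=
    fun t => (hnU (sq t)).1.2.2
  have hkc : ∀ t, k (t + 1) = k t ∨ k (t + 1) = k t + 1 := fun t => nk_cases τ (k t) (u t)
  have hseq := fun t => hSEQ (k t) (k (t + 1)) (u t) (hkc t) (huk t)
  simp only [← husucc] at hseq
  have hulti : ∀ t, u t + 2 ≤ u (t + 1) := fun t => (hseq t).2.2.1
  have hut : ∀ t, t ≤ u t := by
    intro t
    induction t with
    | zero => exact Nat.zero_le _
    | succ t ih => have := hulti t; omega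
  have hkmono : ∀ t, k t ≤ k (t + 1) := fun t => by
    rcases hkc t with h | h <;> omega
  have hkt : Tendsto k atTop atTop := by
    refine tendsto_walk hkc fun m => ⟨τ (m + 1), fun t ht hm => ?_⟩
    have h1 := (hSEQ (k t) (k t + 1) (u t) (Or.inr rfl) (huk t)).2.2.1
    have h2 := hut t
    rw [hksucc]
    rw [hm] at h1 ⊢
    exact if_pos (by omega)
  have hBmono : ∀ s t, s ≤ t → B s ⊆ B t := by
    intro s t hst
    induction hst with
    | refl => exact Subset.rfl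
    | step _ ih => exact ih.trans (by rw [hBsucc]; exact subset_union_left)
  have hEmono : Monotone fun t => u t * (k t + 25) := monotone_nat_of_le_succ fun t => by
    have := (hseq t).2.2.2.2.1
    omega
  have hpow : ∀ s t, s ≤ t → 2 ^ (u s * (k s + 25)) ≤ 2 ^ (u t * (k t + 25)) := fun s t hst =>
    Nat.pow_le_pow_right (by norm_num) (hEmono hst)
  -- small elements are in the early stages
  have hsmall : ∀ t s a, a ∈ B s → a < 2 ^ (u t * (k t + 25)) → a ∈ B t := by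
    intro t s
    induction s with
    | zero => intro a ha _; rw [hB0] at ha; exact absurd ha (notMem_empty _)
    | succ s ih =>
      intro a ha hlt
      rw [hBsucc, mem_union] at ha
      rcases ha with ha | ha
      · exact ih a ha hlt
      · have h1 := (hU1 s a ha).1
        have h2 : s < t := by
          by_contra hcon
          push Not at hcon
          have := hpow t s hcon
          omega
        apply hBmono (s + 1) t h2
        rw [hBsucc, mem_union]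
        exact Or.inr ha
  let A : Set ℕ := {a | ∃ t, a ∈ B t}
  have hrep : ∀ t n, n < 2 ^ (u t * (k t + 25)) → rep A n ≤ rp (B t) (B t) n := by
    intro t n hn
    apply rep_le_rp
    rintro a ⟨s, ha⟩ han
    exact hsmall t s a ha (by omega)
  have hzero : ∀ t n, 2 ^ (k t + 29 + u t * (k t + 25)) ≤ n → rp (B t) (B t) n = 0 := by
    intro t n hn
    apply rp_zero (hSp t).1
    have : 2 ^ (k t + 29 + u t * (k t + 25)) = 2 * 2 ^ (k t + 28 + u t * (k t + 25)) := by
      rw [← pow_succ']; congr 1; ring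
    omega
  refine ⟨A, k, u, hk0, fun t => ⟨(hτ0 _).trans (huτ t), huk t⟩, hkc, hkt,
    fun t => (hseq t).2.2.2.2.1, ?_, ?_, ?_⟩
  · -- covering
    intro n hn
    have hex : ∃ t, n < 2 ^ (u t * (k t + 41)) := by
      refine ⟨n, ?_⟩
      calc n < 2 ^ n := Nat.lt_two_pow_self
        _ ≤ 2 ^ (u n * (k n + 41)) := by
          apply Nat.pow_le_pow_right (by norm_num)
          have := hut n
          nlinarith
    have h1 := Nat.find_spec hex
    set t := Nat.find hex with ht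
    have h2 : 4 * 2 ^ (u t * (k t + 25)) ≤ n := by
      rcases Nat.eq_zero_or_pos t with h | h
      · rw [h, hk0, Nat.zero_add]; exact hn
      · obtain ⟨t', ht'⟩ : ∃ t', t = t' + 1 := ⟨t - 1, by omega⟩
        have h3 : ¬ n < 2 ^ (u t' * (k t' + 41)) := Nat.find_min hex (by omega)
        push Not at h3
        refine le_trans ?_ h3
        rw [ht']
        have h4 := (hseq t').1
        calc 4 * 2 ^ (u (t' + 1) * (k (t' + 1) + 25)) = 2 ^ (u (t' + 1) * (k (t' + 1) + 25) + 2) := by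
              rw [pow_add]; ring
          _ ≤ 2 ^ (u t' * (k t' + 41)) := Nat.pow_le_pow_right (by norm_num) h4
    obtain ⟨a, ha, b, hb, hab⟩ := hU2 t n h2 h1
    have hmem : ∀ a ∈ U t, a ∈ A := by
      intro a ha
      refine ⟨t + 1, ?_⟩
      rw [hBsucc, mem_union]
      exact Or.inr ha
    exact rep_pos_of (hmem a ha) (hmem b hb) hab
  · -- small `n`
    intro n hn
    have h1 := hrep 0 n (by rw [hk0, Nat.zero_add]; exact hn)
    rw [hB0] at h1
    simpa [rp] using h1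
  · intro t n hn1 hn2
    have h1 := (hrep (t + 1) n hn2).trans (hU3 t n)
    constructor
    · have h2 : rp (B t) (B t) n ≤ 5 * k t + 224 := by
        rcases Nat.eq_zero_or_pos t with h | h
        · rw [h, hB0]; simp [rp]
        · obtain ⟨t', rfl⟩ : ∃ t', t = t' + 1 := ⟨t - 1, by omega⟩
          have h3 : 2 ^ (k t' + 29 + u t' * (k t' + 25)) ≤ n :=
            (Nat.pow_le_pow_right (by norm_num) (hseq t').2.2.2.2.2.1).trans hn1
          have h4 := hU3 t' n
          rw [hzero t' n h3, if_neg (not_lt.2 h3), Nat.zero_add, Nat.add_zero] at h4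
          have h5 := hkmono t'
          omega
      have h5 : (if n < 2 ^ (k t + 29 + u t * (k t + 25)) then 2 ^ (27 * u t) else 0) ≤
          2 ^ (27 * u t) := by
        split_ifs
        · exact le_rfl
        · exact Nat.zero_le _
      calc rep A n ≤ rp (B t) (B t) n + (5 * k t + 224) +
            if n < 2 ^ (k t + 29 + u t * (k t + 25)) then 2 ^ (27 * u t) else 0 := h1
        _ ≤ (5 * k t + 224) + (5 * k t + 224) + 2 ^ (27 * u t) := by gcongr
        _ = 2 * (5 * k t + 224) + 2 ^ (27 * u t) := by ring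
    · intro h2
      rw [hzero t n h2, if_neg (not_lt.2 h2), Nat.zero_add, Nat.add_zero] at h1
      exact h1

end Pool.Agent.H53.BS.ASM2
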