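import Pool.Agent.H53.BS.Stm3

/-! BS-ASM3: the infinite construction with a given rule for the parameter. -/

set_option autoImplicit false

open Finset Filter Pool.Agent.H53.ET

namespace Pool.Agent.H53.BS.ASM3

theorem rp_zero {B : Finset ℕ} {X n : ℕ} (h : ∀ b ∈ B, b < X) (hn : 2 * X ≤ n) : rp B B n = 0 := by
  unfold rp
  rw [card_eq_zero, filter_eq_empty_iff]
  rintro ⟨a, b⟩ hab heq
  rw [mem_product] at hab
  have h1 := h a hab.1
  have h2 := h b hab.2
  simp only at heq h1 h2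
  omega

theorem rep_le_rp {A : Set ℕ} {B : Finset ℕ} {n : ℕ} (h : ∀ a ∈ A, a ≤ n → a ∈ B) :
    rep A n ≤ rp B B n := by
  unfold rp
  apply rep_le_card
  intro a ha b hb hab
  rw [mem_filter, mem_product]
  exact ⟨⟨h a ha (by omega), h b hb (by omega)⟩, hab⟩

/-- the properties of a state -/
def St (s : ℕ × ℕ × Finset ℕ) : Prop :=
  s.1 + 60 ≤ s.2.1 ∧ Sp s.1 s.2.1 s.2.2 ∧
    (s.2.2 = ∅ ∨ ∃ j u' : ℕ, j ≤ s.1 ∧ u' + 2 ≤ s.2.1 ∧ Inv j u' s.2.2)

theorem main : S_STAGE3 → S_SEQ3 → S_INV3 → S_ASM3 := by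
  intro hSTAGE hSEQ hINV p hp k₀ u₀ hku₀
  have hnext : ∀ s : {s : ℕ × ℕ × Finset ℕ // St s}, ∃ U : Finset ℕ,
      ((∀ a ∈ U, 2 ^ (s.1.2.1 * (s.1.1 + 25)) ≤ a ∧ a < 2 ^ (s.1.2.1 * (s.1.1 + 41) + 1)) ∧
      (∀ n, 4 * 2 ^ (s.1.2.1 * (s.1.1 + 25)) ≤ n → n < 2 ^ (s.1.2.1 * (s.1.1 + 41)) →
        ∃ a ∈ U, ∃ b ∈ U, a + b = n) ∧
      (∀ n, rp (s.1.2.2 ∪ U) (s.1.2.2 ∪ U) n ≤ rp s.1.2.2 s.1.2.2 n + (5 * s.1.1 + 224) +
        if n < 2 ^ (s.1.1 + 29 + s.1.2.1 * (s.1.1 + 25)) then 2 ^ (27 * s.1.2.1) else 0)) ∧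
      St (p s.1.1 s.1.2.1, nx2 s.1.1 (p s.1.1 s.1.2.1) s.1.2.1, s.1.2.2 ∪ U) := by
    rintro ⟨⟨k, u, B⟩, h2, h3, h4⟩
    obtain ⟨U, hU1, hU2, hU3, hU4⟩ := hSTAGE k u h2 B h3
    have hk := hp k u
    obtain ⟨hI1, hI2⟩ := hINV k (p k u) u B U hk.1 hk.2 h2 hU1 hU4 h4
    obtain ⟨-, -, hs, -, -, -, hs7⟩ := hSEQ k (p k u) u hk.1 hk.2 h2
    exact ⟨U, ⟨hU1, hU2, hU3⟩, hs7, hI2, Or.inr ⟨k, u, hk.1, hs, hI1⟩⟩
  choose nU hnU using hnext
  have h0 : St (k₀, u₀, ∅) := by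
    refine ⟨hku₀, ⟨by simp, ?_⟩, Or.inl rfl⟩
    intro i _ c
    simp [cls]
  let sq : ℕ → {s : ℕ × ℕ × Finset ℕ // St s} := fun t =>
    Nat.rec ⟨(k₀, u₀, ∅), h0⟩ (fun _ s => ⟨(p s.1.1 s.1.2.1,
      nx2 s.1.1 (p s.1.1 s.1.2.1) s.1.2.1, s.1.2.2 ∪ nU s), (hnU s).2⟩) t
  set k : ℕ → ℕ := fun t => (sq t).1.1 with hk
  set u : ℕ → ℕ := fun t => (sq t).1.2.1 with hu
  set B : ℕ → Finset ℕ := fun t => (sq t).1.2.2 with hB
  set U : ℕ → Finset ℕ := fun t => nU (sq t) with hU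
  have hk0 : k 0 = k₀ := rfl
  have hu0 : u 0 = u₀ := rfl
  have hB0 : B 0 = ∅ := rfl
  have hksucc : ∀ t, k (t + 1) = p (k t) (u t) := fun t => rfl
  have husucc : ∀ t, u (t + 1) = nx2 (k t) (k (t + 1)) (u t) := fun t => rfl
  have hBsucc : ∀ t, B (t + 1) = B t ∪ U t := fun t => rfl
  have huk : ∀ t, k t + 60 ≤ u t := fun t => (sq t).2.1
  have hSp : ∀ t, Sp (k t) (u t) (B t) := fun t => (sq t).2.2.1
  have hU1 : ∀ t, ∀ a ∈ U t, 2 ^ (u t * (k t + 25)) ≤ a ∧ a < 2 ^ (u t * (k t + 41) + 1) :=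
    fun t => (hnU (sq t)).1.1
  have hU2 : ∀ t, ∀ n, 4 * 2 ^ (u t * (k t + 25)) ≤ n → n < 2 ^ (u t * (k t + 41)) →
      ∃ a ∈ U t, ∃ b ∈ U t, a + b = n := fun t => (hnU (sq t)).1.2.1
  have hU3 : ∀ t, ∀ n, rp (B (t + 1)) (B (t + 1)) n ≤ rp (B t) (B t) n + (5 * k t + 224) +
      if n < 2 ^ (k t + 29 + u t * (k t + 25)) then 2 ^ (27 * u t) else 0 :=
    fun t => (hnU (sq t)).1.2.2
  have hkmono : ∀ t, k t ≤ k (t + 1) := fun t => (hp (k t) (u t)).1
  have hseq := fun t => hSEQ (k t) (k (t + 1)) (u t) (hp (k t) (u t)).1 (hp (k t) (u t)).2 (huk t)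
  simp only [← husucc] at hseq
  have hulti : ∀ t, u t + 2 ≤ u (t + 1) := fun t => (hseq t).2.2.1
  have hut : ∀ t, t ≤ u t := by
    intro t
    induction t with
    | zero => exact Nat.zero_le _
    | succ t ih => have := hulti t; omega
  have hBmono : ∀ s t, s ≤ t → B s ⊆ B t := by
    intro s t hst
    induction hst with
    | refl => exact Subset.rfl
    | step _ ih => exact ih.trans (by rw [hBsucc]; exact subset_union_left)
  have hEmono : Monotone fun t => u t * (k t + 25) := monotone_nat_of_le_succ fun t => by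
    have := (hseq t).2.2.2.2.1
    omega
  have hpow : ∀ s t, s ≤ t → 2 ^ (u s * (k s + 25)) ≤ 2 ^ (u t * (k t + 25)) := fun s t hst =>
    Nat.pow_le_pow_right (by norm_num) (hEmono hst)
  -- small elements are in the early stages
  have hsmall : ∀ t s a, a ∈ B s → a < 2 ^ (u t * (k t + 25)) → a ∈ B t := by
    intro t s
    induction s with
    | zero => intro a ha _; rw [hB0] at ha; exact absurd ha (notMem_empty _)
    | succ s ih =>
      intro a ha hlt
      rw [hBsucc, mem_union] at ha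
      rcases ha with ha | ha
      · exact ih a ha hlt
      · have h1 := (hU1 s a ha).1
        have h2 : s < t := by
          by_contra hcon
          push Not at hcon
          have := hpow t s hcon
          omega
        apply hBmono (s + 1) t h2
        rw [hBsucc, mem_union]
        exact Or.inr ha
  let A : Set ℕ := {a | ∃ t, a ∈ B t}
  have hrep : ∀ t n, n < 2 ^ (u t * (k t + 25)) → rep A n ≤ rp (B t) (B t) n := by
    intro t n hn
    apply rep_le_rp
    rintro a ⟨s, ha⟩ han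
    exact hsmall t s a ha (by omega)
  have hzero : ∀ t n, 2 ^ (k t + 29 + u t * (k t + 25)) ≤ n → rp (B t) (B t) n = 0 := by
    intro t n hn
    apply rp_zero (hSp t).1
    have : 2 ^ (k t + 29 + u t * (k t + 25)) = 2 * 2 ^ (k t + 28 + u t * (k t + 25)) := by
      rw [← pow_succ']; congr 1; ring
    omega
  refine ⟨A, k, u, hk0, hu0, hksucc, husucc, huk, ?_, ?_, ?_⟩
  · -- covering
    intro n hn
    have hex : ∃ t, n < 2 ^ (u t * (k t + 41)) := by
      refine ⟨n, ?_⟩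
      calc n < 2 ^ n := Nat.lt_two_pow_self
        _ ≤ 2 ^ (u n * (k n + 41)) := by
          apply Nat.pow_le_pow_right (by norm_num)
          have := hut n
          nlinarith
    have h1 := Nat.find_spec hex
    set t := Nat.find hex with ht
    have h2 : 4 * 2 ^ (u t * (k t + 25)) ≤ n := by
      rcases Nat.eq_zero_or_pos t with h | h
      · rw [h]; exact hn
      · obtain ⟨t', ht'⟩ : ∃ t', t = t' + 1 := ⟨t - 1, by omega⟩
        have h3 : ¬ n < 2 ^ (u t' * (k t' + 41)) := Nat.find_min hex (by omega)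
        push Not at h3
        refine le_trans ?_ h3
        rw [ht']
        have h4 := (hseq t').1
        calc 4 * 2 ^ (u (t' + 1) * (k (t' + 1) + 25)) = 2 ^ (u (t' + 1) * (k (t' + 1) + 25) + 2) := by
              rw [pow_add]; ring
          _ ≤ 2 ^ (u t' * (k t' + 41)) := Nat.pow_le_pow_right (by norm_num) h4
    obtain ⟨a, ha, b, hb, hab⟩ := hU2 t n h2 h1
    have hmem : ∀ a ∈ U t, a ∈ A := by
      intro a ha
      refine ⟨t + 1, ?_⟩
      rw [hBsucc, mem_union]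
      exact Or.inr ha
    exact rep_pos_of (hmem a ha) (hmem b hb) hab
  · -- small `n`
    intro n hn
    have h1 := hrep 0 n hn
    rw [hB0] at h1
    simpa [rp] using h1
  · intro t n hn1 hn2
    have h1 := (hrep (t + 1) n hn2).trans (hU3 t n)
    constructor
    · have h2 : rp (B t) (B t) n ≤ 5 * k t + 224 := by
        rcases Nat.eq_zero_or_pos t with h | h
        · rw [h, hB0]; simp [rp]
        · obtain ⟨t', rfl⟩ : ∃ t', t = t' + 1 := ⟨t - 1, by omega⟩
          have h3 : 2 ^ (k t' + 29 + u t' * (k t' + 25)) ≤ n :=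
            (Nat.pow_le_pow_right (by norm_num) (hseq t').2.2.2.2.2.1).trans hn1
          have h4 := hU3 t' n
          rw [hzero t' n h3, if_neg (not_lt.2 h3), Nat.zero_add, Nat.add_zero] at h4
          have h5 := hkmono t'
          omega
      have h5 : (if n < 2 ^ (k t + 29 + u t * (k t + 25)) then 2 ^ (27 * u t) else 0) ≤
          2 ^ (27 * u t) := by
        split_ifs
        · exact le_rfl
        · exact Nat.zero_le _
      calc rep A n ≤ rp (B t) (B t) n + (5 * k t + 224) +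
            if n < 2 ^ (k t + 29 + u t * (k t + 25)) then 2 ^ (27 * u t) else 0 := h1
        _ ≤ (5 * k t + 224) + (5 * k t + 224) + 2 ^ (27 * u t) := by gcongr
        _ = 2 * (5 * k t + 224) + 2 ^ (27 * u t) := by ring
    · intro h2
      rw [hzero t n h2, if_neg (not_lt.2 h2), Nat.zero_add, Nat.add_zero] at h1
      exact h1

end Pool.Agent.H53.BS.ASM3
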