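import Mathlib
import Pool.Agent.H53.ET.Sys

/-!
# Statements for the project BS (MP_12a1af_nt): a basis with `r_A(n) ≤ C n^η` for all `n` and
`r_A(n) ≤ 400/η` outside `O(log K)` of the first `K` dyadic scales
-/

set_option autoImplicit false

open Finset Pool.Agent.H53.ET

namespace Pool.Agent.H53.BS

/-- pairs in `B × P` with prescribed sum modulo `m` -/
def W (B P : Finset ℕ) (m n : ℕ) : ℕ := ((B ×ˢ P).filter (fun r => (r.1 + r.2) % m = n % m)).card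

/-- elements of `B` congruent to `c` modulo `m` -/
def cls (B : Finset ℕ) (m c : ℕ) : ℕ := (B.filter (fun b => b % m = c % m)).card

/-- pairs with prescribed sum -/
def rp (S T : Finset ℕ) (n : ℕ) : ℕ := ((S ×ˢ T).filter (fun r => r.1 + r.2 = n)).card

/-- base points `x + M j`, `1 ≤ j ≤ J` -/
def PP (M J : ℕ) (X : Finset ℕ) : Finset ℕ := (X ×ˢ Icc 1 J).image (fun r => r.1 + M * r.2)

/-- the hashed set `{p + m h(p)}` -/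
def HS (m : ℕ) (P : Finset ℕ) (h : ℕ → ℕ) : Finset ℕ := P.image (fun p => p + m * h p)

/-- the thick set `{y + m₁ z : a ≤ z < b}` -/
def LS (m₁ a b : ℕ) (Y : Finset ℕ) : Finset ℕ := (Y ×ˢ Ico a b).image (fun r => r.1 + m₁ * r.2)

/-- pairs of base points which can be hashed to the sum `n` -/
def CP (m Q : ℕ) (P : Finset ℕ) (n : ℕ) : ℕ :=
  ((P ×ˢ P).filter (fun r => ∃ b ∈ range Q, ∃ b' ∈ range Q,
    (r.1 + m * b) + (r.2 + m * b') = n)).card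

/-- pairs of an element of `B` and a base point which can be hashed to the sum `n` -/
def CB (m Q : ℕ) (P B : Finset ℕ) (n : ℕ) : ℕ :=
  ((B ×ˢ P).filter (fun r => ∃ b ∈ range Q, r.1 + (r.2 + m * b) = n)).card

/-! ### BS-CH: the joint choice of the hash function (model: `choose_v` in `H53/ET/Hash.lean`) -/

def S_CH : Prop := ∀ (M g q : ℕ), 0 < M → 0 < q → g ≤ q → ∀ l : ℝ, 0 ≤ l → 2 * l * g ≤ 1 →
  ∀ (N : Finset ℕ) (f : ℕ → ℕ → ℕ → ℝ) (F : ℕ → ℕ → ℝ),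
  (∀ n p, ∑ b ∈ range q, Real.exp (f n p b) ≤ q * Real.exp (F n p)) →
  ∀ S : Finset ℕ, (∀ x ∈ S, x < M) → ∀ w w' : ℕ → ℝ, (∀ n, 0 ≤ w n) → (∀ n, 0 ≤ w' n) →
  ∃ v : ℕ → ℕ, (∀ p, v p < q) ∧
    ∑ n ∈ N, w n * Real.exp (2 * l * pairSum S (fun x y => (rho M g q n x y (v x) (v y) : ℝ)))
      + ∑ n ∈ N, w' n * Real.exp (∑ p ∈ S, f n p (v p))
    ≤ ∑ n ∈ N, w n * Real.exp (2 * (l * (1 + 2 * l * g)) *
        pairSum S (fun x y => if (x + y) % M = n % M then (1 : ℝ) else 0))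
      + ∑ n ∈ N, w' n * Real.exp (∑ p ∈ S, F n p)

/-! ### BS-WEXT: the number of pairs with the extended set -/

/-- elements `β` of `B` and `τ < g` with `β + p + M (τ + g b) ≡ n` modulo `M g q` -/
def fw (B : Finset ℕ) (M g q n p b : ℕ) : ℕ :=
  ((B ×ˢ range g).filter (fun r => (r.1 + (p + M * (r.2 + g * b))) % (M * (g * q)) =
    n % (M * (g * q)))).card

def S_WEXT : Prop := ∀ (B P : Finset ℕ) (M g q : ℕ) (v : ℕ → ℕ), 0 < M → 0 < g → 0 < q →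
  (∀ n, W B (ext M g P v) (M * (g * q)) n ≤ ∑ p ∈ P, fw B M g q n p (v p)) ∧
  (∀ n p, ∑ b ∈ range q, fw B M g q n p b = (B.filter (fun β => (β + p) % M = n % M)).card) ∧
  (∀ n, ∑ p ∈ P, (B.filter (fun β => (β + p) % M = n % M)).card = W B P M n) ∧
  ∀ (n p b K : ℕ), (∀ c, cls B (M * (g * q)) c ≤ K) → fw B M g q n p b ≤ g * K

/-! ### BS-TW: the towers with a bound for the sums with a given set (from CH, WEXT) -/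

def S_TW : Prop := ∀ (G L : ℕ) (B : Finset ℕ) (κ : ℝ), 8 ≤ G → 0 < κ →
  (∀ t ≤ L, ∀ c, κ * (2 / (G : ℝ)) ^ ((L - t) / 2) * G * cls B (G ^ t) c ≤ 1) →
  ∃ (D : ℕ → Finset ℕ) (v : ℕ → ℕ → ℕ), Tow (fun _ => G) D v ∧
    ∀ t ≤ L, ∀ n, κ * (2 / (G : ℝ)) ^ ((L - t) / 2) * W B (D t) (G ^ t) n ≤
      Real.log (8 * (G : ℝ) ^ t)

/-! ### BS-HASH: the hashed top stage -/

def S_HASH : Prop := ∀ (m Q N : ℕ) (P B : Finset ℕ) (θ S : ℝ), 0 < m → 0 < Q → 0 < N → 0 < θ →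
  (∀ p ∈ P, ∀ p' ∈ P, ∀ b b' : ℕ, b < Q → b' < Q → p + m * b = p' + m * b' → p = p') →
  (∀ n < N, (CP m Q P n : ℝ) + CB m Q P B n ≤ S) → Real.exp (5 * θ) * S ≤ Q →
  ∃ h : ℕ → ℕ, (∀ p, h p < Q) ∧ ∀ n < N,
    θ * ((rp (HS m P h) (HS m P h) n : ℝ) + 2 * rp B (HS m P h) n) ≤ Real.log N + 1

/-! ### BS-CP: counting the possible pairs of base points -/

def S_CP : Prop := ∀ (m Q J : ℕ) (X B : Finset ℕ), 0 < m → 0 < Q → (∀ x ∈ X, x < m) →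
  (∀ p ∈ PP (m * Q) J X, ∀ p' ∈ PP (m * Q) J X, ∀ b b' : ℕ, b < Q → b' < Q →
    p + m * b = p' + m * b' → p = p') ∧
  (∀ n, CP m Q (PP (m * Q) J X) n ≤ 2 * J * Z X m n) ∧
  (∀ n, CB m Q (PP (m * Q) J X) B n ≤ W B X m n)

/-! ### BS-COV, BS-LH, BS-SIZE: thick set and hashed set of one stage -/

def S_COV : Prop := ∀ (G k Q J : ℕ) (D : ℕ → Finset ℕ) (v : ℕ → ℕ → ℕ) (h : ℕ → ℕ),
  Tow (fun _ => G) D v → 2 ≤ Q → (∀ p, h p < Q) →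
  ∀ n, 4 * (G ^ (k + 1) * Q) ≤ n → n < (J + 3) * (G ^ (k + 1) * Q) →
  ∃ a ∈ LS (G ^ k) (G * Q) (3 * (G * Q)) (D k),
    ∃ b ∈ HS (G ^ (k + 1)) (PP (G ^ (k + 1) * Q) J (D (k + 1))) h, a + b = n

def S_LH : Prop := ∀ (G k Q J : ℕ) (D : ℕ → Finset ℕ) (v : ℕ → ℕ → ℕ) (h : ℕ → ℕ),
  Tow (fun _ => G) D v → 0 < Q → (∀ p, h p < Q) →
  ∀ n, rp (LS (G ^ k) (G * Q) (3 * (G * Q)) (D k))
    (HS (G ^ (k + 1)) (PP (G ^ (k + 1) * Q) J (D (k + 1))) h) n ≤ 3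

def S_SIZE : Prop := ∀ (G k Q J : ℕ) (D : ℕ → Finset ℕ) (v : ℕ → ℕ → ℕ) (h : ℕ → ℕ),
  Tow (fun _ => G) D v → 0 < Q → (∀ p, h p < Q) →
  (∀ a ∈ LS (G ^ k) (G * Q) (3 * (G * Q)) (D k),
    G ^ (k + 1) * Q ≤ a ∧ a < 3 * (G ^ (k + 1) * Q)) ∧
  (∀ a ∈ HS (G ^ (k + 1)) (PP (G ^ (k + 1) * Q) J (D (k + 1))) h,
    G ^ (k + 1) * Q ≤ a ∧ a < (J + 1) * (G ^ (k + 1) * Q))

/-! ### BS-LL: sums with the thick set -/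

def S_LL : Prop := ∀ (m a b : ℕ) (Y B : Finset ℕ), 0 < m → (∀ y ∈ Y, y < m) → ∀ n,
  rp (LS m a b Y) (LS m a b Y) n ≤ (b - a) * Z Y m n ∧ rp B (LS m a b Y) n ≤ W B Y m n

/-! ### BS-FIB, BS-CLS: residue classes -/

def S_FIB : Prop := ∀ (G : ℕ) (D : ℕ → Finset ℕ) (v : ℕ → ℕ → ℕ), Tow (fun _ => G) D v →
  ∀ t i, i ≤ t → ∀ c, cls (D t) (G ^ i) c ≤ G ^ ((t - i + 1) / 2)

def S_CLS : Prop := ∀ (u k : ℕ) (D : ℕ → Finset ℕ) (v : ℕ → ℕ → ℕ) (h : ℕ → ℕ),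
  Tow (fun _ => 2 ^ u) D v → (∀ p, h p < 2 ^ (24 * u)) → ∀ e c : ℕ,
  (cls (LS ((2 ^ u) ^ k) (2 ^ u * 2 ^ (24 * u)) (3 * (2 ^ u * 2 ^ (24 * u))) (D k) ∪
    HS ((2 ^ u) ^ (k + 1)) (PP ((2 ^ u) ^ (k + 1) * 2 ^ (24 * u)) (2 ^ (16 * u)) (D (k + 1))) h)
    (2 ^ e) c : ℝ) ≤ 3 * (2 : ℝ) ^ (((u : ℝ) * (k + 52) - e) / 2) + 2 ^ (16 * u) + 1

/-! ### BS-NUM: inequalities for large `u` -/

def S_NUM : Prop := ∀ k : ℕ, ∃ u₀ : ℕ, 3 ≤ u₀ ∧ k + 52 ≤ u₀ ∧ ∀ u ≥ u₀, ∀ G : ℝ, G = 2 ^ u →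
  2 * G ^ 16 * (2 * (((k + 1 : ℕ) : ℝ) + 1) * G * (Real.log (G ^ (k + 1)) + ((k + 1 : ℕ) : ℝ) + 1))
    + G ^ 22 * Real.log (8 * G ^ (k + 1)) ≤ G ^ 23 ∧
  2 * (G ^ 22 * Real.log (8 * G ^ k)) +
    2 * (G * G ^ 24) * (2 * ((k : ℝ) + 1) * G * (Real.log (G ^ k) + (k : ℝ) + 1)) ≤ G ^ 27 ∧
  5 * (Real.log (((2 ^ (u * (k + 42)) : ℕ)) : ℝ) + 1) ≤ (5 * (k : ℝ) + 218) * (u * Real.log 2)

/-! ### BS-STAGE: one stage (from TW, HASH, CP, COV, LH, SIZE, LL, CLS, NUM) -/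

/-- the set `B` of the earlier elements is small and spread -/
def Sp (k u : ℕ) (B : Finset ℕ) : Prop :=
  (∀ b ∈ B, b < 2 ^ (k + 28 + u * (k + 25))) ∧
  ∀ i ≤ k + 1, ∀ c, cls B (2 ^ (u * i)) c ≤ 2 ^ (u * ((k + 1 - i) / 2 + 20))

def S_STAGE : Prop := ∀ k : ℕ, ∃ u₀ : ℕ, ∀ u ≥ u₀, ∀ B : Finset ℕ, Sp k u B → ∃ U : Finset ℕ,
  (∀ a ∈ U, 2 ^ (u * (k + 25)) ≤ a ∧ a < 2 ^ (u * (k + 41) + 1)) ∧
  (∀ n, 4 * 2 ^ (u * (k + 25)) ≤ n → n < 2 ^ (u * (k + 41)) → ∃ a ∈ U, ∃ b ∈ U, a + b = n) ∧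
  (∀ n, rp (B ∪ U) (B ∪ U) n ≤ rp B B n + (5 * k + 224) +
    if n < 2 ^ (k + 29 + u * (k + 25)) then 2 ^ (27 * u) else 0) ∧
  (∀ e c : ℕ, (cls U (2 ^ e) c : ℝ) ≤
    3 * (2 : ℝ) ^ (((u : ℝ) * (k + 52) - e) / 2) + 2 ^ (16 * u) + 1)

/-! ### BS-SEQ: the parameters -/

/-- next parameter -/
def nx (k u : ℕ) : ℕ := (u * (k + 41) - 2) / (k + 25)

def S_SEQ : Prop := ∀ k u : ℕ, k + 52 ≤ u →
  nx k u * (k + 25) + 2 ≤ u * (k + 41) ∧ u * (k + 41) < nx k u * (k + 25) + 2 + (k + 25) ∧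
  u + 2 ≤ nx k u ∧ u * (k + 52) + 8 ≤ nx k u * (k + 40) ∧
  (k + 25) * u + 8 * u ≤ (k + 25) * nx k u ∧
  k + 29 + u * (k + 25) ≤ nx k u * (k + 25)

/-! ### BS-INV: the spread condition for the next stage (from SEQ) -/

/-- bound for the residue classes of the union of the stages before the one with parameter after `u` -/
def Inv (k u : ℕ) (B : Finset ℕ) : Prop :=
  (∀ b ∈ B, b < 2 ^ (u * (k + 41) + 1)) ∧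
  ∀ e c : ℕ, (cls B (2 ^ e) c : ℝ) ≤
    6 * (2 : ℝ) ^ (((u : ℝ) * (k + 52) - e) / 2) + 4 * 2 ^ (16 * u)

def S_INV : Prop := ∀ (k u : ℕ) (B U : Finset ℕ), k + 52 ≤ u →
  (∀ a ∈ U, 2 ^ (u * (k + 25)) ≤ a ∧ a < 2 ^ (u * (k + 41) + 1)) →
  (∀ e c : ℕ, (cls U (2 ^ e) c : ℝ) ≤
    3 * (2 : ℝ) ^ (((u : ℝ) * (k + 52) - e) / 2) + 2 ^ (16 * u) + 1) →
  (B = ∅ ∨ ∃ u' : ℕ, u' + 2 ≤ u ∧ Inv k u' B) →
  Inv k u (B ∪ U) ∧ Sp k (nx k u) (B ∪ U)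

/-! ### BS-ASM: the infinite construction (from STAGE, SEQ, INV) -/

def S_ASM : Prop := ∀ k : ℕ, ∃ (A : Set ℕ) (u : ℕ → ℕ), 1 ≤ u 0 ∧
  (∀ t, (k + 25) * u t + 8 * u t ≤ (k + 25) * u (t + 1)) ∧
  (∀ n, 4 * 2 ^ (u 0 * (k + 25)) ≤ n → 1 ≤ rep A n) ∧
  (∀ n, n < 2 ^ (u 0 * (k + 25)) → rep A n = 0) ∧
  ∀ t n, 2 ^ (u t * (k + 25)) ≤ n → n < 2 ^ (u (t + 1) * (k + 25)) →
    rep A n ≤ 2 * (5 * k + 224) + 2 ^ (27 * u t) ∧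
    (2 ^ (k + 29 + u t * (k + 25)) ≤ n → rep A n ≤ 5 * k + 224)

/-! ### BS-FIN: the theorem (from ASM) -/

def S_FIN : Prop := ∀ η : ℝ, 0 < η → η ≤ 1 → ∃ (A : Set ℕ) (C : ℝ),
  (∀ᶠ n in Filter.atTop, 1 ≤ rep A n) ∧
  (∀ n : ℕ, 1 ≤ n → (rep A n : ℝ) ≤ C * (n : ℝ) ^ η) ∧
  ∀ K : ℕ, 1 ≤ K → (({k : ℕ | k < K ∧ ∃ n, 2 ^ k ≤ n ∧ n < 2 ^ (k + 1) ∧
    400 / η < (rep A n : ℝ)}.ncard : ℕ) : ℝ) ≤ C * (1 + Real.log K)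

end Pool.Agent.H53.BS
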