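import Mathlib
import Pool.Agent.H53.BS.Stm

set_option autoImplicit false

open Finset Pool.Agent.H53.ET

namespace Pool.Agent.H53.BS.CH

theorem main : S_CH := by
  intro M g q hM hq hgq l hl hl2 N f F hf S
  induction S using Finset.induction_on_max with
  | empty =>
    intro _ w w' hw hw'
    exact ⟨fun _ => 0, fun _ => hq, by simp [pairSum]⟩
  | insert p S hp ih =>
    intro hS w w' hw hw'
    have hpS : p ∉ S := fun h => lt_irrefl _ (hp p h)
    have hS' : ∀ x ∈ S, x < M := fun x hx => hS x (mem_insert_of_mem hx)
    set l' : ℝ := l * (1 + 2 * l * g) with hl'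
    obtain ⟨v, hv, hvsum⟩ := ih hS' (fun n => w n * Real.exp (2 * l' *
      ∑ x ∈ S, (if (x + p) % M = n % M then (1 : ℝ) else 0))) (fun n => w' n * Real.exp (F n p))
      (fun n => mul_nonneg (hw n) (Real.exp_pos _).le)
      (fun n => mul_nonneg (hw' n) (Real.exp_pos _).le)
    set R : ℝ := ∑ n ∈ N, w n * Real.exp (2 * l' *
          pairSum (insert p S) (fun x y => if (x + y) % M = n % M then (1 : ℝ) else 0))
          + ∑ n ∈ N, w' n * Real.exp (∑ x ∈ insert p S, F n x) with hR
    have h1 : ∑ b ∈ range q, (∑ n ∈ N, w n *
        Real.exp (2 * l * pairSum S (fun x y => (rho M g q n x y (v x) (v y) : ℝ))) *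
        Real.exp (2 * l * ∑ x ∈ S, (rho M g q n x p (v x) b : ℝ))
        + ∑ n ∈ N, w' n * Real.exp (∑ x ∈ S, f n x (v x)) * Real.exp (f n p b)) ≤ q * R := by
      rw [sum_add_distrib]
      have hA : ∑ b ∈ range q, ∑ n ∈ N, w n *
          Real.exp (2 * l * pairSum S (fun x y => (rho M g q n x y (v x) (v y) : ℝ))) *
          Real.exp (2 * l * ∑ x ∈ S, (rho M g q n x p (v x) b : ℝ))
          ≤ q * ∑ n ∈ N, (w n * Real.exp (2 * l' *
              ∑ x ∈ S, (if (x + p) % M = n % M then (1 : ℝ) else 0))) *
            Real.exp (2 * l * pairSum S (fun x y => (rho M g q n x y (v x) (v y) : ℝ))) := by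
        rw [sum_comm]
        calc _ ≤ ∑ n ∈ N, w n *
            Real.exp (2 * l * pairSum S (fun x y => (rho M g q n x y (v x) (v y) : ℝ))) *
            (q * Real.exp (2 * l' *
              ∑ x ∈ S, (if (x + p) % M = n % M then (1 : ℝ) else 0))) := by
              apply sum_le_sum
              intro n _
              rw [← mul_sum]
              exact mul_le_mul_of_nonneg_left (avg_max M g q n p hM hgq l hl hl2 S hS' v)
                (mul_nonneg (hw n) (Real.exp_pos _).le)
          _ = _ := by
              rw [mul_sum]
              apply sum_congr rfl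
              intro n _
              ring
      have hB : ∑ b ∈ range q, ∑ n ∈ N, w' n * Real.exp (∑ x ∈ S, f n x (v x)) *
          Real.exp (f n p b)
          ≤ q * ∑ n ∈ N, (w' n * Real.exp (F n p)) * Real.exp (∑ x ∈ S, f n x (v x)) := by
        rw [sum_comm]
        calc _ ≤ ∑ n ∈ N, w' n * Real.exp (∑ x ∈ S, f n x (v x)) *
            (q * Real.exp (F n p)) := by
              apply sum_le_sum
              intro n _
              rw [← mul_sum]
              exact mul_le_mul_of_nonneg_left (hf n p)
                (mul_nonneg (hw' n) (Real.exp_pos _).le)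
          _ = _ := by
              rw [mul_sum]
              apply sum_congr rfl
              intro n _
              ring
      refine (add_le_add hA hB).trans ?_
      rw [← mul_add]
      apply mul_le_mul_of_nonneg_left _ (by positivity)
      refine hvsum.trans (le_of_eq ?_)
      rw [hR]
      congr 1
      · apply sum_congr rfl
        intro n _
        rw [pairSum_insert hp, mul_add, Real.exp_add]
        ring
      · apply sum_congr rfl
        intro n _
        rw [sum_insert hpS, Real.exp_add]
        ring
    obtain ⟨b, hb, hb2⟩ : ∃ b ∈ range q, (∑ n ∈ N, w n *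
        Real.exp (2 * l * pairSum S (fun x y => (rho M g q n x y (v x) (v y) : ℝ))) *
        Real.exp (2 * l * ∑ x ∈ S, (rho M g q n x p (v x) b : ℝ))
        + ∑ n ∈ N, w' n * Real.exp (∑ x ∈ S, f n x (v x)) * Real.exp (f n p b)) ≤ R := by
      apply exists_le_of_sum_le (by simpa using hq.ne')
      refine h1.trans (le_of_eq ?_)
      simp
    refine ⟨Function.update v p b, ?_, ?_⟩
    · intro r
      by_cases hr : r = p
      · subst hr
        simpa using hb
      · rw [Function.update_of_ne hr]
        exact hv r
    · refine le_trans (le_of_eq ?_) hb2
      congr 1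
      · apply sum_congr rfl
        intro n _
        have e1 : pairSum S (fun x y => (rho M g q n x y (Function.update v p b x)
            (Function.update v p b y) : ℝ))
            = pairSum S (fun x y => (rho M g q n x y (v x) (v y) : ℝ)) := by
          unfold pairSum
          apply sum_congr rfl
          intro y hy
          apply sum_congr rfl
          intro x hx
          have hx' := (mem_filter.1 hx).1
          simp only
          rw [Function.update_of_ne (hp x hx').ne, Function.update_of_ne (hp y hy).ne]
        have e2 : ∑ x ∈ S, (rho M g q n x p (Function.update v p b x)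
            (Function.update v p b p) : ℝ) = ∑ x ∈ S, (rho M g q n x p (v x) b : ℝ) := by
          apply sum_congr rfl
          intro x hx
          rw [Function.update_of_ne (hp x hx).ne, Function.update_self]
        rw [pairSum_insert hp, e1, e2, mul_add, Real.exp_add]
        ring
      · apply sum_congr rfl
        intro n _
        have e3 : ∑ x ∈ insert p S, f n x (Function.update v p b x) =
            f n p b + ∑ x ∈ S, f n x (v x) := by
          rw [sum_insert hpS, Function.update_self]
          congr 1
          apply sum_congr rfl
          intro x hx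
          rw [Function.update_of_ne (hp x hx).ne]
        rw [e3, Real.exp_add]
        ring

end Pool.Agent.H53.BS.CH
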