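import Pool.Agent.H53.BS.Stm

/-!
# Residue classes of one stage
-/

set_option autoImplicit false

open Finset Pool.Agent.H53.ET

namespace Pool.Agent.H53.BS.CLS

theorem cls_union (S T : Finset ℕ) (m c : ℕ) : cls (S ∪ T) m c ≤ cls S m c + cls T m c := by
  unfold cls
  rw [filter_union]
  exact card_union_le _ _

theorem cls_dvd (S : Finset ℕ) {m m' : ℕ} (h : m ∣ m') (c : ℕ) : cls S m' c ≤ cls S m c := by
  unfold cls
  apply card_le_card
  intro x hx
  rw [mem_filter] at hx ⊢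
  exact ⟨hx.1, Nat.ModEq.of_dvd h hx.2⟩

/-- elements in an interval in a residue class -/
theorem card_Ico_mod (a b q r : ℕ) (_ : 0 < q) :
    ((Ico a b).filter fun z => z % q = r).card ≤ (b - a) / q + 1 := by
  have h : ((Ico a b).filter fun z => z % q = r).card ≤ (range ((b - a) / q + 1)).card := by
    apply card_le_card_of_injOn fun z => (z - a) / q
    · intro z hz
      rw [mem_coe, mem_filter, mem_Ico] at hz
      rw [mem_coe, mem_range]
      exact Nat.lt_succ_of_le (Nat.div_le_div_right (by omega))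
    · intro z hz z' hz' heq
      rw [mem_coe, mem_filter, mem_Ico] at hz hz'
      simp only at heq
      have h1 : z ≡ z' [MOD q] := hz.2.trans hz'.2.symm
      have h2 : z - a ≡ z' - a [MOD q] := by
        apply Nat.ModEq.add_right_cancel' a
        rw [Nat.sub_add_cancel hz.1.1, Nat.sub_add_cancel hz'.1.1]
        exact h1
      have h3 := Nat.div_add_mod (z - a) q
      have h4 := Nat.div_add_mod (z' - a) q
      have h5 : (z - a) % q = (z' - a) % q := h2
      rw [heq, h5] at h3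
      omega
  rwa [card_range] at h

/-- residue classes of a thick set, small modulus -/
theorem cls_LS_small (m N a b : ℕ) (Y : Finset ℕ) (h : N ∣ m) (c : ℕ) :
    cls (LS m a b Y) N c ≤ cls Y N c * (b - a) := by
  unfold cls LS
  rw [filter_image]
  refine card_image_le.trans ?_
  have : ((Y ×ˢ Ico a b).filter fun r => (r.1 + m * r.2) % N = c % N) ⊆
      (Y.filter fun y => y % N = c % N) ×ˢ Ico a b := by
    rintro ⟨y, z⟩ hx
    rw [mem_filter, mem_product] at hx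
    rw [mem_product, mem_filter]
    refine ⟨⟨hx.1.1, ?_⟩, hx.1.2⟩
    obtain ⟨d, rfl⟩ := h
    have h2 := hx.2
    simp only [mul_assoc, Nat.add_mul_mod_self_left] at h2
    exact h2
  refine (card_le_card this).trans ?_
  rw [card_product, Nat.card_Ico]

/-- residue classes of a thick set, large modulus -/
theorem cls_LS_large (m q a b : ℕ) (Y : Finset ℕ) (hm : 0 < m) (hq : 0 < q) (hY : ∀ y ∈ Y, y < m)
    (c : ℕ) : cls (LS m a b Y) (m * q) c ≤ (b - a) / q + 1 := by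
  unfold cls LS
  rw [filter_image]
  refine card_image_le.trans ?_
  by_cases hne : ((Y ×ˢ Ico a b).filter fun r => (r.1 + m * r.2) % (m * q) = c % (m * q)).Nonempty
  swap
  · rw [not_nonempty_iff_eq_empty] at hne
    rw [hne]
    simp
  obtain ⟨⟨y₀, z₀⟩, h0⟩ := hne
  rw [mem_filter, mem_product] at h0
  refine le_trans ?_ (card_Ico_mod a b q (z₀ % q) hq)
  apply card_le_card_of_injOn fun r => r.2
  · rintro ⟨y, z⟩ hx
    rw [mem_coe, mem_filter, mem_product] at hx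
    rw [mem_coe, mem_filter]
    refine ⟨hx.1.2, ?_⟩
    have h1 : y + m * z ≡ y₀ + m * z₀ [MOD m * q] := hx.2.trans h0.2.symm
    have h2 : y = y₀ := by
      have h3 : y + m * z ≡ y₀ + m * z₀ [MOD m] := Nat.ModEq.of_mul_right q h1
      unfold Nat.ModEq at h3
      rwa [Nat.add_mul_mod_self_left, Nat.add_mul_mod_self_left, Nat.mod_eq_of_lt (hY _ hx.1.1),
        Nat.mod_eq_of_lt (hY _ h0.1.1)] at h3
    subst h2
    exact Nat.ModEq.mul_left_cancel' hm.ne' (Nat.ModEq.add_left_cancel' _ h1)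
  · rintro ⟨y, z⟩ hx ⟨y', z'⟩ hx' heq
    rw [mem_coe, mem_filter, mem_product] at hx hx'
    simp only at heq
    subst heq
    have h1 : y + m * z ≡ y' + m * z [MOD m * q] := hx.2.trans hx'.2.symm
    have h2 : y = y' := by
      have h3 : y + m * z ≡ y' + m * z [MOD m] := Nat.ModEq.of_mul_right q h1
      unfold Nat.ModEq at h3
      rwa [Nat.add_mul_mod_self_left, Nat.add_mul_mod_self_left, Nat.mod_eq_of_lt (hY _ hx.1.1),
        Nat.mod_eq_of_lt (hY _ hx'.1.1)] at h3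
    rw [h2]

/-- residue classes of a hashed set, small modulus -/
theorem cls_HS_small (m Q J N : ℕ) (X : Finset ℕ) (h : ℕ → ℕ) (hN : N ∣ m) (c : ℕ) :
    cls (HS m (PP (m * Q) J X) h) N c ≤ cls X N c * J := by
  unfold cls HS PP
  rw [filter_image]
  refine card_image_le.trans ?_
  rw [filter_image]
  refine card_image_le.trans ?_
  have : ((X ×ˢ Icc 1 J).filter fun r =>
      (r.1 + m * Q * r.2 + m * h (r.1 + m * Q * r.2)) % N = c % N) ⊆
      (X.filter fun y => y % N = c % N) ×ˢ Icc 1 J := by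
    rintro ⟨y, z⟩ hx
    rw [mem_filter, mem_product] at hx
    rw [mem_product, mem_filter]
    refine ⟨⟨hx.1.1, ?_⟩, hx.1.2⟩
    obtain ⟨d, rfl⟩ := hN
    have h2 := hx.2
    simp only [mul_assoc, Nat.add_mul_mod_self_left] at h2
    exact h2
  refine (card_le_card this).trans ?_
  rw [card_product, Nat.card_Icc, Nat.add_sub_cancel]

/-- residue classes of a hashed set, large modulus -/
theorem cls_HS_large (m Q J N : ℕ) (X : Finset ℕ) (h : ℕ → ℕ) (hN : m ∣ N) (hX : ∀ x ∈ X, x < m)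
    (c : ℕ) : cls (HS m (PP (m * Q) J X) h) N c ≤ J := by
  refine (cls_dvd _ hN c).trans ((cls_HS_small m Q J m X h dvd_rfl c).trans ?_)
  have : cls X m c ≤ 1 := by
    unfold cls
    rw [card_le_one]
    intro x hx y hy
    rw [mem_filter] at hx hy
    have h1 := hx.2.trans hy.2.symm
    rwa [Nat.mod_eq_of_lt (hX _ hx.1), Nat.mod_eq_of_lt (hX _ hy.1)] at h1
  calc cls X m c * J ≤ 1 * J := Nat.mul_le_mul_right _ this
    _ = J := one_mul J

theorem M_const (G t : ℕ) : M (fun _ => G) t = G ^ t := by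
  induction t with
  | zero => rfl
  | succ t ih =>
    show M (fun _ => G) t * G = _
    rw [ih, pow_succ]

/-- a power of two as a real power -/
theorem two_pow (n : ℕ) : ((2 ^ n : ℕ) : ℝ) = (2 : ℝ) ^ (n : ℝ) := by
  rw [Real.rpow_natCast]
  push_cast
  rfl

/-- the exponent of a residue class -/
theorem exp_bd {u e t : ℕ} (hu : 0 < u) (he : e ≤ u * t) :
    (((u * ((t - e / u + 1) / 2) : ℕ) : ℝ)) ≤ ((u : ℝ) * (t + 2) - e - 1) / 2 := by
  have h1 : e / u ≤ t := by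
    apply Nat.div_le_of_le_mul
    exact he
  have h2 : e < u * (e / u + 1) := Nat.lt_mul_div_succ e hu
  obtain ⟨i, hi⟩ : ∃ i, i = e / u := ⟨_, rfl⟩
  rw [← hi] at h1 h2 ⊢
  obtain ⟨d, hd⟩ : ∃ d, t = i + d := ⟨t - i, by omega⟩
  subst hd
  have e1 : i + d - i + 1 = d + 1 := by omega
  rw [e1]
  have h3 : 2 * ((d + 1) / 2) ≤ d + 1 := Nat.mul_div_le _ _
  have h4 : 2 * (u * ((d + 1) / 2)) + e + 1 ≤ u * (i + d + 2) := by
    have h5 : u * (2 * ((d + 1) / 2)) ≤ u * (d + 1) := Nat.mul_le_mul_left _ h3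
    have e2 : u * (i + d + 2) = u * (i + 1) + u * (d + 1) := by ring
    have e3 : 2 * (u * ((d + 1) / 2)) = u * (2 * ((d + 1) / 2)) := by ring
    omega
  have h5 : 2 * ((u * ((d + 1) / 2) : ℕ) : ℝ) + e + 1 ≤ u * ((i + d : ℕ) + 2) := by
    exact_mod_cast h4
  rw [le_div_iff₀ (by norm_num)]
  linarith

theorem main (hF : S_FIB) : S_CLS := by
  intro u k D v h hT hh e c
  have hG8 : 8 ≤ 2 ^ u := hT.adm.g8 0
  have hu : 0 < u := by
    rcases Nat.eq_zero_or_pos u with h0 | h0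
    · subst h0
      norm_num at hG8
    · exact h0
  have hlt : ∀ t, ∀ x ∈ D t, x < (2 ^ u) ^ t := by
    intro t x hx
    have := hT.D_lt t x hx
    rwa [M_const] at this
  have hpow : ∀ t, (2 ^ u) ^ t = 2 ^ (u * t) := fun t => (pow_mul 2 u t).symm
  obtain ⟨X, hX⟩ : ∃ X : ℝ, X = (2 : ℝ) ^ (((u : ℝ) * (k + 52) - e) / 2) := ⟨_, rfl⟩
  have hX0 : 0 < X := by rw [hX]; positivity
  have huR : (1 : ℝ) ≤ u := by exact_mod_cast hu
  -- classes of the digit sets
  have hD : ∀ t, e ≤ u * t → cls (D t) (2 ^ e) c ≤ 2 ^ (u * ((t - e / u + 1) / 2)) := by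
    intro t he
    have h1 : e / u ≤ t := Nat.div_le_of_le_mul he
    have h2 := hF (2 ^ u) D v hT t (e / u) h1 c
    refine (cls_dvd (D t) (m := (2 ^ u) ^ (e / u)) ?_ c).trans (h2.trans (le_of_eq (hpow _)))
    rw [hpow]
    exact pow_dvd_pow 2 (Nat.mul_div_le e u)
  have hLS : (cls (LS ((2 ^ u) ^ k) (2 ^ u * 2 ^ (24 * u)) (3 * (2 ^ u * 2 ^ (24 * u))) (D k))
      (2 ^ e) c : ℝ) ≤ 2 * X + 1 := by
    have hba : 3 * (2 ^ u * 2 ^ (24 * u)) - 2 ^ u * 2 ^ (24 * u) = 2 ^ (25 * u + 1) := by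
      have e1 : 2 ^ (25 * u + 1) = 2 * (2 ^ u * 2 ^ (24 * u)) := by
        rw [← pow_add, pow_succ, mul_comm]
        congr 2
        ring
      omega
    rcases le_or_gt e (u * k) with he | he
    · have h1 := cls_LS_small ((2 ^ u) ^ k) (2 ^ e) (2 ^ u * 2 ^ (24 * u))
        (3 * (2 ^ u * 2 ^ (24 * u))) (D k) (by rw [hpow]; exact pow_dvd_pow 2 he) c
      rw [hba] at h1
      have h2 := h1.trans (Nat.mul_le_mul_right _ (hD k he))
      have h3 : (cls (LS ((2 ^ u) ^ k) (2 ^ u * 2 ^ (24 * u)) (3 * (2 ^ u * 2 ^ (24 * u))) (D k))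
          (2 ^ e) c : ℝ) ≤ ((2 ^ (u * ((k - e / u + 1) / 2) + (25 * u + 1)) : ℕ) : ℝ) := by
        rw [pow_add]
        exact_mod_cast h2
      rw [two_pow] at h3
      have h4 : (2 : ℝ) ^ (((u * ((k - e / u + 1) / 2) + (25 * u + 1) : ℕ)) : ℝ) ≤ 2 * X := by
        have e2 : 2 * X = (2 : ℝ) ^ (1 + ((u : ℝ) * (k + 52) - e) / 2) := by
          rw [hX, Real.rpow_add (by norm_num), Real.rpow_one]
        rw [e2]
        apply Real.rpow_le_rpow_of_exponent_le (by norm_num)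
        have h5 := exp_bd hu he
        rw [Nat.cast_add]
        push_cast at h5 ⊢
        linarith
      linarith
    · obtain ⟨q, hq⟩ : ∃ q, e = u * k + q := ⟨e - u * k, by omega⟩
      have h1 := cls_LS_large ((2 ^ u) ^ k) (2 ^ q) (2 ^ u * 2 ^ (24 * u))
        (3 * (2 ^ u * 2 ^ (24 * u))) (D k) (by positivity) (by positivity) (hlt k) c
      have e1 : (2 ^ u) ^ k * 2 ^ q = 2 ^ e := by rw [hpow, ← pow_add, hq]
      rw [hba, e1] at h1
      have h2 : ((2 ^ (25 * u + 1) / 2 ^ q : ℕ) : ℝ) ≤ 2 * X := by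
        refine Nat.cast_div_le.trans ?_
        rw [two_pow, two_pow, ← Real.rpow_sub (by norm_num)]
        have e2 : 2 * X = (2 : ℝ) ^ (1 + ((u : ℝ) * (k + 52) - e) / 2) := by
          rw [hX, Real.rpow_add (by norm_num), Real.rpow_one]
        rw [e2]
        apply Real.rpow_le_rpow_of_exponent_le (by norm_num)
        have h5 : (e : ℝ) = u * k + q := by exact_mod_cast hq
        push_cast
        rw [h5]
        have h6 : (0 : ℝ) ≤ q := Nat.cast_nonneg _
        linarith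
      have h3 : (cls (LS ((2 ^ u) ^ k) (2 ^ u * 2 ^ (24 * u)) (3 * (2 ^ u * 2 ^ (24 * u))) (D k))
          (2 ^ e) c : ℝ) ≤ ((2 ^ (25 * u + 1) / 2 ^ q : ℕ) : ℝ) + 1 := by exact_mod_cast h1
      linarith
  have hHS : (cls (HS ((2 ^ u) ^ (k + 1)) (PP ((2 ^ u) ^ (k + 1) * 2 ^ (24 * u)) (2 ^ (16 * u))
      (D (k + 1))) h) (2 ^ e) c : ℝ) ≤ X + 2 ^ (16 * u) := by
    rcases le_or_gt e (u * (k + 1)) with he | he
    · have h1 := cls_HS_small ((2 ^ u) ^ (k + 1)) (2 ^ (24 * u)) (2 ^ (16 * u)) (2 ^ e) (D (k + 1)) h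
        (by rw [hpow]; exact pow_dvd_pow 2 he) c
      have h2 := h1.trans (Nat.mul_le_mul_right _ (hD (k + 1) he))
      have h3 : (cls (HS ((2 ^ u) ^ (k + 1)) (PP ((2 ^ u) ^ (k + 1) * 2 ^ (24 * u)) (2 ^ (16 * u))
          (D (k + 1))) h) (2 ^ e) c : ℝ) ≤
          ((2 ^ (u * ((k + 1 - e / u + 1) / 2) + 16 * u) : ℕ) : ℝ) := by
        rw [← pow_add 2 (u * ((k + 1 - e / u + 1) / 2)) (16 * u)] at h2
        exact_mod_cast h2
      rw [two_pow] at h3
      have h4 : (2 : ℝ) ^ (((u * ((k + 1 - e / u + 1) / 2) + 16 * u : ℕ)) : ℝ) ≤ X := by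
        rw [hX]
        apply Real.rpow_le_rpow_of_exponent_le (by norm_num)
        have h5 := exp_bd hu he
        rw [Nat.cast_add]
        push_cast at h5 ⊢
        linarith
      have h5 : (0 : ℝ) ≤ 2 ^ (16 * u) := by positivity
      linarith
    · have h1 := cls_HS_large ((2 ^ u) ^ (k + 1)) (2 ^ (24 * u)) (2 ^ (16 * u)) (2 ^ e) (D (k + 1)) h
        (by rw [hpow]; exact pow_dvd_pow 2 he.le) (hlt (k + 1)) c
      have h2 : (cls (HS ((2 ^ u) ^ (k + 1)) (PP ((2 ^ u) ^ (k + 1) * 2 ^ (24 * u)) (2 ^ (16 * u))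
          (D (k + 1))) h) (2 ^ e) c : ℝ) ≤ 2 ^ (16 * u) := by exact_mod_cast h1
      linarith
  have hU : (cls (LS ((2 ^ u) ^ k) (2 ^ u * 2 ^ (24 * u)) (3 * (2 ^ u * 2 ^ (24 * u))) (D k) ∪
      HS ((2 ^ u) ^ (k + 1)) (PP ((2 ^ u) ^ (k + 1) * 2 ^ (24 * u)) (2 ^ (16 * u)) (D (k + 1))) h)
      (2 ^ e) c : ℝ) ≤
      (cls (LS ((2 ^ u) ^ k) (2 ^ u * 2 ^ (24 * u)) (3 * (2 ^ u * 2 ^ (24 * u))) (D k)) (2 ^ e) c :
        ℝ) + (cls (HS ((2 ^ u) ^ (k + 1)) (PP ((2 ^ u) ^ (k + 1) * 2 ^ (24 * u)) (2 ^ (16 * u))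
          (D (k + 1))) h) (2 ^ e) c : ℝ) := by
    exact_mod_cast cls_union _ _ _ _
  rw [← hX]
  linarith

end Pool.Agent.H53.BS.CLS
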