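import Pool.Agent.H53.BS.Stm3

/-! BS-COR3: the corollary for the parameter `c √j`. -/

set_option autoImplicit false

open Finset Filter Pool.Agent.H53.ET

namespace Pool.Agent.H53.BS.COR3

theorem main : S_FIN3 → S_COR3 := by
  intro hFIN δ hδ
  -- the constant `c`
  obtain ⟨c, hc0, hc1, hc2⟩ : ∃ c : ℝ, 0 < c ∧ c ≤ 1 / 2 ∧ 300 * c ^ 2 ≤ δ := by
    refine ⟨min (1 / 2) √(δ / 300), lt_min (by norm_num) (Real.sqrt_pos.2 (by positivity)),
      min_le_left _ _, ?_⟩
    have h1 : 0 ≤ min (1 / 2) √(δ / 300) := le_min (by norm_num) (Real.sqrt_nonneg _)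
    have h2 : min (1 / 2) √(δ / 300) ^ 2 ≤ √(δ / 300) ^ 2 :=
      pow_le_pow_left₀ h1 (min_le_right _ _) 2
    rw [Real.sq_sqrt (by positivity)] at h2
    linarith
  set κ : ℕ → ℝ := fun j => max 1 (c * √(j : ℝ)) with hκ
  have hκ1 : ∀ j : ℕ, 1 ≤ κ j := fun j => le_max_left _ _
  have hκc : ∀ j : ℕ, c * √(j : ℝ) ≤ κ j := fun j => le_max_right _ _
  have hmono : Monotone κ := by
    intro i j hij
    refine max_le_max le_rfl ?_
    gcongr
  have hreg : ∀ i j : ℕ, 1 ≤ i → i ≤ j → κ j * √(i : ℝ) ≤ κ i * √(j : ℝ) := by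
    intro i j _ hij
    have h1 : √(i : ℝ) ≤ √(j : ℝ) := Real.sqrt_le_sqrt (by exact_mod_cast hij)
    have h2 : 0 ≤ √(i : ℝ) := Real.sqrt_nonneg _
    have h3 : 0 ≤ √(j : ℝ) := Real.sqrt_nonneg _
    show max 1 (c * √(j : ℝ)) * √(i : ℝ) ≤ κ i * √(j : ℝ)
    rw [max_mul_of_nonneg _ _ h2]
    refine max_le ?_ ?_
    · rw [one_mul]
      nlinarith [hκ1 i]
    · have := mul_le_mul_of_nonneg_right (hκc i) h3
      linarith
  have hfour : ∃ j : ℕ, 1 ≤ j ∧ 2 * κ j ≤ √(j : ℝ) := by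
    refine ⟨4, by norm_num, ?_⟩
    have h4 : √((4 : ℕ) : ℝ) = 2 := by
      rw [show ((4 : ℕ) : ℝ) = 2 ^ 2 by norm_num, Real.sqrt_sq (by norm_num)]
    show 2 * max 1 (c * √((4 : ℕ) : ℝ)) ≤ √((4 : ℕ) : ℝ)
    rw [h4]
    have : max 1 (c * 2) ≤ 1 := max_le le_rfl (by linarith)
    linarith
  obtain ⟨A, C₀, hA1, hA2, hA3⟩ := hFIN κ hκ1 hmono hreg hfour
  set J := ⌈1 / c ^ 2⌉₊ with hJ
  set C := max (56 / c) 240 + |C₀| + 300 * (J : ℝ) with hC
  have hCa : 56 / c ≤ C := by
    have := le_max_left (56 / c) 240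
    have := abs_nonneg C₀
    have : (0 : ℝ) ≤ 300 * (J : ℝ) := by positivity
    linarith
  have hCb : 240 ≤ C := by
    have := le_max_right (56 / c) 240
    have := abs_nonneg C₀
    have : (0 : ℝ) ≤ 300 * (J : ℝ) := by positivity
    linarith
  have hCc : C₀ + 300 * (J : ℝ) ≤ C := by
    have := le_max_right (56 / c) 240
    have := le_abs_self C₀
    linarith
  refine ⟨A, C, hA1, ?_, ?_⟩
  · intro n hn
    refine (hA2 n hn).trans ?_
    set L := Nat.log 2 n with hL
    have hn0 : (0 : ℝ) < n := by exact_mod_cast hn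
    have hn1 : (1 : ℝ) ≤ n := by exact_mod_cast hn
    rw [Real.rpow_def_of_pos hn0]
    apply Real.exp_le_exp.2
    have hlog0 : 0 ≤ Real.log n := Real.log_nonneg hn1
    rcases Nat.eq_zero_or_pos L with hL0 | hL0
    · have h1 : n < 2 ^ (L + 1) := Nat.lt_pow_succ_log_self (by norm_num) n
      rw [hL0] at h1
      have h2 : n = 1 := by omega
      rw [h2]
      simp
    · have hL1 : (1 : ℝ) ≤ L := by exact_mod_cast hL0
      have h1 : (n : ℝ) ≤ 2 ^ (L + 1) := by
        exact_mod_cast (Nat.lt_pow_succ_log_self (by norm_num) n).le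
      have h2 : Real.log n ≤ 2 * L := by
        have h3 := Real.log_le_log hn0 h1
        rw [Real.log_pow] at h3
        push_cast at h3
        have h4 := Real.log_two_lt_d9
        have h5 : 0 < Real.log 2 := Real.log_pos (by norm_num)
        nlinarith
      have hs1 : √(Real.log n) ≤ 2 * √(L : ℝ) := by
        rw [Real.sqrt_le_iff]
        refine ⟨by positivity, ?_⟩
        rw [mul_pow, Real.sq_sqrt (by positivity)]
        linarith
      have hsL : 0 < √(L : ℝ) := Real.sqrt_pos.2 (by linarith)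
      have hκL : 0 < κ L := lt_of_lt_of_le one_pos (hκ1 L)
      have h3 : Real.log n = √(Real.log n) * √(Real.log n) := (Real.mul_self_sqrt hlog0).symm
      have hs0 : 0 ≤ √(Real.log n) := Real.sqrt_nonneg _
      calc Real.log n * (28 / κ L) = √(Real.log n) * (28 * √(Real.log n) / κ L) := by
            nth_rewrite 1 [h3]
            ring
        _ ≤ √(Real.log n) * (56 / c) := by
            apply mul_le_mul_of_nonneg_left _ hs0
            rw [div_le_div_iff₀ hκL hc0]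
            have h4 := hκc L
            nlinarith
        _ ≤ √(Real.log n) * C := mul_le_mul_of_nonneg_left hCa hs0
        _ = C * √(Real.log n) := mul_comm _ _
  · intro K
    have hfin : {k : ℕ | k < K ∧ ∃ n, 2 ^ k ≤ n ∧ n < 2 ^ (k + 1) ∧
        6 * κ k + 224 < (rep A n : ℝ)}.Finite :=
      (Set.finite_Iio K).subset fun k hk => hk.1
    have hsub : {k : ℕ | k < K ∧ ∃ n, 2 ^ k ≤ n ∧ n < 2 ^ (k + 1) ∧
        C * √((k : ℝ) + 1) < (rep A n : ℝ)} ⊆ {k : ℕ | k < K ∧ ∃ n, 2 ^ k ≤ n ∧ n < 2 ^ (k + 1) ∧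
        6 * κ k + 224 < (rep A n : ℝ)} := by
      rintro k ⟨hk, n, hn1, hn2, hn3⟩
      refine ⟨hk, n, hn1, hn2, lt_of_le_of_lt ?_ hn3⟩
      have h1 : (1 : ℝ) ≤ √((k : ℝ) + 1) := by
        rw [Real.one_le_sqrt]
        have : (0 : ℝ) ≤ k := Nat.cast_nonneg k
        linarith
      have h2 : √(k : ℝ) ≤ √((k : ℝ) + 1) := Real.sqrt_le_sqrt (by linarith)
      have h0 : 0 ≤ √(k : ℝ) := Real.sqrt_nonneg _
      have h3 : κ k ≤ 1 + c * √(k : ℝ) := max_le (by nlinarith) (by linarith)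
      have h4 : c * √(k : ℝ) ≤ 1 / 2 * √((k : ℝ) + 1) := mul_le_mul hc1 h2 h0 (by norm_num)
      have h5 : 240 * √((k : ℝ) + 1) ≤ C * √((k : ℝ) + 1) :=
        mul_le_mul_of_nonneg_right hCb (by linarith)
      linarith
    have h1 : (({k : ℕ | k < K ∧ ∃ n, 2 ^ k ≤ n ∧ n < 2 ^ (k + 1) ∧
        C * √((k : ℝ) + 1) < (rep A n : ℝ)}.ncard : ℕ) : ℝ) ≤
        (({k : ℕ | k < K ∧ ∃ n, 2 ^ k ≤ n ∧ n < 2 ^ (k + 1) ∧
        6 * κ k + 224 < (rep A n : ℝ)}.ncard : ℕ) : ℝ) := by
      exact_mod_cast Set.ncard_le_ncard hsub hfin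
    refine h1.trans ((hA3 K).trans ?_)
    have h2 : ∀ j ∈ Icc 1 K, κ j ^ 2 / j ≤ c ^ 2 + if j ∈ range J then (1 : ℝ) else 0 := by
      intro j hj
      have hj1 : 1 ≤ j := (mem_Icc.1 hj).1
      have hj1' : (1 : ℝ) ≤ j := by exact_mod_cast hj1
      have hj0 : (0 : ℝ) < j := by linarith
      rw [div_le_iff₀ hj0]
      have hsq : √(j : ℝ) ^ 2 = j := Real.sq_sqrt hj0.le
      by_cases hjJ : j < J
      · rw [if_pos (mem_range.2 hjJ)]
        have h3 : κ j ^ 2 ≤ 1 + c ^ 2 * j := by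
          rcases le_total 1 (c * √(j : ℝ)) with h | h
          · have : κ j = c * √(j : ℝ) := max_eq_right h
            rw [this, mul_pow, hsq]
            linarith
          · have : κ j = 1 := max_eq_left h
            rw [this]
            have : 0 ≤ c ^ 2 * j := by positivity
            linarith
        linarith
      · rw [if_neg (by simpa using hjJ), add_zero]
        push Not at hjJ
        have h3 : 1 / c ^ 2 ≤ j := (Nat.le_ceil _).trans (by exact_mod_cast hjJ)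
        rw [div_le_iff₀ (by positivity)] at h3
        have h4 : 1 ≤ c * √(j : ℝ) := by
          have h5 : (1 : ℝ) ^ 2 ≤ (c * √(j : ℝ)) ^ 2 := by
            rw [mul_pow, hsq]
            linarith
          exact le_of_sq_le_sq h5 (by positivity)
        have : κ j = c * √(j : ℝ) := max_eq_right h4
        rw [this, mul_pow, hsq]
    have h3 : ∑ j ∈ Icc 1 K, κ j ^ 2 / j ≤ c ^ 2 * K + J := by
      refine (sum_le_sum h2).trans ?_
      rw [sum_add_distrib, sum_const, Nat.card_Icc, Nat.add_sub_cancel, nsmul_eq_mul]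
      have h4 : ∑ j ∈ Icc 1 K, (if j ∈ range J then (1 : ℝ) else 0) ≤ J := by
        rw [← sum_filter, sum_const, nsmul_eq_mul, mul_one]
        have h5 : ((Icc 1 K).filter fun j => j ∈ range J).card ≤ (range J).card :=
          card_le_card fun j hj => (mem_filter.1 hj).2
        rw [card_range] at h5
        exact_mod_cast h5
      linarith
    have hK : (0 : ℝ) ≤ K := Nat.cast_nonneg K
    have h6 : 300 * c ^ 2 * K ≤ δ * K := mul_le_mul_of_nonneg_right hc2 hK
    linarith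

end Pool.Agent.H53.BS.COR3
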