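import Pool.Agent.H53.BS.Stm

set_option autoImplicit false

/-! # BS-COV: covering by the thick set and the hashed set (helper71) -/

open Finset Pool.Agent.H53.ET

namespace Pool.Agent.H53.BS.COV

theorem M_const (G : ℕ) : ∀ t, M (fun _ => G) t = G ^ t := by
  intro t
  induction t with
  | zero => rfl
  | succ t ih =>
    show M (fun _ => G) t * G = G ^ (t + 1)
    rw [ih, pow_succ]

theorem main : S_COV := by
  intro G k Q J D v h T hQ hh n hn1 hn2
  obtain ⟨d, hd, β, hβ, x, hx, hmod⟩ := (T.decode k).1 n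
  have hG8 : 8 ≤ G := T.adm.g8 0
  have hdl := T.D_lt k d hd
  have hxl := T.D_lt (k + 1) x hx
  rw [M_const] at hdl hxl hmod
  rw [M_const] at hmod
  obtain ⟨m, hm⟩ : ∃ m, m = G ^ (k + 1) := ⟨_, rfl⟩
  obtain ⟨m₀, hm₀⟩ : ∃ m₀, m₀ = G ^ k := ⟨_, rfl⟩
  have hmm : m = m₀ * G := by rw [hm, hm₀, pow_succ]
  rw [← hm] at hxl hmod hn1 hn2 ⊢
  rw [← hm₀] at hdl hmod ⊢
  have hdb : d + m₀ * β < m := by
    have h1 : m₀ * (β + 1) ≤ m₀ * G := Nat.mul_le_mul_left _ hβ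
    have h2 : m₀ * (β + 1) = m₀ * β + m₀ := by ring
    omega
  have hm0 : 0 < m := by omega
  have hmQ : 2 * m ≤ m * Q := by
    rw [mul_comm 2 m]
    exact Nat.mul_le_mul_left _ hQ
  have hle : d + m₀ * β + x ≤ n := by omega
  obtain ⟨w, hw⟩ := (Nat.modEq_iff_dvd' hle).1 hmod
  have hn : n = d + m₀ * β + x + m * w := by omega
  have hw1 : 3 * Q ≤ w := by
    have h1 : m * (3 * Q) < m * w := by
      have h2 : m * (3 * Q) = 3 * (m * Q) := by ring
      omega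
    exact (Nat.lt_of_mul_lt_mul_left h1).le
  have hw2 : w < (J + 3) * Q := by
    have h1 : m * w < m * ((J + 3) * Q) := by
      have h2 : m * ((J + 3) * Q) = (J + 3) * (m * Q) := by ring
      omega
    exact Nat.lt_of_mul_lt_mul_left h1
  have hQ0 : 0 < Q := by omega
  have hf1 : 3 ≤ w / Q := (Nat.le_div_iff_mul_le hQ0).2 hw1
  have hf2 : w / Q < J + 3 := (Nat.div_lt_iff_lt_mul hQ0).2 hw2
  obtain ⟨j, hj⟩ : ∃ j, w / Q = j + 2 := ⟨w / Q - 2, by omega⟩
  have hj1 : 1 ≤ j := by omega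
  have hj2 : j ≤ J := by omega
  have hwd := Nat.div_add_mod w Q
  have hwm := Nat.mod_lt w hQ0
  rw [hj] at hwd
  obtain ⟨p, hp⟩ : ∃ p, p = x + m * Q * j := ⟨_, rfl⟩
  have hhp := hh p
  obtain ⟨y, hy⟩ : ∃ y, y + h p + Q * j = w ∧ Q ≤ y ∧ y < 3 * Q := by
    refine ⟨w - Q * j - h p, ?_, ?_, ?_⟩
    · have : Q * (j + 2) = Q * j + 2 * Q := by ring
      omega
    · have : Q * (j + 2) = Q * j + 2 * Q := by ring
      omega
    · have : Q * (j + 2) = Q * j + 2 * Q := by ring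
      omega
  obtain ⟨hy0, hy1, hy2⟩ := hy
  refine ⟨d + m₀ * (β + G * y), ?_, p + m * h p, ?_, ?_⟩
  · unfold LS
    rw [Finset.mem_image]
    refine ⟨(d, β + G * y), ?_, rfl⟩
    rw [Finset.mem_product, Finset.mem_Ico]
    refine ⟨hd, ?_, ?_⟩
    · show G * Q ≤ β + G * y
      have := Nat.mul_le_mul_left G hy1
      omega
    · show β + G * y < 3 * (G * Q)
      have h1 : G * (y + 1) ≤ G * (3 * Q) := Nat.mul_le_mul_left G hy2
      have h2 : G * (y + 1) = G * y + G := by ring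
      have h3 : G * (3 * Q) = 3 * (G * Q) := by ring
      have hβ' : β < G := hβ
      omega
  · unfold HS PP
    rw [Finset.mem_image]
    refine ⟨p, ?_, rfl⟩
    rw [Finset.mem_image]
    exact ⟨(x, j), by rw [Finset.mem_product, Finset.mem_Icc]; exact ⟨hx, hj1, hj2⟩, hp.symm⟩
  · obtain ⟨H, hH⟩ : ∃ H, H = h p := ⟨_, rfl⟩
    rw [hn, ← hy0, ← hH, hp, hmm]
    ring

end Pool.Agent.H53.BS.COV
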