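import Pool.Agent.H53.BS.Stm

/-! # BS-CP: counting the possible pairs of base points (helper21) -/

set_option autoImplicit false

open Finset Pool.Agent.H53.ET

namespace Pool.Agent.H53.BS.CP

theorem mem_PP {M J : ℕ} {X : Finset ℕ} {p : ℕ} (h : p ∈ PP M J X) :
    ∃ x ∈ X, ∃ j, 1 ≤ j ∧ j ≤ J ∧ p = x + M * j := by
  unfold PP at h
  rw [mem_image] at h
  obtain ⟨⟨x, j⟩, h1, h2⟩ := h
  rw [mem_product, mem_Icc] at h1
  exact ⟨x, h1.1, j, h1.2.1, h1.2.2, h2.symm⟩

theorem mod_eq {m Q x j : ℕ} (hx : x < m) : (x + m * Q * j) % m = x := by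
  rw [mul_assoc, Nat.add_mul_mod_self_left, Nat.mod_eq_of_lt hx]

theorem div_eq {m Q x j : ℕ} (hx : x < m) (hQ : 0 < Q) : (x + m * Q * j) / (m * Q) = j := by
  have h1 : x < m * Q := lt_of_lt_of_le hx (Nat.le_mul_of_pos_right m hQ)
  rw [Nat.add_mul_div_left _ _ (by omega), Nat.div_eq_of_lt h1, zero_add]

theorem sep (m Q J : ℕ) (X : Finset ℕ) (hm : 0 < m) (_hQ : 0 < Q) (hX : ∀ x ∈ X, x < m) :
    ∀ p ∈ PP (m * Q) J X, ∀ p' ∈ PP (m * Q) J X, ∀ b b' : ℕ, b < Q → b' < Q →
    p + m * b = p' + m * b' → p = p' := by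
  intro p hp p' hp' b b' hb hb' h
  obtain ⟨x, hx, j, -, -, rfl⟩ := mem_PP hp
  obtain ⟨x', hx', j', -, -, rfl⟩ := mem_PP hp'
  have e1 : x + m * Q * j + m * b = x + m * (b + Q * j) := by ring
  have e2 : x' + m * Q * j' + m * b' = x' + m * (b' + Q * j') := by ring
  rw [e1, e2] at h
  have h1 := congrArg (· % m) h
  simp only [Nat.add_mul_mod_self_left, Nat.mod_eq_of_lt (hX x hx),
    Nat.mod_eq_of_lt (hX x' hx')] at h1
  subst h1
  have h2 : b + Q * j = b' + Q * j' := Nat.eq_of_mul_eq_mul_left hm (Nat.add_left_cancel h)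
  obtain ⟨-, h3⟩ := digit_unique hb hb' h2
  rw [h3]

theorem main : S_CP := by
  intro m Q J X B hm hQ hX
  refine ⟨sep m Q J X hm hQ hX, ?_, ?_⟩
  · intro n
    have hZ : 2 * J * Z X m n =
        ((((X ×ˢ X).filter (fun q => (q.1 + q.2) % m = n % m)) ×ˢ (Icc 1 J ×ˢ range 2))).card := by
      rw [card_product, card_product, Nat.card_Icc, card_range, Z]
      simp only [Nat.add_sub_cancel]
      ring
    rw [hZ, BS.CP]
    apply card_le_card_of_injOn (fun r : ℕ × ℕ => ((r.1 % m, r.2 % m), (r.1 / (m * Q),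
      (n - r.1 % m - r.2 % m) / m / Q - (r.1 / (m * Q) + r.2 / (m * Q)))))
    · rintro ⟨p, p'⟩ h
      simp only [coe_filter, mem_product, Set.mem_ofPred_eq, mem_range] at h
      obtain ⟨⟨hp, hp'⟩, b, hb, b', hb', hs⟩ := h
      obtain ⟨x, hx, j, hj1, hj2, rfl⟩ := mem_PP hp
      obtain ⟨x', hx', j', hj1', hj2', rfl⟩ := mem_PP hp'
      have e : n = (x + x') + m * (Q * (j + j') + (b + b')) := by rw [← hs]; ring
      have e2 : (n - x - x') / m / Q = (j + j') + (b + b') / Q := by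
        have : n - x - x' = m * (Q * (j + j') + (b + b')) := by omega
        rw [this, Nat.mul_div_cancel_left _ hm, Nat.mul_add_div hQ]
      simp only [coe_product, Set.mem_prod, mem_coe, mem_filter, mem_product, mem_Icc, mem_range,
        mod_eq (hX x hx), mod_eq (hX x' hx'), div_eq (hX x hx) hQ, div_eq (hX x' hx') hQ]
      refine ⟨⟨⟨hx, hx'⟩, ?_⟩, ⟨hj1, hj2⟩, ?_⟩
      · rw [e, Nat.add_mul_mod_self_left]
      · rw [e2, Nat.add_sub_cancel_left]
        exact Nat.div_lt_of_lt_mul (by omega)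
    · rintro ⟨p, p'⟩ h ⟨q, q'⟩ h2 heq
      simp only [coe_filter, mem_product, Set.mem_ofPred_eq, mem_range] at h h2
      obtain ⟨⟨hp, hp'⟩, b, hb, b', hb', hs⟩ := h
      obtain ⟨⟨hq, hq'⟩, c, hc, c', hc', hs2⟩ := h2
      obtain ⟨x, hx, j, hj1, hj2, rfl⟩ := mem_PP hp
      obtain ⟨x', hx', j', hj1', hj2', rfl⟩ := mem_PP hp'
      obtain ⟨y, hy, i, hi1, hi2, rfl⟩ := mem_PP hq
      obtain ⟨y', hy', i', hi1', hi2', rfl⟩ := mem_PP hq'
      have e : n = (x + x') + m * (Q * (j + j') + (b + b')) := by rw [← hs]; ring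
      have e' : n = (y + y') + m * (Q * (i + i') + (c + c')) := by rw [← hs2]; ring
      have e2 : (n - x - x') / m / Q = (j + j') + (b + b') / Q := by
        have : n - x - x' = m * (Q * (j + j') + (b + b')) := by omega
        rw [this, Nat.mul_div_cancel_left _ hm, Nat.mul_add_div hQ]
      have e2' : (n - y - y') / m / Q = (i + i') + (c + c') / Q := by
        have : n - y - y' = m * (Q * (i + i') + (c + c')) := by omega
        rw [this, Nat.mul_div_cancel_left _ hm, Nat.mul_add_div hQ]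
      simp only [Prod.mk.injEq, mod_eq (hX x hx), mod_eq (hX x' hx'), div_eq (hX x hx) hQ,
        div_eq (hX x' hx') hQ, mod_eq (hX y hy), mod_eq (hX y' hy'), div_eq (hX y hy) hQ,
        div_eq (hX y' hy') hQ] at heq
      obtain ⟨⟨h1, h1'⟩, h2, h3⟩ := heq
      subst h1; subst h1'; subst h2
      rw [e2] at h3
      have h4 : (j + j') + (b + b') / Q = (j + i') + (c + c') / Q := e2.symm.trans e2'
      have h6 : j' = i' := by
        clear e e' e2 e2'
        generalize (b + b') / Q = A at h3 h4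
        generalize (c + c') / Q = A' at h4
        omega
      rw [h6]
  · intro n
    unfold CB W
    apply card_le_card_of_injOn (fun r : ℕ × ℕ => (r.1, r.2 % m))
    · rintro ⟨β, p⟩ h
      simp only [coe_filter, mem_product, Set.mem_ofPred_eq, mem_range] at h ⊢
      obtain ⟨⟨hβ, hp⟩, b, hb, hs⟩ := h
      obtain ⟨x, hx, j, hj1, hj2, rfl⟩ := mem_PP hp
      rw [mod_eq (hX x hx)]
      refine ⟨⟨hβ, hx⟩, ?_⟩
      have e : n = (β + x) + m * (Q * j + b) := by rw [← hs]; ring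
      rw [e, Nat.add_mul_mod_self_left]
    · rintro ⟨β, p⟩ h ⟨β', p'⟩ h2 heq
      simp only [coe_filter, mem_product, Set.mem_ofPred_eq, mem_range] at h h2
      obtain ⟨⟨hβ, hp⟩, b, hb, hs⟩ := h
      obtain ⟨⟨hβ', hp'⟩, b', hb', hs'⟩ := h2
      simp only [Prod.mk.injEq] at heq
      obtain ⟨rfl, -⟩ := heq
      have h3 : p + m * b = p' + m * b' := by omega
      rw [sep m Q J X hm hQ hX p hp p' hp' b b' hb hb' h3]

end Pool.Agent.H53.BS.CP
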