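import Pool.Agent.H53.BS.Stm

set_option autoImplicit false

open Finset Pool.Agent.H53.ET

namespace Pool.Agent.H53.BS.FIB

open Pool.Agent.H53.BS

theorem M_pow (G t : ℕ) : M (fun _ => G) t = G ^ t := by
  induction t with
  | zero => rfl
  | succ t ih =>
    show M (fun _ => G) t * G = G ^ (t + 1)
    rw [ih, pow_succ]

theorem cls_ext_le (G t i : ℕ) (P : Finset ℕ) (v : ℕ → ℕ) (hi : i ≤ t) (c : ℕ) :
    cls (ext (G ^ t) G P v) (G ^ i) c ≤ cls P (G ^ i) c * G := by
  have hsub : (ext (G ^ t) G P v).filter (fun b => b % G ^ i = c % G ^ i) ⊆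
      ((P.filter (fun b => b % G ^ i = c % G ^ i)) ×ˢ range G).image
        (fun r => r.1 + G ^ t * (r.2 + G * v r.1)) := by
    intro x hx
    rw [mem_filter] at hx
    obtain ⟨hx, hxc⟩ := hx
    obtain ⟨p, hp, s, hs, rfl⟩ := mem_ext.1 hx
    rw [mem_image]
    refine ⟨(p, s), ?_, rfl⟩
    rw [mem_product, mem_filter, mem_range]
    refine ⟨⟨hp, ?_⟩, hs⟩
    rw [← hxc]
    have e : G ^ t = G ^ i * G ^ (t - i) := by
      rw [← pow_add]
      congr 1
      omega
    rw [e, mul_assoc, Nat.add_mul_mod_self_left]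
  unfold cls
  refine (card_le_card hsub).trans (card_image_le.trans ?_)
  rw [card_product, card_range]

theorem cls_ext_one (G t : ℕ) (P : Finset ℕ) (v : ℕ → ℕ) (hP : ∀ x ∈ P, x < G ^ t) (c : ℕ) :
    cls (ext (G ^ t) G P v) (G ^ (t + 1)) c ≤ G := by
  have hsub : (ext (G ^ t) G P v).filter (fun b => b % G ^ (t + 1) = c % G ^ (t + 1)) ⊆
      (range G).image (fun s => c % G ^ t + G ^ t * (s + G * v (c % G ^ t))) := by
    intro x hx
    rw [mem_filter] at hx
    obtain ⟨hx, hxc⟩ := hx
    obtain ⟨p, hp, s, hs, rfl⟩ := mem_ext.1 hx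
    rw [mem_image]
    refine ⟨s, mem_range.2 hs, ?_⟩
    have h1 : (p + G ^ t * (s + G * v p)) % G ^ t = c % G ^ t := by
      have h2 := congrArg (· % G ^ t) hxc
      simp only [pow_succ] at h2
      rwa [Nat.mod_mul_right_mod, Nat.mod_mul_right_mod] at h2
    rw [Nat.add_mul_mod_self_left, Nat.mod_eq_of_lt (hP p hp)] at h1
    rw [← h1]
  unfold cls
  refine (card_le_card hsub).trans (card_image_le.trans ?_)
  rw [card_range]

theorem cls_le_one {B : Finset ℕ} {m c : ℕ} (h : ∀ b ∈ B, b < m) : cls B m c ≤ 1 := by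
  unfold cls
  rw [card_le_one]
  intro a ha b hb
  rw [mem_filter] at ha hb
  rw [Nat.mod_eq_of_lt (h a ha.1)] at ha
  rw [Nat.mod_eq_of_lt (h b hb.1)] at hb
  rw [ha.2, hb.2]

theorem cls_zero (m c : ℕ) : cls {0} m c ≤ 1 := by
  unfold cls
  refine (card_filter_le _ _).trans ?_
  rw [card_singleton]

theorem main : S_FIB := by
  intro G D v T
  have hG : 0 < G := T.adm.g_pos 0
  have hM := M_pow G
  intro t
  induction t using Nat.twoStepInduction with
  | zero =>
    intro i _ c
    rw [T.D0]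
    exact (cls_zero _ _).trans (Nat.one_le_pow _ _ hG)
  | one =>
    intro i _ c
    rw [T.D1]
    exact (cls_zero _ _).trans (Nat.one_le_pow _ _ hG)
  | more t ih _ =>
    intro i hi c
    have hlt : ∀ x ∈ D t, x < G ^ t := by
      intro x hx
      have := T.D_lt t x hx
      rwa [hM] at this
    have hlt2 : ∀ x ∈ D (t + 2), x < G ^ (t + 2) := by
      intro x hx
      have := T.D_lt (t + 2) x hx
      rwa [hM] at this
    have hD := T.hD t
    rw [hM] at hD
    rcases Nat.lt_or_ge t i with h | h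
    · rcases Nat.lt_or_ge (t + 1) i with h' | h'
      · have e : i = t + 2 := by omega
        subst e
        exact (cls_le_one hlt2).trans (Nat.one_le_pow _ _ hG)
      · have e : i = t + 1 := by omega
        subst e
        rw [hD]
        refine (cls_ext_one G t (D t) (v t) hlt c).trans ?_
        have e : (t + 2 - (t + 1) + 1) / 2 = 1 := by omega
        rw [e, pow_one]
    · rw [hD]
      refine (cls_ext_le G t i (D t) (v t) h c).trans ?_
      have e : (t + 2 - i + 1) / 2 = (t - i + 1) / 2 + 1 := by omega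
      rw [e, pow_succ]
      exact Nat.mul_le_mul_right _ (ih i h c)

end Pool.Agent.H53.BS.FIB
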