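import Pool.Agent.H53.BS.Stm

/-!
# The theorem on the basis with `r_A(n) ≤ C n^η`, from the construction
-/

set_option autoImplicit false

open Finset Pool.Agent.H53.ET

namespace Pool.Agent.H53.BS.FIN

theorem main (hA : S_ASM) : S_FIN := by
  intro η hη hη1
  obtain ⟨k, hk⟩ : ∃ k : ℕ, k = ⌈27 / η⌉₊ := ⟨_, rfl⟩
  have hk1 : 27 / η ≤ k := by rw [hk]; exact Nat.le_ceil _
  have hk2 : (k : ℝ) < 27 / η + 1 := by rw [hk]; exact Nat.ceil_lt_add_one (by positivity)
  have hkη : 27 ≤ k * η := by rwa [div_le_iff₀ hη] at hk1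
  have h400 : 5 * (k : ℝ) + 224 ≤ 400 / η := by
    have h1 : 1 ≤ 1 / η := by
      rw [le_div_iff₀ hη]
      linarith
    have e1 : 27 / η = 27 * (1 / η) := by ring
    have e2 : 400 / η = 400 * (1 / η) := by ring
    rw [e1] at hk2
    rw [e2]
    linarith
  obtain ⟨A, u, hu0, hus, hcov, hzero, hrep⟩ := hA k
  have hu1 : ∀ t, 1 ≤ u t := by
    intro t
    induction t with
    | zero => exact hu0
    | succ t ih =>
      have := hus t
      by_contra hcon
      have h0 : u (t + 1) = 0 := by omega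
      rw [h0, mul_zero] at this
      nlinarith
  have hmono : ∀ t, u t + 1 ≤ u (t + 1) := by
    intro t
    by_contra hcon
    have h1 : u (t + 1) ≤ u t := by omega
    have h2 := hus t
    have h3 : (k + 25) * u (t + 1) ≤ (k + 25) * u t := Nat.mul_le_mul_left _ h1
    have h4 := hu1 t
    omega
  have hge : ∀ t, t ≤ u t := by
    intro t
    induction t with
    | zero => exact Nat.zero_le _
    | succ t ih => exact (Nat.add_le_add_right ih 1).trans (hmono t)
  -- the stage of a number
  have hst : ∀ n, 2 ^ (u 0 * (k + 25)) ≤ n → ∃ t, 2 ^ (u t * (k + 25)) ≤ n ∧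
      n < 2 ^ (u (t + 1) * (k + 25)) := by
    intro n hn
    have hex : ∃ T, n < 2 ^ (u T * (k + 25)) := by
      refine ⟨n, ?_⟩
      calc n < 2 ^ n := Nat.lt_two_pow_self
        _ ≤ 2 ^ (u n * (k + 25)) := by
          apply Nat.pow_le_pow_right (by norm_num)
          calc n ≤ u n := hge n
            _ = u n * 1 := (mul_one _).symm
            _ ≤ u n * (k + 25) := Nat.mul_le_mul_left _ (by omega)
    classical
    have h1 := Nat.find_spec hex
    obtain ⟨t, ht⟩ : ∃ t, Nat.find hex = t + 1 := by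
      cases h : Nat.find hex with
      | zero =>
        rw [h] at h1
        omega
      | succ t => exact ⟨t, rfl⟩
    refine ⟨t, ?_, by rw [← ht]; exact h1⟩
    by_contra hcon
    push Not at hcon
    exact Nat.find_min hex (by omega) hcon
  obtain ⟨r, hr⟩ : ∃ r : ℝ, r = 1 + 8 / (k + 25) := ⟨_, rfl⟩
  have hr1 : 1 < r := by
    rw [hr]
    have : (0 : ℝ) < 8 / (k + 25) := by positivity
    linarith
  have hlr : 0 < Real.log r := Real.log_pos hr1
  have hgrow : ∀ t, r ^ t ≤ u t := by
    intro t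
    induction t with
    | zero => simpa using hu0
    | succ t ih =>
      have h1 : ((k + 25) * u t + 8 * u t : ℝ) ≤ (k + 25) * u (t + 1) := by exact_mod_cast hus t
      have h2 : r * u t ≤ u (t + 1) := by
        rw [hr]
        have h3 : (0 : ℝ) < k + 25 := by positivity
        have e : (1 + 8 / ((k : ℝ) + 25)) * u t = ((k + 25) * u t + 8 * u t) / (k + 25) := by
          field_simp
        rw [e, div_le_iff₀ h3]
        linarith
      calc r ^ (t + 1) = r * r ^ t := by ring
        _ ≤ r * u t := mul_le_mul_of_nonneg_left ih (by linarith)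
        _ ≤ u (t + 1) := h2
  obtain ⟨C, hC⟩ : ∃ C : ℝ, C = (2 * (5 * k + 224) + 1) + (k + 29) * (1 + 1 / Real.log r) :=
    ⟨_, rfl⟩
  have hC0 : 0 < C := by rw [hC]; positivity
  refine ⟨A, C, ?_, ?_, ?_⟩
  · filter_upwards [Filter.eventually_ge_atTop (4 * 2 ^ (u 0 * (k + 25)))] with n hn
    exact hcov n hn
  · intro n hn
    have hnR : (1 : ℝ) ≤ n := by exact_mod_cast hn
    have hnη : 1 ≤ (n : ℝ) ^ η := Real.one_le_rpow hnR hη.le
    rcases lt_or_ge n (2 ^ (u 0 * (k + 25))) with h | h
    · rw [hzero n h, Nat.cast_zero]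
      positivity
    · obtain ⟨t, h1, h2⟩ := hst n h
      have h3 := (hrep t n h1 h2).1
      have h4 : ((rep A n : ℕ) : ℝ) ≤ 2 * (5 * k + 224) + (2 : ℝ) ^ (27 * u t) := by
        exact_mod_cast h3
      have h5 : (2 : ℝ) ^ (27 * u t) ≤ (n : ℝ) ^ η := by
        have h6 : ((2 : ℝ) ^ (u t * (k + 25))) ≤ n := by exact_mod_cast h1
        calc (2 : ℝ) ^ (27 * u t) = (2 : ℝ) ^ ((27 * u t : ℕ) : ℝ) := (Real.rpow_natCast _ _).symm
          _ ≤ (2 : ℝ) ^ (((u t * (k + 25) : ℕ) : ℝ) * η) := by
            apply Real.rpow_le_rpow_of_exponent_le (by norm_num)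
            push_cast
            have h7 : (0 : ℝ) ≤ u t := Nat.cast_nonneg _
            have h8 : 27 * (u t : ℝ) ≤ (k * η) * u t := mul_le_mul_of_nonneg_right hkη h7
            nlinarith [mul_nonneg h7 hη.le]
          _ = ((2 : ℝ) ^ (u t * (k + 25))) ^ η := by
            rw [Real.rpow_mul (by norm_num), Real.rpow_natCast]
          _ ≤ (n : ℝ) ^ η := Real.rpow_le_rpow (by positivity) h6 hη.le
      have h6 : (2 * (5 * (k : ℝ) + 224) + 1) ≤ C := by
        rw [hC]
        have : 0 ≤ ((k : ℝ) + 29) * (1 + 1 / Real.log r) := by positivity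
        linarith
      have h7 : 2 * (5 * (k : ℝ) + 224) ≤ 2 * (5 * (k : ℝ) + 224) * (n : ℝ) ^ η :=
        le_mul_of_one_le_right (by positivity) hnη
      have h8 := mul_le_mul_of_nonneg_right h6 (show 0 ≤ (n : ℝ) ^ η by positivity)
      linarith
  · intro K hK
    have hKR : (1 : ℝ) ≤ K := by exact_mod_cast hK
    have hlK : 0 ≤ Real.log K := Real.log_nonneg hKR
    obtain ⟨T, hT⟩ : ∃ T : ℕ, T = ⌊Real.log K / Real.log r⌋₊ := ⟨_, rfl⟩
    have hsub : {κ : ℕ | κ < K ∧ ∃ n, 2 ^ κ ≤ n ∧ n < 2 ^ (κ + 1) ∧ 400 / η < (rep A n : ℝ)} ⊆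
        (((range (T + 1) ×ˢ range (k + 29)).image
          fun p : ℕ × ℕ => u p.1 * (k + 25) + p.2 : Finset ℕ) : Set ℕ) := by
      rintro κ ⟨hκ, n, hn1, hn2, hn3⟩
      have h1 : 2 ^ (u 0 * (k + 25)) ≤ n := by
        by_contra hcon
        push Not at hcon
        rw [hzero n hcon, Nat.cast_zero] at hn3
        have : 0 < 400 / η := by positivity
        linarith
      obtain ⟨t, h2, h3⟩ := hst n h1
      have h4 : n < 2 ^ (k + 29 + u t * (k + 25)) := by
        by_contra hcon
        push Not at hcon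
        have h5 : ((rep A n : ℕ) : ℝ) ≤ 5 * k + 224 := by exact_mod_cast (hrep t n h2 h3).2 hcon
        linarith
      have h5 : u t * (k + 25) < κ + 1 :=
        (Nat.pow_lt_pow_iff_right (by norm_num)).1 (h2.trans_lt hn2)
      have h6 : κ < k + 29 + u t * (k + 25) :=
        (Nat.pow_lt_pow_iff_right (by norm_num)).1 (hn1.trans_lt h4)
      have h7 : t ≤ T := by
        rw [hT]
        apply Nat.le_floor
        rw [le_div_iff₀ hlr]
        have h8 : (u t : ℝ) ≤ K := by
          have h9 : u t ≤ u t * (k + 25) := Nat.le_mul_of_pos_right _ (by omega)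
          have h10 : u t ≤ K := by omega
          exact_mod_cast h10
        calc (t : ℝ) * Real.log r = Real.log (r ^ t) := (Real.log_pow _ _).symm
          _ ≤ Real.log K := Real.log_le_log (by positivity) ((hgrow t).trans h8)
      rw [mem_coe, mem_image]
      exact ⟨(t, κ - u t * (k + 25)), mem_product.2 ⟨mem_range.2 (by omega),
        mem_range.2 (by simp only; omega)⟩, by simp only; omega⟩
    have h1 : ({κ : ℕ | κ < K ∧ ∃ n, 2 ^ κ ≤ n ∧ n < 2 ^ (κ + 1) ∧
        400 / η < (rep A n : ℝ)}.ncard) ≤ (T + 1) * (k + 29) := by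
      refine (Set.ncard_le_ncard hsub (finite_toSet _)).trans ?_
      rw [Set.ncard_coe_finset]
      refine card_image_le.trans ?_
      rw [card_product, card_range, card_range]
    have h2 : (T : ℝ) ≤ Real.log K / Real.log r := by
      rw [hT]
      exact Nat.floor_le (by positivity)
    have h3 : ((({κ : ℕ | κ < K ∧ ∃ n, 2 ^ κ ≤ n ∧ n < 2 ^ (κ + 1) ∧
        400 / η < (rep A n : ℝ)}.ncard) : ℕ) : ℝ) ≤ ((T : ℝ) + 1) * (k + 29) := by
      exact_mod_cast h1
    refine h3.trans ?_
    have h4 : ((T : ℝ) + 1) * (k + 29) ≤ (k + 29) * (1 + 1 / Real.log r) * (1 + Real.log K) := by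
      have e : Real.log K / Real.log r = Real.log K * (1 / Real.log r) := by ring
      rw [e] at h2
      have h5 : 0 ≤ 1 / Real.log r := by positivity
      have h6 : (T : ℝ) + 1 ≤ (1 + 1 / Real.log r) * (1 + Real.log K) := by nlinarith
      have h7 := mul_le_mul_of_nonneg_right h6 (show 0 ≤ (k : ℝ) + 29 by positivity)
      linarith
    have h5 : (k + 29) * (1 + 1 / Real.log r) ≤ C := by
      rw [hC]
      have : 0 ≤ (2 * (5 * (k : ℝ) + 224) + 1) := by positivity
      linarith
    exact h4.trans (mul_le_mul_of_nonneg_right h5 (by linarith))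

end Pool.Agent.H53.BS.FIN
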