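import Pool.Agent.H53.BS.Stm2

/-!
# The theorem with growing parameter, from the construction
-/

set_option autoImplicit false

open Finset Filter Pool.Agent.H53.ET

namespace Pool.Agent.H53.BS.FIN2

theorem main (hA : S_ASM2) : S_FIN2 := by
  intro ω hω
  have hτ : ∀ k : ℕ, ∃ j₀ : ℕ, ∀ j ≥ j₀, ((k : ℝ) + 300) ^ 2 ≤ ω j := by
    intro k
    exact Filter.eventually_atTop.1 (hω.eventually_ge_atTop _)
  choose τ hτ using hτ
  obtain ⟨A, k, u, hk0, hku, hks, hkt, hE, hcov, hzero, hrep⟩ := hA τ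
  have hkm : Monotone k := monotone_nat_of_le_succ (fun t => by rcases hks t with h | h <;> omega)
  obtain ⟨E, hEd⟩ : ∃ E : ℕ → ℕ, ∀ t, E t = u t * (k t + 25) := ⟨_, fun _ => rfl⟩
  have hE0 : E 0 = u 0 * 25 := by rw [hEd, hk0]
  have hEs : ∀ t, E t + 8 * u t ≤ E (t + 1) := by
    intro t
    rw [hEd, hEd]
    exact hE t
  have huE : ∀ t, u t ≤ E t := by
    intro t
    rw [hEd]
    exact Nat.le_mul_of_pos_right _ (by omega)
  have hEm : StrictMono E := strictMono_nat_of_lt_succ (fun t => by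
    have h1 := hEs t
    have h2 := (hku t).2
    omega)
  have hEge : ∀ t, t ≤ E t := fun t => hEm.le_apply
  have hrep' : ∀ t n, 2 ^ E t ≤ n → n < 2 ^ E (t + 1) →
      rep A n ≤ 2 * (5 * k t + 224) + 2 ^ (27 * u t) ∧
      (2 ^ (k t + 29 + E t) ≤ n → rep A n ≤ 5 * k t + 224) := by
    intro t n h1 h2
    rw [hEd] at h1 h2
    rw [hEd]
    exact hrep t n h1 h2
  rw [← hE0] at hcov
  -- the stage of a number
  have hst : ∀ n, 2 ^ E 0 ≤ n → ∃ t, 2 ^ E t ≤ n ∧ n < 2 ^ E (t + 1) := by
    intro n hn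
    have hex : ∃ T, n < 2 ^ E T := ⟨n, lt_of_lt_of_le Nat.lt_two_pow_self
      (Nat.pow_le_pow_right (by norm_num) (hEge n))⟩
    classical
    have h1 := Nat.find_spec hex
    obtain ⟨t, ht⟩ : ∃ t, Nat.find hex = t + 1 := by
      cases h : Nat.find hex with
      | zero =>
        rw [h] at h1
        omega
      | succ t => exact ⟨t, rfl⟩
    refine ⟨t, ?_, by rw [← ht]; exact h1⟩
    by_contra hcon
    push Not at hcon
    exact Nat.find_min hex (by omega) hcon
  refine ⟨A, ?_, ?_, ?_⟩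
  · filter_upwards [Filter.eventually_ge_atTop (4 * 2 ^ E 0)] with n hn
    exact hcov n hn
  · intro ε hε
    -- from some stage on the exponent is at most `ε`
    obtain ⟨T₀, hT₀⟩ : ∃ T₀ : ℕ, ∀ t ≥ T₀, ⌈28 / ε⌉₊ ≤ k t :=
      Filter.eventually_atTop.1 (hkt.eventually_ge_atTop _)
    filter_upwards [Filter.eventually_ge_atTop (2 ^ E T₀)] with n hn
    have h0 : 2 ^ E 0 ≤ n :=
      (Nat.pow_le_pow_right (by norm_num) (hEm.monotone (Nat.zero_le T₀))).trans hn
    obtain ⟨t, h1, h2⟩ := hst n h0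
    have htT : T₀ ≤ t := by
      have h3 : E T₀ < E (t + 1) := (Nat.pow_lt_pow_iff_right (by norm_num)).1 (hn.trans_lt h2)
      have h4 := hEm.lt_iff_lt.1 h3
      omega
    have hkt1 : 28 / ε ≤ (k t : ℝ) := (Nat.le_ceil _).trans (by exact_mod_cast hT₀ t htT)
    have hkt2 : 28 ≤ (k t : ℝ) * ε := by rwa [div_le_iff₀ hε] at hkt1
    have h3 := (hrep' t n h1 h2).1
    have h4 : 2 * (5 * k t + 224) ≤ 2 ^ (27 * u t) := by
      have h5 := (hku t).2
      calc 2 * (5 * k t + 224) ≤ 2 ^ 4 * u t := by omega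
        _ ≤ 2 ^ 4 * 2 ^ u t := Nat.mul_le_mul_left _ (Nat.lt_two_pow_self).le
        _ = 2 ^ (4 + u t) := by rw [pow_add]
        _ ≤ 2 ^ (27 * u t) := Nat.pow_le_pow_right (by norm_num) (by omega)
    have h5 : rep A n ≤ 2 ^ (28 * u t) := by
      have h6 := (hku t).2
      calc rep A n ≤ 2 ^ (27 * u t) + 2 ^ (27 * u t) := by omega
        _ = 2 ^ (27 * u t + 1) := by rw [pow_succ]; ring
        _ ≤ 2 ^ (28 * u t) := Nat.pow_le_pow_right (by norm_num) (by omega)
    have h6 : (rep A n : ℝ) ≤ (2 : ℝ) ^ (28 * u t) := by exact_mod_cast h5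
    refine h6.trans ?_
    have h7 : ((2 : ℝ) ^ E t) ≤ n := by exact_mod_cast h1
    calc (2 : ℝ) ^ (28 * u t) = (2 : ℝ) ^ ((28 * u t : ℕ) : ℝ) := (Real.rpow_natCast _ _).symm
      _ ≤ (2 : ℝ) ^ (((E t : ℕ) : ℝ) * ε) := by
        apply Real.rpow_le_rpow_of_exponent_le (by norm_num)
        rw [hEd]
        push_cast
        have h8 : (0 : ℝ) ≤ u t := Nat.cast_nonneg _
        have h9 : 28 * (u t : ℝ) ≤ (k t * ε) * u t := mul_le_mul_of_nonneg_right hkt2 h8
        nlinarith [mul_nonneg h8 hε.le]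
      _ = ((2 : ℝ) ^ E t) ^ ε := by
        rw [Real.rpow_mul (by norm_num), Real.rpow_natCast]
      _ ≤ (n : ℝ) ^ ε := Real.rpow_le_rpow (by positivity) h7 hε.le
  · have hlog : ∀ᶠ K : ℕ in atTop, (E 0 : ℝ) + 1 ≤ Real.log K :=
      (Real.tendsto_log_atTop.comp tendsto_natCast_atTop_atTop).eventually_ge_atTop _
    filter_upwards [hlog, Filter.eventually_gt_atTop (E 0)] with K hK hKE
    have hex : ∃ T, K ≤ E T := ⟨K, hEge K⟩
    classical
    have hT1 := Nat.find_spec hex
    obtain ⟨s, hs⟩ : ∃ s, Nat.find hex = s + 1 := by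
      cases h : Nat.find hex with
      | zero =>
        rw [h] at hT1
        omega
      | succ t => exact ⟨t, rfl⟩
    rw [hs] at hT1
    have hT2 : E s < K := by
      by_contra hcon
      push Not at hcon
      exact Nat.find_min hex (by omega) hcon
    have hωK : ((k s : ℝ) + 300) ^ 2 ≤ ω K :=
      hτ (k s) K (((hku s).1.trans (huE s)).trans hT2.le)
    have hsub : {j : ℕ | j < K ∧ ∃ n, 2 ^ j ≤ n ∧ n < 2 ^ (j + 1) ∧ ω j < (rep A n : ℝ)} ⊆
        (((range (E 0)) ∪ (range (s + 1) ×ˢ range (k s + 29)).image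
          fun p : ℕ × ℕ => E p.1 + p.2 : Finset ℕ) : Set ℕ) := by
      rintro j ⟨hj, n, hn1, hn2, hn3⟩
      rw [mem_coe, mem_union]
      rcases lt_or_ge j (E 0) with h | h
      · exact Or.inl (mem_range.2 h)
      · right
        have h1 : 2 ^ E 0 ≤ n := (Nat.pow_le_pow_right (by norm_num) h).trans hn1
        obtain ⟨t, h2, h3⟩ := hst n h1
        have h5 : E t < j + 1 := (Nat.pow_lt_pow_iff_right (by norm_num)).1 (h2.trans_lt hn2)
        have h7 : t < s + 1 := by
          have h8 : E t < E (s + 1) := by omega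
          exact hEm.lt_iff_lt.1 h8
        have hks' : k t ≤ k s := hkm (by omega)
        have h4 : n < 2 ^ (k t + 29 + E t) := by
          by_contra hcon
          push Not at hcon
          have h9 : ((rep A n : ℕ) : ℝ) ≤ 5 * k t + 224 := by
            exact_mod_cast (hrep' t n h2 h3).2 hcon
          have h10 : ((k t : ℝ) + 300) ^ 2 ≤ ω j :=
            hτ (k t) j (((hku t).1.trans (huE t)).trans (by omega))
          have h11 : (0 : ℝ) ≤ k t := Nat.cast_nonneg _
          nlinarith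
        have h6 : j < k t + 29 + E t :=
          (Nat.pow_lt_pow_iff_right (by norm_num)).1 (hn1.trans_lt h4)
        rw [mem_image]
        exact ⟨(t, j - E t), mem_product.2 ⟨mem_range.2 h7,
          mem_range.2 (by simp only; omega)⟩, by simp only; omega⟩
    have h1 : ({j : ℕ | j < K ∧ ∃ n, 2 ^ j ≤ n ∧ n < 2 ^ (j + 1) ∧
        ω j < (rep A n : ℝ)}.ncard) ≤ E 0 + (s + 1) * (k s + 29) := by
      refine (Set.ncard_le_ncard hsub (finite_toSet _)).trans ?_
      rw [Set.ncard_coe_finset]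
      refine (card_union_le _ _).trans ?_
      rw [card_range]
      refine Nat.add_le_add_left (card_image_le.trans ?_) _
      rw [card_product, card_range, card_range]
    have h3 : ((({j : ℕ | j < K ∧ ∃ n, 2 ^ j ≤ n ∧ n < 2 ^ (j + 1) ∧
        ω j < (rep A n : ℝ)}.ncard) : ℕ) : ℝ) ≤ (E 0 : ℝ) + ((s : ℝ) + 1) * (k s + 29) := by
      exact_mod_cast h1
    refine h3.trans ?_
    -- the number of stages
    obtain ⟨κ, hκ⟩ : ∃ κ : ℝ, κ = k s := ⟨_, rfl⟩
    have hκ0 : 0 ≤ κ := by rw [hκ]; exact Nat.cast_nonneg _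
    obtain ⟨r, hr⟩ : ∃ r : ℝ, r = 1 + 8 / (κ + 25) := ⟨_, rfl⟩
    have hr1 : 1 < r := by
      rw [hr]
      have : (0 : ℝ) < 8 / (κ + 25) := by positivity
      linarith
    have hgrow : ∀ t ≤ s, r ^ t ≤ E t := by
      intro t
      induction t with
      | zero =>
        intro _
        have h4 : 1 ≤ E 0 := by
          have := (hku 0).2
          have := huE 0
          omega
        simpa using h4
      | succ t ih =>
        intro hts
        have h4 := ih (by omega)
        have h5 : ((E t : ℝ) + 8 * u t) ≤ E (t + 1) := by exact_mod_cast hEs t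
        have h6 : (E t : ℝ) = u t * (k t + 25) := by rw [hEd]; push_cast; ring
        have h7 : (k t : ℝ) ≤ κ := by
          rw [hκ]
          exact_mod_cast hkm (by omega : t ≤ s)
        have h8 : 8 / (κ + 25) * E t ≤ 8 * u t := by
          rw [h6, div_mul_eq_mul_div, div_le_iff₀ (by positivity)]
          have h9 : (0 : ℝ) ≤ u t := Nat.cast_nonneg _
          nlinarith [mul_le_mul_of_nonneg_left h7 h9]
        calc r ^ (t + 1) = r * r ^ t := by ring
          _ ≤ r * E t := mul_le_mul_of_nonneg_left h4 (by linarith)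
          _ = E t + 8 / (κ + 25) * E t := by rw [hr]; ring
          _ ≤ E (t + 1) := by linarith
    have hlr : 8 / (κ + 33) ≤ Real.log r := by
      have h4 := Real.one_sub_inv_le_log_of_pos (show 0 < r by linarith)
      have h5 : 1 - r⁻¹ = 8 / (κ + 33) := by
        rw [hr]
        field_simp
        ring
      rwa [h5] at h4
    have hsK : (s : ℝ) * Real.log r ≤ Real.log K := by
      have h4 : (E s : ℝ) ≤ K := by exact_mod_cast hT2.le
      calc (s : ℝ) * Real.log r = Real.log (r ^ s) := (Real.log_pow _ _).symm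
        _ ≤ Real.log K := Real.log_le_log (by positivity) ((hgrow s le_rfl).trans h4)
    have hs1 : (s : ℝ) * 8 ≤ Real.log K * (κ + 33) := by
      have h4 : (s : ℝ) * (8 / (κ + 33)) ≤ Real.log K :=
        (mul_le_mul_of_nonneg_left hlr (Nat.cast_nonneg _)).trans hsK
      have h5 : (s : ℝ) * (8 / (κ + 33)) = (s * 8) / (κ + 33) := by ring
      rw [h5, div_le_iff₀ (by positivity)] at h4
      exact h4
    rw [← hκ] at hωK ⊢
    have hlK : (1 : ℝ) ≤ Real.log K := by
      have : (0 : ℝ) ≤ E 0 := Nat.cast_nonneg _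
      linarith
    have h6 : ((κ + 300) ^ 2) * Real.log K ≤ ω K * Real.log K :=
      mul_le_mul_of_nonneg_right hωK (by linarith)
    refine le_trans ?_ h6
    have h7 : (s : ℝ) * (κ + 29) ≤ Real.log K * (κ + 33) * (κ + 29) / 8 := by
      nlinarith
    have h8 : (κ + 29) ≤ (κ + 29) * Real.log K := by nlinarith
    have h9 : 0 ≤ Real.log K * κ := by positivity
    have h10 : 0 ≤ Real.log K * κ ^ 2 := by positivity
    nlinarith

end Pool.Agent.H53.BS.FIN2
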