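import Pool.Agent.H53.BS.Stm3

/-!
# The theorem with an arbitrary regular parameter function, from the construction
-/

set_option autoImplicit false

open Finset Filter Pool.Agent.H53.ET

namespace Pool.Agent.H53.BS.FIN3

/-- the rule for the number of levels -/
noncomputable def rule (κ : ℕ → ℝ) (k u : ℕ) : ℕ := max k (min (k + 8) ⌊κ (u * (k + 41))⌋₊)

theorem rule_bounds (κ : ℕ → ℝ) (k u : ℕ) : k ≤ rule κ k u ∧ rule κ k u ≤ k + 8 :=
  ⟨le_max_left _ _, max_le (by omega) (min_le_left _ _)⟩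

theorem ratio {κ : ℕ → ℝ} (h1 : ∀ j, 1 ≤ κ j)
    (ha : ∀ i j : ℕ, 1 ≤ i → i ≤ j → κ j * √(i : ℝ) ≤ κ i * √(j : ℝ)) {i j : ℕ} (hi : 1 ≤ i)
    (hij : i ≤ j) : κ j ^ 2 * i ≤ κ i ^ 2 * j := by
  have h := ha i j hi hij
  have h0 : 0 ≤ κ j := by linarith [h1 j]
  have h2 : (κ j * √(i : ℝ)) ^ 2 ≤ (κ i * √(j : ℝ)) ^ 2 :=
    pow_le_pow_left₀ (by positivity) h 2
  rwa [mul_pow, mul_pow, Real.sq_sqrt (Nat.cast_nonneg _), Real.sq_sqrt (Nat.cast_nonneg _)] at h2

theorem main (hA : S_ASM3) (hS : S_SEQ3) : S_FIN3 := by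
  intro κ h1 hm ha ⟨j₀, hj₀, hκj₀⟩
  have hrat := @ratio κ h1 ha
  have hκ0 : ∀ j, 0 ≤ κ j := fun j => by linarith [h1 j]
  -- the start
  obtain ⟨P₀, hP₀⟩ : ∃ P₀ : ℕ, P₀ = max j₀ 40000 := ⟨_, rfl⟩
  have hP₀1 : j₀ ≤ P₀ := by rw [hP₀]; exact le_max_left _ _
  have hP₀2 : 40000 ≤ P₀ := by rw [hP₀]; exact le_max_right _ _
  have h4 : 4 * κ P₀ ^ 2 ≤ P₀ := by
    have h2 := hrat hj₀ hP₀1
    have h3 : (2 * κ j₀) ^ 2 ≤ j₀ := by
      have := pow_le_pow_left₀ (by linarith [h1 j₀] : 0 ≤ 2 * κ j₀) hκj₀ 2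
      rwa [Real.sq_sqrt (Nat.cast_nonneg _)] at this
    have h5 : (0 : ℝ) < j₀ := by exact_mod_cast hj₀
    have h6 : (4 * κ P₀ ^ 2) * j₀ ≤ P₀ * j₀ := by
      have h7 : (0 : ℝ) ≤ P₀ := Nat.cast_nonneg _
      nlinarith [mul_le_mul_of_nonneg_right h3 h7]
    exact le_of_mul_le_mul_right h6 h5
  obtain ⟨k₀, hk₀⟩ : ∃ k₀ : ℕ, k₀ = ⌊κ P₀⌋₊ := ⟨_, rfl⟩
  have hk₀4 : 4 * k₀ ^ 2 ≤ P₀ := by
    have h5 : (k₀ : ℝ) ≤ κ P₀ := by rw [hk₀]; exact Nat.floor_le (hκ0 _)
    have h6 : (k₀ : ℝ) ^ 2 ≤ κ P₀ ^ 2 := pow_le_pow_left₀ (Nat.cast_nonneg _) h5 2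
    have h7 : (4 * (k₀ : ℝ) ^ 2) ≤ P₀ := by linarith
    exact_mod_cast h7
  obtain ⟨u₀, hu₀⟩ : ∃ u₀ : ℕ, u₀ = (P₀ - 2) / (k₀ + 25) := ⟨_, rfl⟩
  have hku₀ : k₀ + 60 ≤ u₀ := by
    rw [hu₀, Nat.le_div_iff_mul_le (by omega)]
    have h5 : 85 * k₀ ≤ k₀ ^ 2 + 1807 := by
      zify
      nlinarith [sq_nonneg (2 * (k₀ : ℤ) - 85)]
    have h6 : (k₀ + 60) * (k₀ + 25) = k₀ ^ 2 + 85 * k₀ + 1500 := by ring
    rw [h6]
    omega
  have hE₀1 : u₀ * (k₀ + 25) ≤ P₀ - 2 := by rw [hu₀]; exact Nat.div_mul_le_self _ _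
  have hE₀2 : P₀ - 2 < u₀ * (k₀ + 25) + (k₀ + 25) := by
    rw [hu₀]
    exact Nat.lt_div_mul_add (by omega)
  obtain ⟨A, k, u, hk0, hu0, hk, hu, huk, hcov, hzero, hrep⟩ :=
    hA (rule κ) (rule_bounds κ) k₀ u₀ hku₀
  have hkk : ∀ t, k t ≤ k (t + 1) ∧ k (t + 1) ≤ k t + 8 := fun t => by
    rw [hk]
    exact rule_bounds κ _ _
  have hseq := fun t => hS (k t) (k (t + 1)) (u t) (hkk t).1 (hkk t).2 (huk t)
  simp only [← hu] at hseq
  -- the scales
  obtain ⟨E, hEd⟩ : ∃ E : ℕ → ℕ, ∀ t, E t = u t * (k t + 25) := ⟨_, fun _ => rfl⟩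
  obtain ⟨P, hP0, hPs⟩ : ∃ P : ℕ → ℕ, P 0 = P₀ ∧ ∀ t, P (t + 1) = u t * (k t + 41) :=
    ⟨fun t => Nat.casesOn t P₀ (fun t => u t * (k t + 41)), rfl, fun _ => rfl⟩
  have hEP : ∀ t, E t + 2 ≤ P t ∧ P t < E t + 2 + (k t + 25) := by
    intro t
    rcases t with _ | t
    · rw [hP0, hEd, hk0, hu0]
      omega
    · rw [hPs, hEd]
      exact ⟨(hseq t).1, (hseq t).2.1⟩
  have hEs : ∀ t, E t + 8 * u t ≤ E (t + 1) := by
    intro t
    rw [hEd, hEd]
    exact (hseq t).2.2.2.2.1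
  have hEbig : ∀ t, 60 * (k t + 25) ≤ E t := by
    intro t
    rw [hEd]
    exact Nat.mul_le_mul_right _ (by have := huk t; omega)
  have hkP : ∀ t, k t = ⌊κ (P t)⌋₊ := by
    intro t
    induction t with
    | zero => rw [hk0, hP0, hk₀]
    | succ t ih =>
      have h5 : P t ≤ P (t + 1) := by
        have h6 := (hEP t).2
        have h7 : P (t + 1) = E t + 16 * u t := by rw [hPs, hEd]; ring
        have h8 := huk t
        omega
      have h6 : k t ≤ ⌊κ (P (t + 1))⌋₊ := by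
        rw [ih]
        exact Nat.floor_mono (hm h5)
      have h7 : ⌊κ (P (t + 1))⌋₊ ≤ k t + 8 := by
        by_contra hcon
        push Not at hcon
        have h8 : ((k t : ℝ) + 9) ≤ κ (P (t + 1)) := by
          have h9 : (k t + 9 : ℕ) ≤ ⌊κ (P (t + 1))⌋₊ := hcon
          have h10 := (Nat.le_floor_iff (hκ0 _)).1 h9
          push_cast at h10
          exact h10
        have h9 : κ (P t) ≤ (k t : ℝ) + 1 := by
          rw [ih]
          exact (Nat.lt_floor_add_one _).le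
        have h10 : 1 ≤ P t := by
          have := (hEP t).1
          omega
        have h11 := hrat h10 h5
        have h12 : (P (t + 1)) * (k t + 25) ≤ P t * (k t + 41) := by
          have h13 : (P (t + 1)) * (k t + 25) = E t * (k t + 41) := by rw [hPs, hEd]; ring
          rw [h13]
          exact Nat.mul_le_mul_right _ (by have := (hEP t).1; omega)
        have h13 : (P (t + 1) : ℝ) * (k t + 25) ≤ P t * (k t + 41) := by exact_mod_cast h12
        have h14 : (0 : ℝ) < P t := by exact_mod_cast h10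
        have hk' : (0 : ℝ) ≤ k t := Nat.cast_nonneg _
        have h15 : (κ (P (t + 1)) ^ 2 * (k t + 25)) * P t ≤ (κ (P t) ^ 2 * (k t + 41)) * P t := by
          calc (κ (P (t + 1)) ^ 2 * (k t + 25)) * P t
              = (κ (P (t + 1)) ^ 2 * P t) * (k t + 25) := by ring
            _ ≤ (κ (P t) ^ 2 * P (t + 1)) * (k t + 25) :=
                mul_le_mul_of_nonneg_right h11 (by positivity)
            _ = κ (P t) ^ 2 * (P (t + 1) * (k t + 25)) := by ring
            _ ≤ κ (P t) ^ 2 * (P t * (k t + 41)) := mul_le_mul_of_nonneg_left h13 (by positivity)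
            _ = _ := by ring
        have h16 := le_of_mul_le_mul_right h15 h14
        have h17 : ((k t : ℝ) + 9) ^ 2 ≤ κ (P (t + 1)) ^ 2 :=
          pow_le_pow_left₀ (by positivity) h8 2
        have h18 : κ (P t) ^ 2 ≤ ((k t : ℝ) + 1) ^ 2 := pow_le_pow_left₀ (hκ0 _) h9 2
        have h19 : ((k t : ℝ) + 9) ^ 2 * (k t + 25) ≤ ((k t : ℝ) + 1) ^ 2 * (k t + 41) :=
          (mul_le_mul_of_nonneg_right h17 (by positivity)).trans
            (h16.trans (mul_le_mul_of_nonneg_right h18 (by positivity)))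
        nlinarith
      rw [hk]
      unfold rule
      rw [← hPs]
      rw [min_eq_right h7, max_eq_right h6]
  have hkκ : ∀ t, (k t : ℝ) ≤ κ (P t) := fun t => by
    rw [hkP]
    exact Nat.floor_le (hκ0 _)
  have hκk : ∀ t, κ (P t) < (k t : ℝ) + 1 := fun t => by
    rw [hkP]
    exact Nat.lt_floor_add_one _
  have hEm : StrictMono E := strictMono_nat_of_lt_succ (fun t => by
    have h5 := hEs t
    have h6 := huk t
    omega)
  have hEge : ∀ t, t ≤ E t := fun t => hEm.le_apply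
  have hE1 : ∀ t, 1 ≤ E t := fun t => by
    have := hEbig t
    omega
  have hrep' : ∀ t n, 2 ^ E t ≤ n → n < 2 ^ E (t + 1) →
      rep A n ≤ 2 * (5 * k t + 224) + 2 ^ (27 * u t) ∧
      (2 ^ (k t + 29 + E t) ≤ n → rep A n ≤ 5 * k t + 224) := by
    intro t n h1 h2
    rw [hEd] at h1 h2
    rw [hEd]
    exact hrep t n h1 h2
  rw [← hEd] at hcov hzero
  -- the stage of a number
  have hst : ∀ n, 2 ^ E 0 ≤ n → ∃ t, 2 ^ E t ≤ n ∧ n < 2 ^ E (t + 1) := by
    intro n hn
    have hex : ∃ T, n < 2 ^ E T := ⟨n, lt_of_lt_of_le Nat.lt_two_pow_self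
      (Nat.pow_le_pow_right (by norm_num) (hEge n))⟩
    classical
    have h1 := Nat.find_spec hex
    obtain ⟨t, ht⟩ : ∃ t, Nat.find hex = t + 1 := by
      cases h : Nat.find hex with
      | zero =>
        rw [h] at h1
        omega
      | succ t => exact ⟨t, rfl⟩
    refine ⟨t, ?_, by rw [← ht]; exact h1⟩
    by_contra hcon
    push Not at hcon
    exact Nat.find_min hex (by omega) hcon
  -- comparison of the parameter with `κ`
  have hcmp : ∀ t j, E t ≤ j → 5 * κ (P t) ≤ 6 * κ j := by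
    intro t j hj
    rcases le_or_gt (P t) j with h | h
    · have := hm h
      linarith [hκ0 (P t), hκ0 j]
    · have h5 := hrat ((hE1 t).trans hj) h.le
      have h6 : 25 * P t ≤ 36 * j := by
        have h7 := (hEP t).2
        have h8 := hEbig t
        omega
      have h7 : (25 : ℝ) * P t ≤ 36 * j := by exact_mod_cast h6
      have h8 : (0 : ℝ) < j := by
        have : 1 ≤ j := (hE1 t).trans hj
        exact_mod_cast this
      have h9 : (5 * κ (P t)) ^ 2 * j ≤ (6 * κ j) ^ 2 * j := by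
        have h10 : (0 : ℝ) ≤ κ j ^ 2 := by positivity
        nlinarith [mul_le_mul_of_nonneg_left h7 h10]
      have h10 := le_of_mul_le_mul_right h9 h8
      exact le_of_sq_le_sq h10 (by linarith [hκ0 j])
  refine ⟨A, (k 0 : ℝ) + 29, ?_, ?_, ?_⟩
  · filter_upwards [Filter.eventually_ge_atTop (4 * 2 ^ E 0)] with n hn
    exact hcov n hn
  · intro n hn
    rcases lt_or_ge n (2 ^ E 0) with h0 | h0
    · rw [hzero n h0, Nat.cast_zero]
      positivity
    obtain ⟨t, h5, h6⟩ := hst n h0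
    have h7 := (hrep' t n h5 h6).1
    have h8 : 2 * (5 * k t + 224) ≤ 2 ^ (27 * u t) := by
      have h5 := huk t
      calc 2 * (5 * k t + 224) ≤ 2 ^ 4 * u t := by omega
        _ ≤ 2 ^ 4 * 2 ^ u t := Nat.mul_le_mul_left _ (Nat.lt_two_pow_self).le
        _ = 2 ^ (4 + u t) := by rw [pow_add]
        _ ≤ 2 ^ (27 * u t) := Nat.pow_le_pow_right (by norm_num) (by omega)
    have h9 : rep A n ≤ 2 ^ (28 * u t) := by
      have h6 := huk t
      calc rep A n ≤ 2 ^ (27 * u t) + 2 ^ (27 * u t) := by omega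
        _ = 2 ^ (27 * u t + 1) := by rw [pow_succ]; ring
        _ ≤ 2 ^ (28 * u t) := Nat.pow_le_pow_right (by norm_num) (by omega)
    have h10 : (rep A n : ℝ) ≤ (2 : ℝ) ^ (28 * u t) := by exact_mod_cast h9
    refine h10.trans ?_
    obtain ⟨L, hL⟩ : ∃ L, L = Nat.log 2 n := ⟨_, rfl⟩
    rw [← hL]
    have hL2 : L < E (t + 1) := by
      rw [hL]
      exact Nat.log_lt_of_lt_pow (by omega) h6
    have hκL : κ L ≤ (k t : ℝ) + 25 := by
      have h11 : κ L ≤ κ (P (t + 1)) := hm (by have := (hEP (t + 1)).1; omega)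
      have h12 := hκk (t + 1)
      have h13 : (k (t + 1) : ℝ) ≤ k t + 8 := by exact_mod_cast (hkk t).2
      linarith
    have hκL0 : 0 < κ L := by linarith [h1 L]
    have h11 : ((2 : ℝ) ^ E t) ≤ n := by exact_mod_cast h5
    calc (2 : ℝ) ^ (28 * u t) = (2 : ℝ) ^ ((28 * u t : ℕ) : ℝ) := (Real.rpow_natCast _ _).symm
      _ ≤ (2 : ℝ) ^ (((E t : ℕ) : ℝ) * (28 / κ L)) := by
        apply Real.rpow_le_rpow_of_exponent_le (by norm_num)
        rw [hEd]
        push_cast
        have h12 : (0 : ℝ) ≤ u t := Nat.cast_nonneg _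
        have e : (u t : ℝ) * (k t + 25) * (28 / κ L) = (28 * u t * (k t + 25)) / κ L := by ring
        rw [e, le_div_iff₀ hκL0]
        exact mul_le_mul_of_nonneg_left hκL (by positivity)
      _ = ((2 : ℝ) ^ E t) ^ (28 / κ L) := by
        rw [Real.rpow_mul (by norm_num), Real.rpow_natCast]
      _ ≤ (n : ℝ) ^ (28 / κ L) := Real.rpow_le_rpow (by positivity) h11 (by positivity)
  · intro K
    have hex : ∃ T, K ≤ E T := ⟨K, hEge K⟩
    classical
    obtain ⟨T, hT⟩ : ∃ T, T = Nat.find hex := ⟨_, rfl⟩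
    have hT1 : K ≤ E T := by rw [hT]; exact Nat.find_spec hex
    have hT2 : ∀ t, t < T → E t < K := by
      intro t ht
      by_contra hcon
      push Not at hcon
      rw [hT] at ht
      exact Nat.find_min hex ht hcon
    have hsub : {j : ℕ | j < K ∧ ∃ n, 2 ^ j ≤ n ∧ n < 2 ^ (j + 1) ∧
        6 * κ j + 224 < (rep A n : ℝ)} ⊆
        ((range T).biUnion (fun t => Ico (E t) (E t + (k t + 29))) : Finset ℕ) := by
      rintro j ⟨hj, n, hn1, hn2, hn3⟩
      rw [mem_coe, mem_biUnion]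
      have h5 : 2 ^ E 0 ≤ n := by
        by_contra hcon
        push Not at hcon
        rw [hzero n hcon, Nat.cast_zero] at hn3
        linarith [hκ0 j]
      obtain ⟨t, h6, h7⟩ := hst n h5
      have h8 : E t < j + 1 := (Nat.pow_lt_pow_iff_right (by norm_num)).1 (h6.trans_lt hn2)
      have h9 : t < T := by
        have h10 : E t < E T := by omega
        exact hEm.lt_iff_lt.1 h10
      have h10 : n < 2 ^ (k t + 29 + E t) := by
        by_contra hcon
        push Not at hcon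
        have h11 : ((rep A n : ℕ) : ℝ) ≤ 5 * k t + 224 := by
          exact_mod_cast (hrep' t n h6 h7).2 hcon
        have h12 := hcmp t j (by omega)
        have h13 := hkκ t
        linarith
      have h11 : j < k t + 29 + E t :=
        (Nat.pow_lt_pow_iff_right (by norm_num)).1 (hn1.trans_lt h10)
      exact ⟨t, mem_range.2 h9, mem_Ico.2 ⟨by omega, by omega⟩⟩
    have hcard : ({j : ℕ | j < K ∧ ∃ n, 2 ^ j ≤ n ∧ n < 2 ^ (j + 1) ∧
        6 * κ j + 224 < (rep A n : ℝ)}.ncard) ≤ ∑ t ∈ range T, (k t + 29) := by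
      refine (Set.ncard_le_ncard hsub (finite_toSet _)).trans ?_
      rw [Set.ncard_coe_finset]
      refine card_biUnion_le.trans (le_of_eq ?_)
      refine sum_congr rfl fun t _ => ?_
      rw [Nat.card_Ico]
      omega
    have hcard' : ((({j : ℕ | j < K ∧ ∃ n, 2 ^ j ≤ n ∧ n < 2 ^ (j + 1) ∧
        6 * κ j + 224 < (rep A n : ℝ)}.ncard) : ℕ) : ℝ) ≤ ∑ t ∈ range T, ((k t : ℝ) + 29) := by
      have := (Nat.cast_le (α := ℝ)).2 hcard
      push_cast at this
      exact this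
    refine hcard'.trans ?_
    -- one block
    have hblock : ∀ s, ((k (s + 1) : ℝ) + 29) ≤ 300 * ∑ j ∈ Ico (E s) (E (s + 1)), κ j ^ 2 / j := by
      intro s
      obtain ⟨a, hae⟩ : ∃ a : ℝ, a = κ (E s) := ⟨_, rfl⟩
      have ha1 : 1 ≤ a := by rw [hae]; exact h1 _
      have hus : (0 : ℝ) < u s := by
        have : 0 < u s := by have := huk s; omega
        exact_mod_cast this
      have hks : (0 : ℝ) ≤ k s := Nat.cast_nonneg _
      have h5 : ((Ico (E s) (E (s + 1))).card : ℝ) * (a ^ 2 / (u s * (k s + 41))) ≤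
          ∑ j ∈ Ico (E s) (E (s + 1)), κ j ^ 2 / j := by
        rw [← nsmul_eq_mul]
        refine card_nsmul_le_sum _ _ _ fun j hj => ?_
        rw [mem_Ico] at hj
        have h6 : a ≤ κ j := by rw [hae]; exact hm hj.1
        have h7 : (j : ℝ) ≤ u s * (k s + 41) := by
          have h8 : j ≤ P (s + 1) := by have := (hEP (s + 1)).1; omega
          rw [hPs] at h8
          exact_mod_cast h8
        have h8 : (0 : ℝ) < j := by
          have : 1 ≤ j := (hE1 s).trans hj.1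
          exact_mod_cast this
        have h9 : a ^ 2 ≤ κ j ^ 2 := pow_le_pow_left₀ (by linarith) h6 2
        exact div_le_div₀ (by positivity) h9 h8 h7
      have h6 : (8 * (u s : ℝ)) ≤ ((Ico (E s) (E (s + 1))).card : ℝ) := by
        rw [Nat.card_Ico]
        have h7 : 8 * u s ≤ E (s + 1) - E s := by have := hEs s; omega
        exact_mod_cast h7
      have h7 : 8 * a ^ 2 / (k s + 41) ≤ ∑ j ∈ Ico (E s) (E (s + 1)), κ j ^ 2 / j := by
        refine le_trans (le_of_eq ?_) ((mul_le_mul_of_nonneg_right h6 (by positivity)).trans h5)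
        field_simp
      have h8 : 5 * (k s : ℝ) ≤ 6 * a := by
        have h9 := hcmp s (E s) le_rfl
        rw [← hae] at h9
        linarith [hkκ s]
      have h9 : (k (s + 1) : ℝ) ≤ k s + 8 := by exact_mod_cast (hkk s).2
      have h10 : ((k (s + 1) : ℝ) + 29) ≤ 300 * (8 * a ^ 2 / (k s + 41)) := by
        rw [← mul_div_assoc, le_div_iff₀ (by positivity)]
        have h11 : ((k (s + 1) : ℝ) + 29) * (k s + 41) ≤ (k s + 37) * (k s + 41) :=
          mul_le_mul_of_nonneg_right (by linarith) (by positivity)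
        have h12 : (k s : ℝ) ≤ 2 * a := by linarith
        nlinarith
      linarith
    have hsum : ∀ m, ∑ t ∈ range (m + 1), ((k t : ℝ) + 29) ≤
        ((k 0 : ℝ) + 29) + 300 * ∑ j ∈ Ico (E 0) (E m), κ j ^ 2 / j := by
      intro m
      induction m with
      | zero => simp
      | succ m ih =>
        rw [sum_range_succ, ← sum_Ico_consecutive _ (hEm.monotone (Nat.zero_le m))
          (hEm.monotone (Nat.le_succ m)), mul_add]
        have := hblock m
        linarith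
    have hnn : ∀ j : ℕ, 0 ≤ κ j ^ 2 / (j : ℝ) := fun j => by positivity
    rcases Nat.eq_zero_or_pos T with hT0 | hT0
    · rw [hT0, range_zero, sum_empty]
      have : 0 ≤ ∑ j ∈ Icc 1 K, κ j ^ 2 / (j : ℝ) := sum_nonneg fun j _ => hnn j
      positivity
    · obtain ⟨m, rfl⟩ : ∃ m, T = m + 1 := ⟨T - 1, by omega⟩
      refine (hsum m).trans ?_
      have h5 : Ico (E 0) (E m) ⊆ Icc 1 K := by
        intro j hj
        rw [mem_Ico] at hj
        rw [mem_Icc]
        have h6 := hT2 m (by omega)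
        have h7 := hE1 0
        omega
      have h6 := sum_le_sum_of_subset_of_nonneg h5 (fun j _ _ => hnn j)
      linarith

end Pool.Agent.H53.BS.FIN3
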