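import Pool.Agent.H53.BS.Stm

/-! BS-HASH (helper51): the hash of the top stage. -/

set_option autoImplicit false

open Finset Pool.Agent.H53.ET

namespace Pool.Agent.H53.BS.HASH

theorem card_le_ite (s : Finset ℕ) (R : ℕ → Prop) [DecidablePred R] (q : Prop) [Decidable q]
    (h1 : ∀ b ∈ s, R b → q) (h2 : ∀ b ∈ s, ∀ b' ∈ s, R b → R b' → b = b') :
    (s.filter R).card ≤ if q then 1 else 0 := by
  split_ifs with h
  · apply card_le_one.2
    intro b hb b' hb'
    rw [mem_filter] at hb hb'
    exact h2 b hb.1 b' hb'.1 hb.2 hb'.2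
  · rw [Nat.le_zero, card_eq_zero, filter_eq_empty_iff]
    intro b hb hR
    exact h (h1 b hb hR)

/-- possible pairs -/
def G (m Q n x y : ℕ) : ℕ := if ∃ b ∈ range Q, ∃ b' ∈ range Q, (x + m * b) + (y + m * b') = n
  then 1 else 0

/-- possible diagonal -/
def δ (m Q n y : ℕ) : ℕ := if ∃ b ∈ range Q, (y + m * b) + (y + m * b) = n then 1 else 0

/-- possible sums with `B` -/
def γ (B : Finset ℕ) (m Q n y : ℕ) : ℕ := (B.filter fun β => ∃ b ∈ range Q, β + (y + m * b) = n).card

theorem avg (m Q : ℕ) (B : Finset ℕ) (θ : ℝ) (hm : 0 < m) (hQ : 0 < Q) (hθ : 0 < θ) (n p : ℕ)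
    (S : Finset ℕ) (h : ℕ → ℕ) (hh : ∀ p, h p < Q)
    (hsep : ∀ x ∈ S, ∀ x' ∈ S, x + m * h x = x' + m * h x' → x = x') :
    ∑ b ∈ range Q, Real.exp (θ * (2 * ∑ x ∈ S, (if x + m * h x + (p + m * b) = n then (1 : ℝ) else 0)
      + ((if (p + m * b) + (p + m * b) = n then (1 : ℝ) else 0) +
        2 * ((B.filter fun β => β + (p + m * b) = n).card : ℝ)))) ≤
      Q * Real.exp (Real.exp (5 * θ) / Q * (∑ x ∈ S, (G m Q n x p : ℝ) +
        ((δ m Q n p : ℝ) + (γ B m Q n p : ℝ)))) := by
  set X : ℕ → ℕ := fun b => (S.filter fun x => x + m * h x + (p + m * b) = n).card with hX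
  set Y : ℕ → ℕ := fun b => (B.filter fun β => β + (p + m * b) = n).card with hY
  set D : ℕ → ℕ := fun b => if (p + m * b) + (p + m * b) = n then 1 else 0 with hD
  have hX1 : ∀ b, X b ≤ 1 := by
    intro b
    apply card_le_one.2
    intro x hx x' hx'
    rw [mem_filter] at hx hx'
    apply hsep x hx.1 x' hx'.1
    omega
  have hY1 : ∀ b, Y b ≤ 1 := by
    intro b
    apply card_le_one.2
    intro x hx x' hx'
    rw [mem_filter] at hx hx'
    omega
  have hD1 : ∀ b, D b ≤ 1 := by
    intro b
    simp only [hD]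
    split_ifs <;> omega
  have hterm : ∀ b ∈ range Q, Real.exp (θ * (2 * ∑ x ∈ S,
      (if x + m * h x + (p + m * b) = n then (1 : ℝ) else 0)
      + ((if (p + m * b) + (p + m * b) = n then (1 : ℝ) else 0) +
        2 * ((B.filter fun β => β + (p + m * b) = n).card : ℝ)))) ≤
      1 + Real.exp (5 * θ) * ((X b : ℝ) + ((D b : ℝ) + (Y b : ℝ))) := by
    intro b _
    have e1 : ∑ x ∈ S, (if x + m * h x + (p + m * b) = n then (1 : ℝ) else 0) = (X b : ℝ) := by
      simp only [hX]
      rw [card_filter]
      push_cast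
      rfl
    have e2 : (if (p + m * b) + (p + m * b) = n then (1 : ℝ) else 0) = (D b : ℝ) := by
      simp only [hD]
      split_ifs <;> simp
    rw [e1, e2]
    rcases Nat.eq_zero_or_pos (X b + (D b + Y b)) with h0 | h0
    · have h1 : X b = 0 := by omega
      have h2 : D b = 0 := by omega
      have h3 : Y b = 0 := by omega
      have h3' : (B.filter fun β => β + (p + m * b) = n).card = 0 := h3
      rw [h1, h2, h3', h3]
      simp
    · have h1 : (1 : ℝ) ≤ (X b : ℝ) + ((D b : ℝ) + (Y b : ℝ)) := by exact_mod_cast h0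
      have h2 : (2 * (X b : ℝ) + ((D b : ℝ) + 2 * (Y b : ℝ))) ≤ 5 := by
        have hx := hX1 b
        have hy := hY1 b
        have hd := hD1 b
        have : 2 * X b + (D b + 2 * Y b) ≤ 5 := by omega
        exact_mod_cast this
      calc Real.exp (θ * (2 * (X b : ℝ) + ((D b : ℝ) + 2 * (Y b : ℝ)))) ≤ Real.exp (5 * θ) := by
            apply Real.exp_le_exp.2
            nlinarith
        _ = Real.exp (5 * θ) * 1 := (mul_one _).symm
        _ ≤ Real.exp (5 * θ) * ((X b : ℝ) + ((D b : ℝ) + (Y b : ℝ))) :=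
            mul_le_mul_of_nonneg_left h1 (Real.exp_pos _).le
        _ ≤ _ := by linarith
  -- the sums
  have hXs : ∑ b ∈ range Q, X b ≤ ∑ x ∈ S, G m Q n x p := by
    have e : ∑ b ∈ range Q, X b = ∑ x ∈ S, ((range Q).filter fun b =>
        x + m * h x + (p + m * b) = n).card := by
      simp only [hX, card_filter]
      rw [sum_comm]
    rw [e]
    apply sum_le_sum
    intro x hx
    apply card_le_ite
    · intro b hb hR
      exact ⟨h x, mem_range.2 (hh x), b, hb, hR⟩
    · intro b _ b' _ hR hR'
      have : m * b = m * b' := by omega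
      exact Nat.eq_of_mul_eq_mul_left hm this
  have hDs : ∑ b ∈ range Q, D b ≤ δ m Q n p := by
    have e : ∑ b ∈ range Q, D b = ((range Q).filter fun b =>
        (p + m * b) + (p + m * b) = n).card := by
      simp only [hD, card_filter]
    rw [e]
    apply card_le_ite
    · intro b hb hR
      exact ⟨b, hb, hR⟩
    · intro b _ b' _ hR hR'
      have : m * b = m * b' := by omega
      exact Nat.eq_of_mul_eq_mul_left hm this
  have hYs : ∑ b ∈ range Q, Y b ≤ γ B m Q n p := by
    have e : ∑ b ∈ range Q, Y b = ∑ β ∈ B, ((range Q).filter fun b =>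
        β + (p + m * b) = n).card := by
      simp only [hY, card_filter]
      rw [sum_comm]
    rw [e, γ, card_filter]
    apply sum_le_sum
    intro x hx
    apply card_le_ite
    · intro b hb hR
      exact ⟨b, hb, hR⟩
    · intro b _ b' _ hR hR'
      have : m * b = m * b' := by omega
      exact Nat.eq_of_mul_eq_mul_left hm this
  have hQR : (0 : ℝ) < Q := by exact_mod_cast hQ
  set c : ℝ := ∑ x ∈ S, (G m Q n x p : ℝ) + ((δ m Q n p : ℝ) + (γ B m Q n p : ℝ)) with hc
  have hcs : ∑ b ∈ range Q, ((X b : ℝ) + ((D b : ℝ) + (Y b : ℝ))) ≤ c := by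
    rw [sum_add_distrib, sum_add_distrib]
    have h1 : ∑ b ∈ range Q, (X b : ℝ) ≤ ∑ x ∈ S, (G m Q n x p : ℝ) := by exact_mod_cast hXs
    have h2 : ∑ b ∈ range Q, (D b : ℝ) ≤ (δ m Q n p : ℝ) := by exact_mod_cast hDs
    have h3 : ∑ b ∈ range Q, (Y b : ℝ) ≤ (γ B m Q n p : ℝ) := by exact_mod_cast hYs
    rw [hc]
    linarith
  refine (sum_le_sum hterm).trans ?_
  rw [sum_add_distrib, ← mul_sum, sum_const, card_range, nsmul_eq_mul, mul_one]
  have h1 : Real.exp (5 * θ) / Q * c + 1 ≤ Real.exp (Real.exp (5 * θ) / Q * c) :=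
    Real.add_one_le_exp _
  calc (Q : ℝ) + Real.exp (5 * θ) * ∑ b ∈ range Q, ((X b : ℝ) + ((D b : ℝ) + (Y b : ℝ)))
      ≤ Q + Real.exp (5 * θ) * c := by
        have := mul_le_mul_of_nonneg_left hcs (Real.exp_pos (5 * θ)).le
        linarith
    _ = Q * (Real.exp (5 * θ) / Q * c + 1) := by field_simp; ring
    _ ≤ _ := mul_le_mul_of_nonneg_left h1 hQR.le

/-- the number of the pairs, counted by indices -/
noncomputable def EE (m : ℕ) (B S : Finset ℕ) (h : ℕ → ℕ) (n : ℕ) : ℝ :=
  2 * pairSum S (fun x y => if x + m * h x + (y + m * h y) = n then (1 : ℝ) else 0) +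
  ∑ y ∈ S, ((if (y + m * h y) + (y + m * h y) = n then (1 : ℝ) else 0) +
    2 * ((B.filter fun β => β + (y + m * h y) = n).card : ℝ))

/-- the number of the possible pairs -/
noncomputable def CC (m Q : ℕ) (B S : Finset ℕ) (n : ℕ) : ℝ :=
  pairSum S (fun x y => (G m Q n x y : ℝ)) +
  ∑ y ∈ S, ((δ m Q n y : ℝ) + (γ B m Q n y : ℝ))

theorem choose_h (m Q N : ℕ) (P B : Finset ℕ) (θ : ℝ) (hm : 0 < m) (hQ : 0 < Q) (hθ : 0 < θ)
    (hsep : ∀ p ∈ P, ∀ p' ∈ P, ∀ b b' : ℕ, b < Q → b' < Q → p + m * b = p' + m * b' → p = p')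
    (S : Finset ℕ) : S ⊆ P → ∀ w : ℕ → ℝ, (∀ n, 0 ≤ w n) → ∃ h : ℕ → ℕ, (∀ p, h p < Q) ∧
      ∑ n ∈ range N, w n * Real.exp (θ * EE m B S h n) ≤
        ∑ n ∈ range N, w n * Real.exp (Real.exp (5 * θ) / Q * CC m Q B S n) := by
  induction S using Finset.induction_on_max with
  | empty =>
    intro _ w hw
    exact ⟨fun _ => 0, fun _ => hQ, by simp [EE, CC, pairSum]⟩
  | insert p S hp ih =>
    intro hS w hw
    have hpS : p ∉ S := fun h => lt_irrefl _ (hp p h)
    have hS' : S ⊆ P := (subset_insert p S).trans hS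
    set κ : ℝ := Real.exp (5 * θ) / Q with hκ
    set c : ℕ → ℝ := fun n => ∑ x ∈ S, (G m Q n x p : ℝ) +
        ((δ m Q n p : ℝ) + (γ B m Q n p : ℝ)) with hc
    obtain ⟨h, hh, hsum⟩ := ih hS' (fun n => w n * Real.exp (κ * c n))
      (fun n => mul_nonneg (hw n) (Real.exp_pos _).le)
    set R : ℝ := ∑ n ∈ range N, w n * Real.exp (κ * CC m Q B (insert p S) n) with hR
    let inc : ℕ → ℕ → ℝ := fun n b =>
      2 * ∑ x ∈ S, (if x + m * h x + (p + m * b) = n then (1 : ℝ) else 0)
      + ((if (p + m * b) + (p + m * b) = n then (1 : ℝ) else 0) +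
        2 * ((B.filter fun β => β + (p + m * b) = n).card : ℝ))
    have h1 : ∑ b ∈ range Q, ∑ n ∈ range N, w n * Real.exp (θ * EE m B S h n) *
        Real.exp (θ * inc n b) ≤ Q * R := by
      rw [sum_comm]
      calc _ ≤ ∑ n ∈ range N, w n * Real.exp (θ * EE m B S h n) * (Q * Real.exp (κ * c n)) := by
            apply sum_le_sum
            intro n _
            rw [← mul_sum]
            apply mul_le_mul_of_nonneg_left _ (mul_nonneg (hw n) (Real.exp_pos _).le)
            apply avg m Q B θ hm hQ hθ n p S h hh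
            intro x hx x' hx' hxx
            exact hsep x (hS' hx) x' (hS' hx') _ _ (hh x) (hh x') hxx
        _ = Q * ∑ n ∈ range N, (w n * Real.exp (κ * c n)) * Real.exp (θ * EE m B S h n) := by
            rw [mul_sum]
            apply sum_congr rfl
            intro n _
            ring
        _ ≤ Q * R := by
            apply mul_le_mul_of_nonneg_left _ (by positivity)
            refine hsum.trans (le_of_eq ?_)
            rw [hR]
            apply sum_congr rfl
            intro n _
            have e : CC m Q B (insert p S) n = CC m Q B S n + c n := by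
              simp only [CC, hc]
              rw [pairSum_insert hp, sum_insert hpS]
              ring
            have e' : κ * (CC m Q B S n + c n) = κ * c n + κ * CC m Q B S n := by ring
            rw [e, e', Real.exp_add]
            ring
    obtain ⟨b, hb, hb2⟩ : ∃ b ∈ range Q, ∑ n ∈ range N, w n * Real.exp (θ * EE m B S h n) *
        Real.exp (θ * inc n b) ≤ R := by
      apply exists_le_of_sum_le (by simpa using hQ.ne')
      refine h1.trans (le_of_eq ?_)
      simp
    refine ⟨Function.update h p b, ?_, ?_⟩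
    · intro r
      by_cases hr : r = p
      · subst hr
        simpa using hb
      · rw [Function.update_of_ne hr]
        exact hh r
    · refine le_trans (le_of_eq ?_) hb2
      apply sum_congr rfl
      intro n _
      have e : EE m B (insert p S) (Function.update h p b) n = EE m B S h n + inc n b := by
        unfold EE
        rw [pairSum_insert hp, sum_insert hpS]
        have e1 : pairSum S (fun x y => if x + m * Function.update h p b x +
            (y + m * Function.update h p b y) = n then (1 : ℝ) else 0) =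
            pairSum S (fun x y => if x + m * h x + (y + m * h y) = n then (1 : ℝ) else 0) := by
          unfold pairSum
          apply sum_congr rfl
          intro y hy
          apply sum_congr rfl
          intro x hx
          have hx' := (mem_filter.1 hx).1
          simp only
          rw [Function.update_of_ne (hp x hx').ne, Function.update_of_ne (hp y hy).ne]
        have e2 : ∑ x ∈ S, (if x + m * Function.update h p b x +
            (p + m * Function.update h p b p) = n then (1 : ℝ) else 0) =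
            ∑ x ∈ S, (if x + m * h x + (p + m * b) = n then (1 : ℝ) else 0) := by
          apply sum_congr rfl
          intro x hx
          rw [Function.update_of_ne (hp x hx).ne, Function.update_self]
        have e3 : ∑ y ∈ S, ((if (y + m * Function.update h p b y) +
            (y + m * Function.update h p b y) = n then (1 : ℝ) else 0) +
            2 * ((B.filter fun β => β + (y + m * Function.update h p b y) = n).card : ℝ)) =
            ∑ y ∈ S, ((if (y + m * h y) + (y + m * h y) = n then (1 : ℝ) else 0) +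
            2 * ((B.filter fun β => β + (y + m * h y) = n).card : ℝ)) := by
          apply sum_congr rfl
          intro y hy
          rw [Function.update_of_ne (hp y hy).ne]
        rw [e1, e2, e3, Function.update_self]
        ring
      rw [e, mul_add, Real.exp_add]
      ring

theorem rp_HS (m : ℕ) (P : Finset ℕ) (h : ℕ → ℕ) (n : ℕ) :
    (rp (HS m P h) (HS m P h) n : ℝ) ≤
      2 * pairSum P (fun x y => if x + m * h x + (y + m * h y) = n then (1 : ℝ) else 0) +
      ∑ y ∈ P, (if (y + m * h y) + (y + m * h y) = n then (1 : ℝ) else 0) := by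
  rw [← sum_sum_eq P (fun x y => if x + m * h x + (y + m * h y) = n then (1 : ℝ) else 0)
    (fun x y => by rw [add_comm])]
  have h1 : rp (HS m P h) (HS m P h) n ≤
      ((P ×ˢ P).filter fun r => r.1 + m * h r.1 + (r.2 + m * h r.2) = n).card := by
    unfold rp
    refine (card_le_card ?_).trans (card_image_le (f := fun r : ℕ × ℕ =>
      (r.1 + m * h r.1, r.2 + m * h r.2)))
    rintro ⟨a, b⟩ hab
    rw [mem_filter, mem_product] at hab
    obtain ⟨⟨ha, hb⟩, hs⟩ := hab
    simp only [HS, mem_image] at ha hb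
    obtain ⟨x, hx, rfl⟩ := ha
    obtain ⟨y, hy, rfl⟩ := hb
    rw [mem_image]
    exact ⟨(x, y), by rw [mem_filter, mem_product]; exact ⟨⟨hx, hy⟩, hs⟩, rfl⟩
  have h2 : (((P ×ˢ P).filter fun r => r.1 + m * h r.1 + (r.2 + m * h r.2) = n).card : ℝ) =
      ∑ x ∈ P, ∑ y ∈ P, (if x + m * h x + (y + m * h y) = n then (1 : ℝ) else 0) := by
    rw [card_filter, sum_product]
    push_cast
    rfl
  rw [← h2]
  exact_mod_cast h1

theorem rp_B (m : ℕ) (P B : Finset ℕ) (h : ℕ → ℕ) (n : ℕ) :
    (rp B (HS m P h) n : ℝ) ≤ ∑ y ∈ P, ((B.filter fun β => β + (y + m * h y) = n).card : ℝ) := by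
  have h1 : rp B (HS m P h) n ≤
      ((P ×ˢ B).filter fun r => r.2 + (r.1 + m * h r.1) = n).card := by
    unfold rp
    refine (card_le_card ?_).trans (card_image_le (f := fun r : ℕ × ℕ =>
      (r.2, r.1 + m * h r.1)))
    rintro ⟨a, b⟩ hab
    rw [mem_filter, mem_product] at hab
    obtain ⟨⟨ha, hb⟩, hs⟩ := hab
    simp only [HS, mem_image] at hb
    obtain ⟨y, hy, rfl⟩ := hb
    rw [mem_image]
    exact ⟨(y, a), by rw [mem_filter, mem_product]; exact ⟨⟨hy, ha⟩, hs⟩, rfl⟩
  have h2 : ((P ×ˢ B).filter fun r => r.2 + (r.1 + m * h r.1) = n).card =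
      ∑ y ∈ P, (B.filter fun β => β + (y + m * h y) = n).card := by
    rw [card_filter, sum_product]
    apply sum_congr rfl
    intro y _
    rw [card_filter]
  rw [h2] at h1
  exact_mod_cast h1

theorem CC_le (m Q : ℕ) (B P : Finset ℕ) (n : ℕ) :
    CC m Q B P n ≤ (CP m Q P n : ℝ) + CB m Q P B n := by
  have h1 : (CP m Q P n : ℝ) = ∑ x ∈ P, ∑ y ∈ P, (G m Q n x y : ℝ) := by
    unfold CP G
    rw [card_filter, sum_product]
    push_cast
    rfl
  have h2 : (CB m Q P B n : ℝ) = ∑ y ∈ P, (γ B m Q n y : ℝ) := by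
    have : CB m Q P B n = ∑ y ∈ P, γ B m Q n y := by
      unfold CB γ
      rw [card_filter, sum_product, sum_comm]
      apply sum_congr rfl
      intro y _
      rw [card_filter]
    rw [this]
    push_cast
    rfl
  have hGs : ∀ x y, (G m Q n x y : ℝ) = (G m Q n y x : ℝ) := by
    intro x y
    have : G m Q n x y = G m Q n y x := by
      unfold G
      congr 1
      apply propext
      constructor
      · rintro ⟨b, hb, b', hb', h⟩
        exact ⟨b', hb', b, hb, by omega⟩
      · rintro ⟨b, hb, b', hb', h⟩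
        exact ⟨b', hb', b, hb, by omega⟩
    rw [this]
  rw [sum_sum_eq P (fun x y => (G m Q n x y : ℝ)) hGs] at h1
  have h3 : ∀ y ∈ P, (δ m Q n y : ℝ) ≤ (G m Q n y y : ℝ) := by
    intro y _
    have : δ m Q n y ≤ G m Q n y y := by
      unfold δ G
      split_ifs with h h' h'
      · exact le_rfl
      · obtain ⟨b, hb, hb'⟩ := h
        exact absurd ⟨b, hb, b, hb, hb'⟩ h'
      · exact Nat.zero_le _
      · exact le_rfl
    exact_mod_cast this
  have h4 : 0 ≤ pairSum P (fun x y => (G m Q n x y : ℝ)) := by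
    unfold pairSum
    exact sum_nonneg fun _ _ => sum_nonneg fun _ _ => Nat.cast_nonneg _
  have h5 := sum_le_sum h3
  unfold CC
  rw [h1, h2, sum_add_distrib]
  linarith

theorem main : S_HASH := by
  intro m Q N P B θ S hm hQ hN hθ hsep hS hQS
  obtain ⟨h, hh, hsum⟩ := choose_h m Q N P B θ hm hQ hθ hsep P Subset.rfl (fun _ => 1)
    (fun _ => zero_le_one)
  refine ⟨h, hh, ?_⟩
  intro n hn
  have hQR : (0 : ℝ) < Q := by exact_mod_cast hQ
  have hNR : (0 : ℝ) < N := by exact_mod_cast hN
  have h1 : ∑ n ∈ range N, 1 * Real.exp (Real.exp (5 * θ) / Q * CC m Q B P n) ≤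
      N * Real.exp 1 := by
    have : ∀ n ∈ range N, 1 * Real.exp (Real.exp (5 * θ) / Q * CC m Q B P n) ≤ Real.exp 1 := by
      intro n hn
      rw [one_mul]
      apply Real.exp_le_exp.2
      have h2 := (CC_le m Q B P n).trans (hS n (mem_range.1 hn))
      calc Real.exp (5 * θ) / Q * CC m Q B P n ≤ Real.exp (5 * θ) / Q * S :=
            mul_le_mul_of_nonneg_left h2 (by positivity)
        _ = (Real.exp (5 * θ) * S) / Q := by ring
        _ ≤ 1 := (div_le_one hQR).2 hQS
    refine (sum_le_sum this).trans (le_of_eq ?_)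
    simp
  have h2 : Real.exp (θ * EE m B P h n) ≤ N * Real.exp 1 := by
    refine le_trans ?_ (hsum.trans h1)
    rw [← one_mul (Real.exp (θ * EE m B P h n))]
    exact single_le_sum (f := fun n => 1 * Real.exp (θ * EE m B P h n))
      (fun _ _ => by positivity) (mem_range.2 hn)
  have h3 : θ * EE m B P h n ≤ Real.log N + 1 := by
    have := Real.log_le_log (Real.exp_pos _) h2
    rwa [Real.log_exp, Real.log_mul hNR.ne' (Real.exp_pos _).ne', Real.log_exp] at this
  refine le_trans (mul_le_mul_of_nonneg_left ?_ hθ.le) h3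
  unfold EE
  have h4 := rp_HS m P h n
  have h5 := rp_B m P B h n
  rw [sum_add_distrib, ← mul_sum]
  linarith

end Pool.Agent.H53.BS.HASH
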