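import Pool.Agent.H53.BS.Stm2

set_option autoImplicit false

open Finset Pool.Agent.H53.ET

namespace Pool.Agent.H53.BS.INV2

open Pool.Agent.H53.BS

theorem cls_union (B U : Finset ℕ) (m c : ℕ) : cls (B ∪ U) m c ≤ cls B m c + cls U m c := by
  unfold cls
  rw [filter_union]
  exact card_union_le _ _

theorem main (hS : S_SEQ2) : S_INV2 := by
  intro k k' u B U hk' hu hU hUc hB
  obtain ⟨s1, s2, s3, s4, s5, s6, s7⟩ := hS k k' u hk' hu
  obtain ⟨w, hw⟩ : ∃ w, w = nx2 k k' u := ⟨_, rfl⟩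
  rw [← hw] at s1 s2 s3 s4 s5 s6 s7 ⊢
  have hkr : (0 : ℝ) ≤ k := Nat.cast_nonneg k
  have hur : (k : ℝ) + 60 ≤ u := by exact_mod_cast hu
  have hInv : Inv k u (B ∪ U) := by
    constructor
    · intro b hb
      rw [mem_union] at hb
      rcases hb with hb | hb
      · rcases hB with rfl | ⟨j, u', hj, hu', hI⟩
        · simp at hb
        · refine (hI.1 b hb).trans_le (Nat.pow_le_pow_right (by norm_num) ?_)
          have : u' * (j + 41) ≤ u * (k + 41) := Nat.mul_le_mul (by omega) (by omega)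
          omega
      · exact (hU b hb).2
    · intro e c
      have h0 : ((cls (B ∪ U) (2 ^ e) c : ℕ) : ℝ) ≤ (cls B (2 ^ e) c : ℝ) + (cls U (2 ^ e) c : ℝ) := by
        exact_mod_cast cls_union B U (2 ^ e) c
      have h1 := hUc e c
      obtain ⟨X, hX⟩ : ∃ X : ℝ, X = (2 : ℝ) ^ (((u : ℝ) * (k + 52) - e) / 2) := ⟨_, rfl⟩
      have hX0 : 0 < X := by rw [hX]; positivity
      rw [← hX] at h1 ⊢
      have hY1 : (1 : ℝ) ≤ 2 ^ (16 * u) := one_le_pow₀ (by norm_num)
      have h2 : (cls B (2 ^ e) c : ℝ) ≤ 3 * X + 2 ^ (16 * u) := by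
        rcases hB with rfl | ⟨j, u', hj, hu', hI⟩
        · have : cls ∅ (2 ^ e) c = 0 := by simp [cls]
          rw [this]
          push_cast
          positivity
        · refine (hI.2 e c).trans ?_
          have h3 : (2 : ℝ) ^ (((u' : ℝ) * (j + 52) - e) / 2) ≤ X / 2 := by
            have h4 : X / 2 = (2 : ℝ) ^ (((u : ℝ) * (k + 52) - e) / 2 - 1) := by
              rw [hX, Real.rpow_sub (by norm_num), Real.rpow_one]
            rw [h4]
            apply Real.rpow_le_rpow_of_exponent_le (by norm_num)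
            have h5 : (u' : ℝ) + 2 ≤ u := by exact_mod_cast hu'
            have h6 : (j : ℝ) ≤ k := by exact_mod_cast hj
            have h7 : (0 : ℝ) ≤ u' := Nat.cast_nonneg _
            have h8 : (u' : ℝ) * (j + 52) ≤ u' * (k + 52) := by
              exact mul_le_mul_of_nonneg_left (by linarith) h7
            nlinarith
          have h6 : 4 * (2 : ℝ) ^ (16 * u') ≤ 2 ^ (16 * u) := by
            calc 4 * (2 : ℝ) ^ (16 * u') = 2 ^ (16 * u' + 2) := by rw [pow_add]; ring
              _ ≤ 2 ^ (16 * u) := pow_le_pow_right₀ (by norm_num) (by omega)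
          linarith
      linarith
  refine ⟨hInv, ?_, ?_⟩
  · intro b hb
    refine (hInv.1 b hb).trans_le (Nat.pow_le_pow_right (by norm_num) ?_)
    omega
  · intro i hi c
    have h1 := hInv.2 (w * i) c
    obtain ⟨a, ha⟩ : ∃ a, a = (k' + 1 - i) / 2 := ⟨_, rfl⟩
    rw [← ha]
    have ha2 : k' ≤ 2 * a + i := by omega
    have har : (k' : ℝ) ≤ 2 * a + i := by exact_mod_cast ha2
    have hwr : (0 : ℝ) ≤ w := Nat.cast_nonneg w
    have s4r : (u : ℝ) * (k + 52) + 8 ≤ w * (k' + 40) := by exact_mod_cast s4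
    obtain ⟨Tt, hT⟩ : ∃ Tt : ℝ, Tt = (2 : ℝ) ^ (w * (a + 20)) := ⟨_, rfl⟩
    have hT0 : 0 < Tt := by rw [hT]; positivity
    have h2 : (2 : ℝ) ^ (((u : ℝ) * (k + 52) - ((w * i : ℕ) : ℝ)) / 2) ≤ Tt / 16 := by
      have h4 : Tt / 16 = (2 : ℝ) ^ (((w * (a + 20) : ℕ) : ℝ) - 4) := by
        rw [hT, Real.rpow_sub (by norm_num), Real.rpow_natCast]
        norm_num
      rw [h4]
      apply Real.rpow_le_rpow_of_exponent_le (by norm_num)
      push_cast
      nlinarith
    have h3 : 4 * (2 : ℝ) ^ (16 * u) ≤ Tt / 2 := by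
      have h5 : (2 : ℝ) ^ (16 * u + 3) ≤ Tt := by
        rw [hT]
        apply pow_le_pow_right₀ (by norm_num)
        nlinarith
      rw [pow_add] at h5
      linarith
    have h6 : ((cls (B ∪ U) (2 ^ (w * i)) c : ℕ) : ℝ) ≤ Tt := by linarith
    rw [hT] at h6
    exact_mod_cast h6

end Pool.Agent.H53.BS.INV2
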