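import Pool.Agent.H53.BS.Stm

set_option autoImplicit false

/-! # BS-LH: at most three representations by the thick set and the hashed set (helper71) -/

open Finset Pool.Agent.H53.ET

namespace Pool.Agent.H53.BS.LH

theorem M_const (G : ℕ) : ∀ t, M (fun _ => G) t = G ^ t := by
  intro t
  induction t with
  | zero => rfl
  | succ t ih =>
    show M (fun _ => G) t * G = G ^ (t + 1)
    rw [ih, pow_succ]

theorem main : S_LH := by
  intro G k Q J D v h T hQ hh n
  obtain ⟨d, hd, β, hβ, x, hx, hmod⟩ := (T.decode k).1 n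
  have huniq := (T.decode k).2
  have hG8 : 8 ≤ G := T.adm.g8 0
  rw [M_const] at hmod huniq
  rw [M_const] at hmod huniq
  obtain ⟨m, hm⟩ : ∃ m, m = G ^ (k + 1) := ⟨_, rfl⟩
  obtain ⟨m₀, hm₀⟩ : ∃ m₀, m₀ = G ^ k := ⟨_, rfl⟩
  have hmm : m = m₀ * G := by rw [hm, hm₀, pow_succ]
  rw [← hm] at hmod huniq ⊢
  rw [← hm₀] at hmod huniq ⊢
  have hm0 : 0 < m := by rw [hm]; positivity
  obtain ⟨w, hw⟩ : ∃ w, w = (n - (d + m₀ * β + x)) / m := ⟨_, rfl⟩
  obtain ⟨B, hB⟩ : ∃ B : ℕ → ℕ, ∀ i, B i = x + m * Q * (w / Q - i) +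
    m * h (x + m * Q * (w / Q - i)) := ⟨_, fun i => rfl⟩
  unfold rp
  have hsub : ((LS m₀ (G * Q) (3 * (G * Q)) (D k) ×ˢ HS m (PP (m * Q) J (D (k + 1))) h).filter
      (fun r => r.1 + r.2 = n)) ⊆ (Icc 1 3).image fun i => (n - B i, B i) := by
    rintro ⟨a, b⟩ hab
    rw [Finset.mem_filter, Finset.mem_product] at hab
    obtain ⟨⟨ha, hb⟩, hn⟩ := hab
    simp only at ha hb hn
    unfold LS at ha
    unfold HS PP at hb
    rw [Finset.mem_image] at ha hb
    obtain ⟨⟨d', z⟩, hdz, ha⟩ := ha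
    obtain ⟨p, hp, hb⟩ := hb
    rw [Finset.mem_image] at hp
    obtain ⟨⟨x', j⟩, hxj, hp⟩ := hp
    rw [Finset.mem_product, Finset.mem_Ico] at hdz
    rw [Finset.mem_product, Finset.mem_Icc] at hxj
    obtain ⟨hd', hz1, hz2⟩ := hdz
    obtain ⟨hx', hj1, hj2⟩ := hxj
    simp only at hd' hz1 hz2 hx' hj1 hj2 ha hp
    have hhp := hh p
    have hzm : z % G < G := Nat.mod_lt _ (by omega)
    have hzd := Nat.div_add_mod z G
    -- the total
    have htot : d' + m₀ * (z % G) + x' + m * (z / G + Q * j + h p) = n := by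
      obtain ⟨H, hH⟩ : ∃ H, H = h p := ⟨_, rfl⟩
      rw [← hn, ← ha, ← hb, ← hH, ← hp, hmm]
      have h1 : m₀ * z = m₀ * (G * (z / G) + z % G) := by rw [hzd]
      rw [h1]
      ring
    have hmod' : d' + m₀ * (z % G) + x' ≡ d + m₀ * β + x [MOD m] := by
      refine Nat.ModEq.trans ?_ hmod.symm
      rw [← htot]
      exact (Nat.ModEq.symm (by simp [Nat.ModEq]))
    obtain ⟨h1, h2, h3⟩ := huniq d' hd' (z % G) hzm x' hx' d hd β hβ x hx hmod'
    subst h1
    subst h3
    rw [h2] at htot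
    have hwv : w = z / G + Q * j + h p := by
      rw [hw, ← htot, Nat.add_sub_cancel_left, Nat.mul_div_cancel_left _ hm0]
    have hy1 : Q ≤ z / G := (Nat.le_div_iff_mul_le (by omega)).2 (by rw [mul_comm]; exact hz1)
    have hy2 : z / G < 3 * Q := (Nat.div_lt_iff_lt_mul (by omega)).2 (by
      have : 3 * Q * G = 3 * (G * Q) := by ring
      omega)
    have hf1 : j + 1 ≤ w / Q := by
      rw [Nat.le_div_iff_mul_le hQ]
      have : (j + 1) * Q = Q * j + Q := by ring
      omega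
    have hf2 : w / Q < j + 4 := by
      rw [Nat.div_lt_iff_lt_mul hQ]
      have : (j + 4) * Q = Q * j + 4 * Q := by ring
      omega
    rw [Finset.mem_image]
    refine ⟨w / Q - j, Finset.mem_Icc.2 ⟨by omega, by omega⟩, ?_⟩
    have hj : w / Q - (w / Q - j) = j := by omega
    have hBb : B (w / Q - j) = b := by
      rw [hB, hj, hp, hb]
    rw [hBb]
    have : n - b = a := by omega
    rw [this]
  calc _ ≤ ((Icc 1 3).image fun i => (n - B i, B i)).card := Finset.card_le_card hsub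
    _ ≤ (Icc 1 3).card := Finset.card_image_le
    _ = 3 := by simp

end Pool.Agent.H53.BS.LH
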