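import Mathlib
import Pool.Agent.H53.BS.Stm

set_option autoImplicit false

open Finset Pool.Agent.H53.ET

namespace Pool.Agent.H53.BS.LL

theorem main : S_LL := by
  intro m a b Y B hm hY n
  constructor
  · -- pairs of LS
    have h1 : rp (LS m a b Y) (LS m a b Y) n ≤
        (((Y ×ˢ Y).filter (fun q => (q.1 + q.2) % m = n % m)) ×ˢ Ico a b).card := by
      unfold rp
      apply card_le_card_of_injOn (fun r => ((r.1 % m, r.2 % m), r.1 / m))
      · rintro ⟨x, y⟩ h
        simp only [coe_filter, mem_product, Set.mem_setOf_eq] at h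
        obtain ⟨⟨hx, hy⟩, hxy⟩ := h
        simp only [LS, mem_image, mem_product, mem_Ico, Prod.exists] at hx hy
        obtain ⟨u, z, ⟨hu, hz⟩, rfl⟩ := hx
        obtain ⟨u', z', ⟨hu', hz'⟩, rfl⟩ := hy
        have e1 : (u + m * z) % m = u := by
          rw [Nat.add_mul_mod_self_left, Nat.mod_eq_of_lt (hY u hu)]
        have e2 : (u' + m * z') % m = u' := by
          rw [Nat.add_mul_mod_self_left, Nat.mod_eq_of_lt (hY u' hu')]
        have e3 : (u + m * z) / m = z := by
          rw [Nat.add_mul_div_left _ _ hm, Nat.div_eq_of_lt (hY u hu), zero_add]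
        simp only [coe_product, coe_filter, Set.mem_prod, Set.mem_setOf_eq, mem_product, coe_Ico,
          Set.mem_Ico, e1, e2, e3]
        refine ⟨⟨⟨hu, hu'⟩, ?_⟩, hz⟩
        rw [← hxy]
        have : u + m * z + (u' + m * z') = (u + u') + m * (z + z') := by ring
        rw [this, Nat.add_mul_mod_self_left]
      · rintro ⟨x, y⟩ h ⟨x', y'⟩ h' heq
        simp only [coe_filter, mem_product, Set.mem_setOf_eq] at h h'
        simp only [Prod.mk.injEq] at heq
        obtain ⟨⟨e1, e2⟩, e3⟩ := heq
        have hx : x = x' := by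
          rw [← Nat.div_add_mod x m, ← Nat.div_add_mod x' m, e1, e3]
        have h2 := h.2
        have h2' := h'.2
        subst hx
        have hy : y = y' := by omega
        rw [hy]
    refine h1.trans (le_of_eq ?_)
    rw [card_product, Nat.card_Ico, mul_comm]
    rfl
  · unfold rp W
    apply card_le_card_of_injOn (fun r => (r.1, r.2 % m))
    · rintro ⟨x, y⟩ h
      simp only [coe_filter, mem_product, Set.mem_setOf_eq] at h
      obtain ⟨⟨hx, hy⟩, hxy⟩ := h
      simp only [LS, mem_image, mem_product, mem_Ico, Prod.exists] at hy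
      obtain ⟨u', z', ⟨hu', hz'⟩, rfl⟩ := hy
      have e2 : (u' + m * z') % m = u' := by
        rw [Nat.add_mul_mod_self_left, Nat.mod_eq_of_lt (hY u' hu')]
      simp only [coe_filter, mem_product, Set.mem_setOf_eq, e2]
      refine ⟨⟨hx, hu'⟩, ?_⟩
      rw [← hxy, ← add_assoc, Nat.add_mul_mod_self_left]
    · rintro ⟨x, y⟩ h ⟨x', y'⟩ h' heq
      simp only [coe_filter, mem_product, Set.mem_setOf_eq] at h h'
      simp only [Prod.mk.injEq] at heq
      have h2 := h.2
      have h2' := h'.2
      obtain ⟨e1, e2⟩ := heq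
      subst e1
      have hy : y = y' := by omega
      rw [hy]

end Pool.Agent.H53.BS.LL
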