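import Pool.Agent.H53.BS.Stm

set_option autoImplicit false

/-! # BS-NUM: inequalities for large `u` (helper71) -/

namespace Pool.Agent.H53.BS.NUM

open Filter

theorem main : S_NUM := by
  intro k
  -- growth
  have hgrow : ∃ N : ℕ, ∀ u ≥ N, (20 * ((k : ℝ) + 2) ^ 2) * u ≤ 2 ^ u := by
    have h1 := tendsto_pow_const_div_const_pow_of_one_lt 1 (one_lt_two : (1 : ℝ) < 2)
    have h2 : (0 : ℝ) < 1 / (20 * ((k : ℝ) + 2) ^ 2) := by positivity
    obtain ⟨N, hN⟩ := eventually_atTop.1 (h1.eventually (gt_mem_nhds h2))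
    refine ⟨N, fun u hu => ?_⟩
    have h3 := hN u hu
    rw [pow_one, div_lt_div_iff₀ (by positivity) (by positivity)] at h3
    linarith
  obtain ⟨N, hN⟩ := hgrow
  refine ⟨max N (k + 52), by omega, le_max_right _ _, ?_⟩
  intro u hu G hG
  have huN : N ≤ u := (le_max_left _ _).trans hu
  have huk : k + 52 ≤ u := (le_max_right _ _).trans hu
  have hu1 : (52 : ℝ) ≤ u := by
    have : 52 ≤ u := by omega
    exact_mod_cast this
  have hk0 : (0 : ℝ) ≤ k := Nat.cast_nonneg k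
  have hbig := hN u huN
  rw [← hG] at hbig
  have hl0 : 0 < Real.log 2 := Real.log_pos (by norm_num)
  have hl1 : Real.log 2 ≤ 1 := by linarith [Real.log_two_lt_d9]
  have hl2 : 0.69 ≤ Real.log 2 := by linarith [Real.log_two_gt_d9]
  have hG1 : 1 ≤ G := by
    rw [hG]
    exact one_le_pow₀ (by norm_num)
  have hG0 : 0 < G := by linarith
  have hlogG : Real.log G = u * Real.log 2 := by rw [hG, Real.log_pow]
  have hlogG0 : 0 ≤ Real.log G := Real.log_nonneg hG1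
  have hlogGu : Real.log G ≤ u := by
    rw [hlogG]
    nlinarith
  have hlog8 : ∀ j : ℕ, Real.log (8 * G ^ j) ≤ 3 + j * u := by
    intro j
    rw [Real.log_mul (by norm_num) (by positivity), Real.log_pow]
    have h8 : Real.log 8 = 3 * Real.log 2 := by
      rw [show (8 : ℝ) = 2 ^ 3 by norm_num, Real.log_pow]
      norm_num
    rw [h8]
    have : (j : ℝ) * Real.log G ≤ j * u := mul_le_mul_of_nonneg_left hlogGu (Nat.cast_nonneg j)
    linarith
  have hlogp : ∀ j : ℕ, Real.log (G ^ j) ≤ j * u := by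
    intro j
    rw [Real.log_pow]
    exact mul_le_mul_of_nonneg_left hlogGu (Nat.cast_nonneg j)
  refine ⟨?_, ?_, ?_⟩
  · have h1 := hlog8 (k + 1)
    have h2 := hlogp (k + 1)
    push_cast at h1 h2 ⊢
    have h3 : G ^ 17 ≤ G ^ 22 := pow_le_pow_right₀ hG1 (by norm_num)
    have hu0 : (0 : ℝ) ≤ u := Nat.cast_nonneg u
    calc 2 * G ^ 16 * (2 * ((k : ℝ) + 1 + 1) * G * (Real.log (G ^ (k + 1)) + ((k : ℝ) + 1) + 1)) +
          G ^ 22 * Real.log (8 * G ^ (k + 1))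
        = G ^ 17 * (4 * ((k : ℝ) + 2) * (Real.log (G ^ (k + 1)) + ((k : ℝ) + 1) + 1)) +
          G ^ 22 * Real.log (8 * G ^ (k + 1)) := by ring
      _ ≤ G ^ 17 * (4 * ((k : ℝ) + 2) * (((k : ℝ) + 1) * u + ((k : ℝ) + 1) + 1)) +
          G ^ 22 * (3 + ((k : ℝ) + 1) * u) := by gcongr
      _ ≤ G ^ 22 * (4 * ((k : ℝ) + 2) * (((k : ℝ) + 1) * u + ((k : ℝ) + 1) + 1)) +
          G ^ 22 * (3 + ((k : ℝ) + 1) * u) := by gcongr
      _ = G ^ 22 * (4 * ((k : ℝ) + 2) * (((k : ℝ) + 1) * u + ((k : ℝ) + 1) + 1) +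
          (3 + ((k : ℝ) + 1) * u)) := by ring
      _ ≤ G ^ 22 * G := by
          refine mul_le_mul_of_nonneg_left (le_trans ?_ hbig) (by positivity)
          have h5 : 0 ≤ (k : ℝ) * u := by positivity
          have h6 : 0 ≤ (k : ℝ) ^ 2 * u := by positivity
          nlinarith [mul_nonneg hk0 hk0, mul_nonneg h5 hk0, mul_nonneg (mul_nonneg hk0 hk0)
            (by linarith : (0 : ℝ) ≤ u - 52), mul_nonneg hk0 (by linarith : (0 : ℝ) ≤ u - 52)]
      _ = G ^ 23 := by ring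
  · have h1 := hlog8 k
    have h2 := hlogp k
    have h3 : G ^ 22 ≤ G ^ 26 := pow_le_pow_right₀ hG1 (by norm_num)
    have hu0 : (0 : ℝ) ≤ u := Nat.cast_nonneg u
    calc 2 * (G ^ 22 * Real.log (8 * G ^ k)) +
          2 * (G * G ^ 24) * (2 * ((k : ℝ) + 1) * G * (Real.log (G ^ k) + (k : ℝ) + 1))
        = G ^ 22 * (2 * Real.log (8 * G ^ k)) +
          G ^ 26 * (4 * ((k : ℝ) + 1) * (Real.log (G ^ k) + (k : ℝ) + 1)) := by ring
      _ ≤ G ^ 22 * (2 * (3 + (k : ℝ) * u)) +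
          G ^ 26 * (4 * ((k : ℝ) + 1) * ((k : ℝ) * u + (k : ℝ) + 1)) := by gcongr
      _ ≤ G ^ 26 * (2 * (3 + (k : ℝ) * u)) +
          G ^ 26 * (4 * ((k : ℝ) + 1) * ((k : ℝ) * u + (k : ℝ) + 1)) := by gcongr
      _ = G ^ 26 * (2 * (3 + (k : ℝ) * u) +
          4 * ((k : ℝ) + 1) * ((k : ℝ) * u + (k : ℝ) + 1)) := by ring
      _ ≤ G ^ 26 * G := by
          refine mul_le_mul_of_nonneg_left (le_trans ?_ hbig) (by positivity)
          have h5 : 0 ≤ (k : ℝ) * u := by positivity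
          have h6 : 0 ≤ (k : ℝ) ^ 2 * u := by positivity
          nlinarith [mul_nonneg hk0 hk0, mul_nonneg h5 hk0, mul_nonneg (mul_nonneg hk0 hk0)
            (by linarith : (0 : ℝ) ≤ u - 52), mul_nonneg hk0 (by linarith : (0 : ℝ) ≤ u - 52)]
      _ = G ^ 27 := by ring
  · have h1 : Real.log (((2 ^ (u * (k + 42)) : ℕ)) : ℝ) = (u * (k + 42)) * Real.log 2 := by
      push_cast
      rw [Real.log_pow]
      push_cast
      ring
    rw [h1]
    have h2 : (5 : ℝ) ≤ 8 * (u * Real.log 2) := by nlinarith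
    nlinarith

end Pool.Agent.H53.BS.NUM
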