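import Pool.Agent.H53.BS.Stm

set_option autoImplicit false

namespace Pool.Agent.H53.BS.SEQ

open Pool.Agent.H53.BS

theorem main : S_SEQ := by
  intro k u hu
  obtain ⟨N, hN⟩ : ∃ N, N = nx k u := ⟨_, rfl⟩
  rw [← hN]
  have h1 : N * (k + 25) ≤ u * (k + 41) - 2 := by
    rw [hN]
    exact Nat.div_mul_le_self _ _
  have h2 : u * (k + 41) - 2 < N * (k + 25) + (k + 25) := by
    rw [hN]
    exact Nat.lt_div_mul_add (by omega)
  have h0 : 2 ≤ u * (k + 41) := by nlinarith
  have h3 : N * (k + 25) + 2 ≤ u * (k + 41) := by omega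
  have h4 : u * (k + 41) < N * (k + 25) + 2 + (k + 25) := by omega
  refine ⟨h3, h4, ?_, ?_, ?_, ?_⟩
  · by_contra h
    push Not at h
    have h5 : N ≤ u + 1 := by omega
    have h6 : N * (k + 25) ≤ (u + 1) * (k + 25) := Nat.mul_le_mul_right _ h5
    nlinarith
  · have h5 : u * (k + 41) ≤ N * (k + 25) + (k + 26) := by omega
    have h6 : u * (k + 41) * (k + 40) ≤ (N * (k + 25) + (k + 26)) * (k + 40) :=
      Nat.mul_le_mul_right _ h5
    have h7 : (k + 52) * (4 * k + 340) ≤ u * (4 * k + 340) := Nat.mul_le_mul_right _ hu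
    have h8 : (u * (k + 52) + 8) * (k + 25) ≤ N * (k + 40) * (k + 25) := by nlinarith
    exact Nat.le_of_mul_le_mul_right h8 (by omega)
  · nlinarith
  · nlinarith

end Pool.Agent.H53.BS.SEQ
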