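import Pool.Agent.H53.BS.Stm3

set_option autoImplicit false

namespace Pool.Agent.H53.BS.SEQ3

open Pool.Agent.H53.BS

theorem main : S_SEQ3 := by
  intro k k' u hk1 hk2 hu
  obtain ⟨N, hN⟩ : ∃ N, N = nx2 k k' u := ⟨_, rfl⟩
  rw [← hN]
  have h1 : N * (k' + 25) ≤ u * (k + 41) - 2 := by
    rw [hN]
    exact Nat.div_mul_le_self _ _
  have h2 : u * (k + 41) - 2 < N * (k' + 25) + (k' + 25) := by
    rw [hN]
    exact Nat.lt_div_mul_add (by omega)
  have h0 : 2 ≤ u * (k + 41) := by nlinarith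
  have h3 : N * (k' + 25) + 2 ≤ u * (k + 41) := by omega
  have h4 : u * (k + 41) < N * (k' + 25) + 2 + (k' + 25) := by omega
  clear h1 h2 hN
  obtain ⟨d, rfl⟩ : ∃ d, k' = k + d := ⟨k' - k, by omega⟩
  have hd : d ≤ 8 := by omega
  have h5 : u + 8 ≤ N := by
    by_contra h
    push Not at h
    have h5 : N ≤ u + 7 := by omega
    have h6 : N * (k + d + 25) ≤ (u + 7) * (k + d + 25) := Nat.mul_le_mul_right _ h5
    interval_cases d <;> nlinarith
  refine ⟨h3, h4, by omega, ?_, ?_, ?_, by omega⟩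
  · have h6 : u * (k + 41) ≤ N * (k + d + 25) + (k + d + 26) := by omega
    have h7 : u * (k + 41) * (k + d + 40) ≤ (N * (k + d + 25) + (k + d + 26)) * (k + d + 40) :=
      Nat.mul_le_mul_right _ h6
    have h8 : (k + 60) * (4 * k + (340 - 11 * d)) ≤ u * (4 * k + (340 - 11 * d)) :=
      Nat.mul_le_mul_right _ hu
    have h9 : (u * (k + 52) + 8) * (k + d + 25) ≤ N * (k + d + 40) * (k + d + 25) := by
      interval_cases d <;> norm_num at h8 <;> nlinarith
    exact Nat.le_of_mul_le_mul_right h9 (by omega)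
  · nlinarith
  · nlinarith

end Pool.Agent.H53.BS.SEQ3
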