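import Mathlib
import Pool.Agent.H53.BS.Stm

set_option autoImplicit false

open Finset Pool.Agent.H53.ET

namespace Pool.Agent.H53.BS.SIZE

theorem M_const (G t : ℕ) : M (fun _ => G) t = G ^ t := by
  induction t with
  | zero => rfl
  | succ t ih => rw [show M (fun _ => G) (t + 1) = M (fun _ => G) t * G from rfl, ih, pow_succ]

theorem main : S_SIZE := by
  intro G k Q J D v h T hQ hh
  have hG : 0 < G := T.adm.g_pos 0
  have hk : 0 < G ^ k := pow_pos hG k
  have hk1 : 0 < G ^ (k + 1) := pow_pos hG (k + 1)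
  constructor
  · intro a ha
    simp only [LS, mem_image, mem_product, mem_Ico, Prod.exists] at ha
    obtain ⟨d, z, ⟨hd, hz1, hz2⟩, rfl⟩ := ha
    have h1 := T.D_lt k d hd
    rw [M_const] at h1
    constructor
    · calc G ^ (k + 1) * Q = G ^ k * (G * Q) := by ring
        _ ≤ G ^ k * z := Nat.mul_le_mul_left _ hz1
        _ ≤ _ := Nat.le_add_left _ _
    · calc d + G ^ k * z < G ^ k + G ^ k * z := by omega
        _ = G ^ k * (z + 1) := by ring
        _ ≤ G ^ k * (3 * (G * Q)) := Nat.mul_le_mul_left _ hz2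
        _ = 3 * (G ^ (k + 1) * Q) := by ring
  · intro a ha
    simp only [HS, PP, mem_image, mem_product, mem_Icc, Prod.exists] at ha
    obtain ⟨p, ⟨x, j, ⟨hx, hj1, hj2⟩, hp⟩, rfl⟩ := ha
    have h1 := T.D_lt (k + 1) x hx
    rw [M_const] at h1
    have h2 := hh p
    constructor
    · calc G ^ (k + 1) * Q = G ^ (k + 1) * Q * 1 := (mul_one _).symm
        _ ≤ G ^ (k + 1) * Q * j := Nat.mul_le_mul_left _ hj1
        _ ≤ p + G ^ (k + 1) * h p := by omega
    · have h3 : x + G ^ (k + 1) * h p < G ^ (k + 1) * Q := by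
        calc x + G ^ (k + 1) * h p < G ^ (k + 1) + G ^ (k + 1) * h p := by omega
          _ = G ^ (k + 1) * (h p + 1) := by ring
          _ ≤ G ^ (k + 1) * Q := Nat.mul_le_mul_left _ h2
      have h4 : G ^ (k + 1) * Q * j ≤ G ^ (k + 1) * Q * J := Nat.mul_le_mul_left _ hj2
      calc p + G ^ (k + 1) * h p = (x + G ^ (k + 1) * h p) + G ^ (k + 1) * Q * j := by
            rw [← hp]; ring
        _ < G ^ (k + 1) * Q + G ^ (k + 1) * Q * J := by omega
        _ = (J + 1) * (G ^ (k + 1) * Q) := by ring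

end Pool.Agent.H53.BS.SIZE
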