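import Pool.Agent.H53.BS.Stm3

/-! BS-STAGE3: one stage of the construction, explicit threshold (copy of STAGE.lean by helper51). -/

set_option autoImplicit false

open Finset Pool.Agent.H53.ET

namespace Pool.Agent.H53.BS.STAGE3

theorem M_const (G t : ℕ) : M (fun _ => G) t = G ^ t := by
  induction t with
  | zero => rfl
  | succ t ih =>
    show M (fun _ => G) t * G = _
    rw [ih, pow_succ]

theorem rp_union_left (S S' T : Finset ℕ) (n : ℕ) : rp (S ∪ S') T n ≤ rp S T n + rp S' T n := by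
  unfold rp
  rw [union_product, filter_union]
  exact card_union_le _ _

theorem rp_comm (S T : Finset ℕ) (n : ℕ) : rp S T n = rp T S n := by
  unfold rp
  refine card_bij' (fun t _ => t.swap) (fun t _ => t.swap) ?_ ?_ (fun t _ => by simp)
    (fun t _ => by simp)
  · rintro ⟨a, b⟩ h
    rw [mem_filter, mem_product] at h ⊢
    exact ⟨⟨h.1.2, h.1.1⟩, by rw [Prod.fst_swap, Prod.snd_swap, add_comm]; exact h.2⟩
  · rintro ⟨a, b⟩ h
    rw [mem_filter, mem_product] at h ⊢
    exact ⟨⟨h.1.2, h.1.1⟩, by rw [Prod.fst_swap, Prod.snd_swap, add_comm]; exact h.2⟩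

theorem rp_union_right (S T T' : Finset ℕ) (n : ℕ) : rp S (T ∪ T') n ≤ rp S T n + rp S T' n := by
  rw [rp_comm S, rp_comm S, rp_comm S]
  exact rp_union_left _ _ _ _

theorem rp_zero {S T : Finset ℕ} {X Y n : ℕ} (hS : ∀ b ∈ S, b < X) (hT : ∀ b ∈ T, b < Y)
    (hn : X + Y ≤ n) : rp S T n = 0 := by
  unfold rp
  rw [card_eq_zero, filter_eq_empty_iff]
  rintro ⟨a, b⟩ hab heq
  rw [mem_product] at hab
  have h1 := hS a hab.1
  have h2 := hT b hab.2
  simp only at heq h1 h2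
  omega

theorem rp_all (B L H : Finset ℕ) (n : ℕ) : rp (B ∪ (L ∪ H)) (B ∪ (L ∪ H)) n ≤
    rp B B n + (2 * rp B L n + rp L L n) + 2 * rp L H n + (rp H H n + 2 * rp B H n) := by
  have h1 := rp_union_left B (L ∪ H) (B ∪ (L ∪ H)) n
  have h2 := rp_union_right B B (L ∪ H) n
  have h3 := rp_union_right B L H n
  have h4 := rp_union_left L H (B ∪ (L ∪ H)) n
  have h5 := rp_union_right L B (L ∪ H) n
  have h6 := rp_union_right L L H n
  have h7 := rp_union_right H B (L ∪ H) n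
  have h8 := rp_union_right H L H n
  have e1 := rp_comm L B n
  have e2 := rp_comm H B n
  have e3 := rp_comm H L n
  omega

theorem main : S_TW → S_HASH → S_CP → S_COV → S_LH → S_SIZE → S_LL → S_CLS → S_NUM3 →
    S_STAGE3 := by
  intro hTW hHASH hCP hCOV hLH hSIZE hLL hCLS hNUM k u hu B hB
  have hu3 : 3 ≤ u := by omega
  have huk : k + 52 ≤ u := by omega
  obtain ⟨hB1, hB2⟩ := hB
  set G : ℕ := 2 ^ u with hG
  have hG8 : 8 ≤ G := by
    calc 8 = 2 ^ 3 := by norm_num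
      _ ≤ 2 ^ u := Nat.pow_le_pow_right (by norm_num) hu3
  have hG0 : 0 < G := by omega
  have hGR : ((G : ℕ) : ℝ) = 2 ^ u := by rw [hG]; push_cast; rfl
  have hGR8 : (8 : ℝ) ≤ (G : ℝ) := by exact_mod_cast hG8
  have hGR0 : (0 : ℝ) < (G : ℝ) := by linarith
  obtain ⟨hn1, hn2, hn3⟩ := hNUM k u hu (G : ℝ) hGR
  have hQG : (2 : ℕ) ^ (24 * u) = G ^ 24 := by rw [hG, ← pow_mul]; congr 1; ring
  have hJG : (2 : ℕ) ^ (16 * u) = G ^ 16 := by rw [hG, ← pow_mul]; congr 1; ring
  set Q : ℕ := 2 ^ (24 * u) with hQ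
  set J : ℕ := 2 ^ (16 * u) with hJ
  have hQ0 : 0 < Q := by positivity
  have hJ0 : 0 < J := by positivity
  -- the tower
  have hκ : (0 : ℝ) < ((G : ℝ) ^ 22)⁻¹ := by positivity
  obtain ⟨D, v, T, hW⟩ := hTW G (k + 1) B (((G : ℝ) ^ 22)⁻¹) hG8 hκ (by
    intro t ht c
    have h1 := hB2 t ht c
    have e1 : (2 : ℕ) ^ (u * t) = G ^ t := by rw [hG, ← pow_mul]
    have e2 : (2 : ℕ) ^ (u * ((k + 1 - t) / 2 + 20)) = G ^ ((k + 1 - t) / 2 + 20) := by
      rw [hG, ← pow_mul]
    rw [e1, e2] at h1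
    set j := (k + 1 - t) / 2 with hj
    have hju : j ≤ u := by omega
    have h2 : (cls B (G ^ t) c : ℝ) ≤ (G : ℝ) ^ (j + 20) := by exact_mod_cast h1
    have h3 : (2 : ℝ) ^ j ≤ (G : ℝ) := by
      rw [hGR]
      exact pow_le_pow_right₀ (by norm_num) hju
    calc ((G : ℝ) ^ 22)⁻¹ * (2 / (G : ℝ)) ^ j * G * cls B (G ^ t) c ≤
        ((G : ℝ) ^ 22)⁻¹ * (2 / (G : ℝ)) ^ j * G * (G : ℝ) ^ (j + 20) :=
          mul_le_mul_of_nonneg_left h2 (by positivity)
      _ = 2 ^ j / G := by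
          rw [div_pow, pow_add]
          field_simp
      _ ≤ 1 := by rw [div_le_one hGR0]; exact h3)
  have hWk : ∀ n, (W B (D k) (G ^ k) n : ℝ) ≤ (G : ℝ) ^ 22 * Real.log (8 * (G : ℝ) ^ k) := by
    intro n
    have h1 := hW k (by omega) n
    have e : (k + 1 - k) / 2 = 0 := by omega
    rw [e, pow_zero, mul_one, inv_mul_le_iff₀ (by positivity)] at h1
    exact h1
  have hWk1 : ∀ n, (W B (D (k + 1)) (G ^ (k + 1)) n : ℝ) ≤
      (G : ℝ) ^ 22 * Real.log (8 * (G : ℝ) ^ (k + 1)) := by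
    intro n
    have h1 := hW (k + 1) le_rfl n
    have e : (k + 1 - (k + 1)) / 2 = 0 := by omega
    rw [e, pow_zero, mul_one, inv_mul_le_iff₀ (by positivity)] at h1
    exact h1
  have hZ : ∀ t n, (Z (D t) (G ^ t) n : ℝ) ≤
      2 * (t + 1) * G * (Real.log ((G : ℝ) ^ t) + t + 1) := by
    intro t n
    have := T.hZ t n
    rw [M_const] at this
    push_cast at this
    exact this
  have hDlt : ∀ t, ∀ x ∈ D t, x < G ^ t := by
    intro t x hx
    have := T.D_lt t x hx
    rwa [M_const] at this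
  -- the hash
  set m : ℕ := G ^ (k + 1) with hm
  have hm0 : 0 < m := by positivity
  set P : Finset ℕ := PP (m * Q) J (D (k + 1)) with hP
  obtain ⟨hsep, hCP1, hCP2⟩ := hCP m Q J (D (k + 1)) B hm0 hQ0 (hDlt (k + 1))
  rw [← hP] at hsep hCP1 hCP2
  set θ : ℝ := u * Real.log 2 / 5 with hθ
  have hl2 : 0 < Real.log 2 := Real.log_pos one_lt_two
  have huR : (0 : ℝ) < u := by exact_mod_cast (by omega : 0 < u)
  have hθ0 : 0 < θ := by positivity
  have hexp : Real.exp (5 * θ) = (G : ℝ) := by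
    rw [hθ, hGR]
    have : 5 * ((u : ℝ) * Real.log 2 / 5) = Real.log 2 * u := by ring
    rw [this, Real.exp_mul, Real.exp_log (by norm_num), Real.rpow_natCast]
  obtain ⟨h, hh, hrp⟩ := hHASH m Q (2 ^ (u * (k + 42))) P B θ ((G : ℝ) ^ 23) hm0 hQ0 (by positivity)
    hθ0 hsep (by
      intro n _
      have h1 : (CP m Q P n : ℝ) ≤ 2 * J * Z (D (k + 1)) m n := by exact_mod_cast hCP1 n
      have h2 : (CB m Q P B n : ℝ) ≤ W B (D (k + 1)) m n := by exact_mod_cast hCP2 n
      have h3 := hZ (k + 1) n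
      have h4 := hWk1 n
      have h5 : (J : ℝ) = (G : ℝ) ^ 16 := by rw [hJG]; push_cast; rfl
      have h6 : (2 : ℝ) * J * Z (D (k + 1)) m n ≤ 2 * (G : ℝ) ^ 16 *
          (2 * (((k + 1 : ℕ) : ℝ) + 1) * G * (Real.log ((G : ℝ) ^ (k + 1)) +
            ((k + 1 : ℕ) : ℝ) + 1)) := by
        rw [h5]
        exact mul_le_mul_of_nonneg_left h3 (by positivity)
      linarith) (by
      rw [hexp, hQG]
      push_cast
      apply le_of_eq
      ring)
  -- the sets
  set L : Finset ℕ := LS (G ^ k) (G * Q) (3 * (G * Q)) (D k) with hL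
  set H : Finset ℕ := HS m P h with hH
  obtain ⟨hs1, hs2⟩ := hSIZE G k Q J D v h T hQ0 hh
  rw [← hm] at hs1 hs2
  rw [← hP, ← hH] at hs2
  rw [← hL] at hs1
  have hmQ : m * Q = 2 ^ (u * (k + 25)) := by
    rw [hm, hG, hQ, ← pow_mul, ← pow_add]; congr 1; ring
  rw [hmQ] at hs1 hs2
  have hJmQ : J * 2 ^ (u * (k + 25)) = 2 ^ (u * (k + 41)) := by
    rw [hJ, ← pow_add]; congr 1; ring
  have hJ2 : 2 ≤ J := by
    calc 2 = 2 ^ 1 := by norm_num
      _ ≤ 2 ^ (16 * u) := Nat.pow_le_pow_right (by norm_num) (by omega)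
  have hHlt : ∀ a ∈ H, a < 2 ^ (u * (k + 41) + 1) := by
    intro a ha
    refine (hs2 a ha).2.trans_le ?_
    calc (J + 1) * 2 ^ (u * (k + 25)) ≤ (2 * J) * 2 ^ (u * (k + 25)) :=
          Nat.mul_le_mul_right _ (by omega)
      _ = 2 * (J * 2 ^ (u * (k + 25))) := by ring
      _ = 2 ^ (u * (k + 41) + 1) := by rw [hJmQ, pow_succ]; ring
  have hLlt : ∀ a ∈ L, a < 2 ^ (u * (k + 41) + 1) := by
    intro a ha
    refine (hs1 a ha).2.trans_le ?_
    calc 3 * 2 ^ (u * (k + 25)) ≤ (2 * J) * 2 ^ (u * (k + 25)) :=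
          Nat.mul_le_mul_right _ (by omega)
      _ = 2 * (J * 2 ^ (u * (k + 25))) := by ring
      _ = 2 ^ (u * (k + 41) + 1) := by rw [hJmQ, pow_succ]; ring
  have hLlt2 : ∀ a ∈ L, a < 2 ^ (k + 28 + u * (k + 25)) := by
    intro a ha
    refine (hs1 a ha).2.trans_le ?_
    rw [pow_add 2 (k + 28)]
    apply Nat.mul_le_mul_right
    calc 3 ≤ 2 ^ 2 := by norm_num
      _ ≤ 2 ^ (k + 28) := Nat.pow_le_pow_right (by norm_num) (by omega)
  have hBlt : ∀ a ∈ B, a < 2 ^ (u * (k + 41) + 1) := by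
    intro a ha
    refine (hB1 a ha).trans_le ?_
    apply Nat.pow_le_pow_right (by norm_num)
    nlinarith
  refine ⟨L ∪ H, ?_, ?_, ?_, ?_⟩
  · intro a ha
    rw [mem_union] at ha
    rcases ha with ha | ha
    · exact ⟨(hs1 a ha).1, hLlt a ha⟩
    · exact ⟨(hs2 a ha).1, hHlt a ha⟩
  · intro n h1 h2
    obtain ⟨a, ha, b, hb, hab⟩ := hCOV G k Q J D v h T (by
      calc 2 = 2 ^ 1 := by norm_num
        _ ≤ 2 ^ (24 * u) := Nat.pow_le_pow_right (by norm_num) (by omega)) hh n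
      (by rw [← hm, hmQ]; exact h1)
      (by
        rw [← hm, hmQ, Nat.add_mul, hJmQ]
        omega)
    exact ⟨a, mem_union_left _ ha, b, mem_union_right _ hb, hab⟩
  · intro n
    refine (rp_all B L H n).trans ?_
    have hLHn : 2 * rp L H n ≤ 6 := by
      have := hLH G k Q J D v h T hQ0 hh n
      rw [← hm, ← hP, ← hH, ← hL] at this
      omega
    have hHn : rp H H n + 2 * rp B H n ≤ 5 * k + 218 := by
      by_cases hnN : n < 2 ^ (u * (k + 42))
      · have h1 := hrp n hnN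
        have h2 : θ * ((rp H H n : ℝ) + 2 * rp B H n) ≤ θ * (5 * k + 218) := by
          refine h1.trans ?_
          rw [hθ]
          have : (u : ℝ) * Real.log 2 / 5 * (5 * k + 218) =
            ((5 * (k : ℝ) + 218) * (u * Real.log 2)) / 5 := by ring
          rw [this]
          have h3 : Real.log (((2 ^ (u * (k + 42)) : ℕ)) : ℝ) + 1 ≤
              ((5 * (k : ℝ) + 218) * (u * Real.log 2)) / 5 := by linarith
          exact h3
        have h3 := le_of_mul_le_mul_left h2 hθ0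
        exact_mod_cast h3
      · push Not at hnN
        have hbig : 2 ^ (u * (k + 41) + 1) + 2 ^ (u * (k + 41) + 1) ≤ n := by
          refine le_trans ?_ hnN
          calc 2 ^ (u * (k + 41) + 1) + 2 ^ (u * (k + 41) + 1) = 2 ^ (u * (k + 41) + 2) := by
                ring
            _ ≤ 2 ^ (u * (k + 42)) := by
                apply Nat.pow_le_pow_right (by norm_num)
                nlinarith
        rw [rp_zero hHlt hHlt hbig, rp_zero hBlt hHlt hbig]
        omega
    have hBL : 2 * rp B L n + rp L L n ≤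
        if n < 2 ^ (k + 29 + u * (k + 25)) then 2 ^ (27 * u) else 0 := by
      split_ifs with hn
      · obtain ⟨h1, h2⟩ := hLL (G ^ k) (G * Q) (3 * (G * Q)) (D k) B (by positivity) (hDlt k) n
        rw [← hL] at h1 h2
        have e : 3 * (G * Q) - G * Q = 2 * (G * Q) := by omega
        rw [e] at h1
        have h3 : (rp L L n : ℝ) ≤ 2 * (G * Q) * Z (D k) (G ^ k) n := by exact_mod_cast h1
        have h4 : (rp B L n : ℝ) ≤ W B (D k) (G ^ k) n := by exact_mod_cast h2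
        have h5 := hZ k n
        have h6 := hWk n
        have hQR : (Q : ℝ) = (G : ℝ) ^ 24 := by rw [hQG]; push_cast; rfl
        have h7 : 2 * ((G : ℝ) * Q) * Z (D k) (G ^ k) n ≤ 2 * ((G : ℝ) * (G : ℝ) ^ 24) *
            (2 * ((k : ℝ) + 1) * G * (Real.log ((G : ℝ) ^ k) + (k : ℝ) + 1)) := by
          rw [hQR]
          exact mul_le_mul_of_nonneg_left h5 (by positivity)
        have h8 : (2 * (rp B L n : ℝ) + rp L L n) ≤ (G : ℝ) ^ 27 := by linarith
        have h9 : ((2 ^ (27 * u) : ℕ) : ℝ) = (G : ℝ) ^ 27 := by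
          rw [hGR]
          push_cast
          rw [← pow_mul]
          congr 1
          ring
        rw [← h9] at h8
        exact_mod_cast h8
      · push Not at hn
        have hbig : 2 ^ (k + 28 + u * (k + 25)) + 2 ^ (k + 28 + u * (k + 25)) ≤ n := by
          refine le_trans (le_of_eq ?_) hn
          ring
        rw [rp_zero hB1 hLlt2 hbig, rp_zero hLlt2 hLlt2 hbig]
    omega
  · intro e c
    exact hCLS u k D v h T hh e c

end Pool.Agent.H53.BS.STAGE3
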