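import Pool.Agent.H53.BS.Stm

/-!
# BS-TW: the towers with a bound for the sums with a given set
-/

set_option autoImplicit false

open Finset Pool.Agent.H53.ET

namespace Pool.Agent.H53.BS.TW

theorem M_eq (G t : ℕ) : M (fun _ => G) t = G ^ t := by
  induction t with
  | zero => rfl
  | succ t ih =>
    show M (fun _ => G) t * G = _
    rw [ih, pow_succ]

theorem adm {G : ℕ} (hG : 8 ≤ G) : Adm (fun _ => G) := ⟨fun _ => hG, fun _ => le_rfl⟩

/-- the weights -/
noncomputable def kap (G L : ℕ) (κ : ℝ) (t : ℕ) : ℝ := κ * (2 / (G : ℝ)) ^ ((L - t) / 2)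

theorem kap_step {G L : ℕ} {κ : ℝ} {t : ℕ} (h : t + 2 ≤ L) :
    kap G L κ t = kap G L κ (t + 2) * (2 / (G : ℝ)) := by
  unfold kap
  have : (L - t) / 2 = (L - (t + 2)) / 2 + 1 := by omega
  rw [this, pow_succ]
  ring

/-- first potential -/
noncomputable def pA (G t : ℕ) (P : Finset ℕ) : ℝ :=
  ∑ n ∈ range (G ^ t), Real.exp (lam (fun _ => G) t * Z P (G ^ t) n)

/-- second potential -/
noncomputable def pB (B : Finset ℕ) (k : ℝ) (G t : ℕ) (P : Finset ℕ) : ℝ :=
  ∑ n ∈ range (G ^ t), Real.exp (k * W B P (G ^ t) n)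

theorem exp_le_two {z : ℝ} (h0 : 0 ≤ z) (h1 : z ≤ 1) : Real.exp z ≤ 1 + 2 * z := by
  have := exp_le_quad h0 h1
  nlinarith

/-- copied from `hash` -/
theorem Z_ext (M g q : ℕ) (hM : 0 < M) (P : Finset ℕ) (hP : ∀ x ∈ P, x < M) (v : ℕ → ℕ)
    (hv : ∀ p, v p < q) (n : ℕ) : (Z (ext M g P v) (M * (g * q)) n : ℝ)
      ≤ 2 * pairSum P (fun x y => (rho M g q n x y (v x) (v y) : ℝ)) + 2 * g := by
  have h2 : (Z (ext M g P v) (M * (g * q)) n : ℝ)
      ≤ ∑ x ∈ P, ∑ y ∈ P, (rho M g q n x y (v x) (v y) : ℝ) := by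
    exact_mod_cast Z_ext_le M g q n P v
  rw [sum_sum_eq P (fun x y => (rho M g q n x y (v x) (v y) : ℝ))
    (fun x y => by rw [rho_symm])] at h2
  have h3 : ∑ x ∈ P, (rho M g q n x x (v x) (v x) : ℝ) ≤ 2 * g := by
    calc ∑ x ∈ P, (rho M g q n x x (v x) (v x) : ℝ)
        ≤ ∑ x ∈ P, (if (x + x) % M = n % M then (g : ℝ) else 0) := by
          apply sum_le_sum
          intro x _
          split_ifs with h
          · exact_mod_cast rho_le M g q n x x (v x) (v x) hM (hv x)
          · rw [rho_eq_zero h]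
            simp
      _ = (P.filter (fun x => (x + x) % M = n % M)).card * (g : ℝ) := by
          rw [← sum_filter, sum_const, nsmul_eq_mul]
      _ ≤ 2 * g := by
          apply mul_le_mul_of_nonneg_right _ (by positivity)
          exact_mod_cast diag_le P M n hM hP
  linarith

theorem step (hCH : S_CH) (hWE : S_WEXT) {G : ℕ} (hG : 8 ≤ G) (B : Finset ℕ) {k : ℝ}
    (hk : 0 < k) (t : ℕ) (hcls : ∀ c, k * G * cls B (G ^ (t + 2)) c ≤ 1) (P : Finset ℕ)
    (hP : ∀ x ∈ P, x < G ^ t) :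
    ∃ v : ℕ → ℕ, (∀ p, v p < G) ∧
      pA G (t + 2) (ext (G ^ t) G P v) / (Real.exp ((t : ℝ) + 3) * (G : ℝ) ^ (t + 2)) +
        pB B k G (t + 2) (ext (G ^ t) G P v) / (8 * (G : ℝ) ^ (t + 2)) ≤
      pA G t P / (Real.exp ((t : ℝ) + 1) * (G : ℝ) ^ t) +
        pB B (k * (2 / (G : ℝ))) G t P / (8 * (G : ℝ) ^ t) := by
  have hG0 : 0 < G := by omega
  have hGr : (0 : ℝ) < G := by exact_mod_cast hG0
  have hM : 0 < G ^ t := pow_pos hG0 t
  have hpow : G ^ (t + 2) = G ^ t * (G * G) := by ring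
  have hpowr : (G : ℝ) ^ (t + 2) = (G : ℝ) ^ t * (G * G) := by ring
  have ht0 : (0 : ℝ) ≤ t := Nat.cast_nonneg t
  set l : ℝ := lam (fun _ => G) (t + 2) with hl
  have hlp : 0 < l := (adm hG).lam_pos _
  have hl1 : 2 * l * G ≤ 1 / ((t : ℝ) + 3) := (adm hG).lam_step t
  have hl2 : 2 * l * G ≤ 1 := by
    refine hl1.trans ?_
    rw [div_le_one (by positivity)]
    linarith
  have hl3 : l * (1 + 2 * l * G) ≤ lam (fun _ => G) t := (adm hG).lam_rec t
  have hl4 : 0 ≤ l * (1 + 2 * l * G) := by positivity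
  set M0 : ℕ := G ^ t with hM0
  obtain ⟨we1, we2, we3, we4⟩ := hWE B P M0 G G (fun _ => 0) hM hG0 hG0
  -- the hypothesis of CH
  have hf : ∀ n p, ∑ b ∈ range G, Real.exp (k * (fw B M0 G G n p b : ℝ)) ≤
      G * Real.exp (k * (2 / (G : ℝ)) *
        ((B.filter (fun β => (β + p) % M0 = n % M0)).card : ℝ)) := by
    intro n p
    have hle : ∀ b, k * (fw B M0 G G n p b : ℝ) ≤ 1 := by
      intro b
      set K : ℕ := ⌊1 / (k * G)⌋₊ with hK
      have h1 : ∀ c, cls B (M0 * (G * G)) c ≤ K := by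
        intro c
        apply Nat.le_floor
        rw [le_div_iff₀ (by positivity)]
        have := hcls c
        rw [hpow] at this
        linarith
      have h2 := we4 n p b K h1
      have h3 : (fw B M0 G G n p b : ℝ) ≤ G * K := by exact_mod_cast h2
      have h4 : (K : ℝ) ≤ 1 / (k * G) := Nat.floor_le (by positivity)
      calc k * (fw B M0 G G n p b : ℝ) ≤ k * (G * (1 / (k * G))) := by gcongr; exact h3.trans (by gcongr)
        _ = 1 := by field_simp
    have h5 : ∀ b ∈ range G, Real.exp (k * (fw B M0 G G n p b : ℝ)) ≤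
        1 + 2 * k * (fw B M0 G G n p b : ℝ) := by
      intro b _
      refine (exp_le_two (by positivity) (hle b)).trans (le_of_eq (by ring))
    refine (sum_le_sum h5).trans ?_
    rw [sum_add_distrib, ← mul_sum]
    have h6 : ∑ b ∈ range G, (fw B M0 G G n p b : ℝ) =
        ((B.filter (fun β => (β + p) % M0 = n % M0)).card : ℝ) := by
      exact_mod_cast we2 n p
    rw [h6]
    simp only [sum_const, card_range, nsmul_eq_mul, mul_one]
    set c : ℝ := ((B.filter (fun β => (β + p) % M0 = n % M0)).card : ℝ)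
    have h7 := Real.add_one_le_exp (k * (2 / (G : ℝ)) * c)
    have h8 := mul_le_mul_of_nonneg_left h7 hGr.le
    refine le_trans (le_of_eq ?_) h8
    field_simp
    ring
  obtain ⟨v, hv, hsum⟩ := hCH M0 G G hM hG0 le_rfl l hlp.le hl2 (range (M0 * (G * G)))
    (fun n p b => k * (fw B M0 G G n p b : ℝ))
    (fun n p => k * (2 / (G : ℝ)) * ((B.filter (fun β => (β + p) % M0 = n % M0)).card : ℝ))
    hf P hP
    (fun _ => Real.exp (2 * l * G) / (Real.exp ((t : ℝ) + 3) * ((G : ℝ) ^ t * (G * G))))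
    (fun _ => 1 / (8 * ((G : ℝ) ^ t * (G * G))))
    (fun _ => by positivity) (fun _ => by positivity)
  refine ⟨v, hv, ?_⟩
  obtain ⟨ve1, _, _, _⟩ := hWE B P M0 G G v hM hG0 hG0
  have hA : pA G (t + 2) (ext M0 G P v) / (Real.exp ((t : ℝ) + 3) * (G : ℝ) ^ (t + 2)) ≤
      ∑ n ∈ range (M0 * (G * G)), Real.exp (2 * l * G) /
        (Real.exp ((t : ℝ) + 3) * ((G : ℝ) ^ t * (G * G))) *
        Real.exp (2 * l * pairSum P (fun x y => (rho M0 G G n x y (v x) (v y) : ℝ))) := by
    unfold pA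
    rw [hpow, hpowr, sum_div]
    apply sum_le_sum
    intro n _
    rw [div_mul_eq_mul_div]
    apply div_le_div_of_nonneg_right _ (by positivity)
    rw [← Real.exp_add]
    apply Real.exp_le_exp.2
    have := mul_le_mul_of_nonneg_left (Z_ext M0 G G hM P hP v hv n) hlp.le
    rw [← hM0] at *
    nlinarith
  have hB : pB B k G (t + 2) (ext M0 G P v) / (8 * (G : ℝ) ^ (t + 2)) ≤
      ∑ n ∈ range (M0 * (G * G)), 1 / (8 * ((G : ℝ) ^ t * (G * G))) *
        Real.exp (∑ p ∈ P, k * (fw B M0 G G n p (v p) : ℝ)) := by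
    unfold pB
    rw [hpow, hpowr, sum_div]
    apply sum_le_sum
    intro n _
    rw [div_mul_eq_mul_div, one_mul]
    apply div_le_div_of_nonneg_right _ (by positivity)
    apply Real.exp_le_exp.2
    rw [← mul_sum]
    apply mul_le_mul_of_nonneg_left _ hk.le
    exact_mod_cast ve1 n
  have hC : ∑ n ∈ range (M0 * (G * G)), Real.exp (2 * l * G) /
        (Real.exp ((t : ℝ) + 3) * ((G : ℝ) ^ t * (G * G))) *
        Real.exp (2 * (l * (1 + 2 * l * G)) *
        pairSum P (fun x y => if (x + y) % M0 = n % M0 then (1 : ℝ) else 0)) ≤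
      pA G t P / (Real.exp ((t : ℝ) + 1) * (G : ℝ) ^ t) := by
    have h1 : ∀ n ∈ range (M0 * (G * G)), Real.exp (2 * l * G) /
        (Real.exp ((t : ℝ) + 3) * ((G : ℝ) ^ t * (G * G))) *
        Real.exp (2 * (l * (1 + 2 * l * G)) *
        pairSum P (fun x y => if (x + y) % M0 = n % M0 then (1 : ℝ) else 0)) ≤
        1 / (Real.exp ((t : ℝ) + 1) * ((G : ℝ) ^ t * (G * G))) *
          Real.exp (lam (fun _ => G) t * Z P M0 (n % M0)) := by
      intro n _
      have hmod : Z P M0 (n % M0) = Z P M0 n := by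
        unfold Z
        rw [Nat.mod_mod]
      rw [hmod]
      apply mul_le_mul
      · have e1 : Real.exp ((t : ℝ) + 3) = Real.exp ((t : ℝ) + 1) * Real.exp 2 := by
          rw [← Real.exp_add]
          ring_nf
        rw [e1]
        have e2 : Real.exp (2 * l * G) ≤ Real.exp 2 := Real.exp_le_exp.2 (by linarith)
        rw [div_le_div_iff₀ (by positivity) (by positivity)]
        have e3 := mul_le_mul_of_nonneg_right e2
          (show 0 ≤ Real.exp ((t : ℝ) + 1) * ((G : ℝ) ^ t * (G * G)) by positivity)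
        calc _ ≤ _ := e3
          _ = _ := by ring
      · apply Real.exp_le_exp.2
        have h2 := mul_le_mul_of_nonneg_left (two_pairSum_le_Z P M0 n) hl4
        have h3 := mul_le_mul_of_nonneg_right hl3 (Nat.cast_nonneg (α := ℝ) (Z P M0 n))
        linarith
      · positivity
      · positivity
    refine (sum_le_sum h1).trans ?_
    rw [← mul_sum, sum_range_mod (fun n => Real.exp (lam (fun _ => G) t * Z P M0 n)) M0 (G * G)]
    unfold pA
    push_cast
    rw [← hM0]
    apply le_of_eq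
    field_simp
  have hD : ∑ n ∈ range (M0 * (G * G)), 1 / (8 * ((G : ℝ) ^ t * (G * G))) *
        Real.exp (∑ p ∈ P, k * (2 / (G : ℝ)) *
          ((B.filter (fun β => (β + p) % M0 = n % M0)).card : ℝ)) ≤
      pB B (k * (2 / (G : ℝ))) G t P / (8 * (G : ℝ) ^ t) := by
    have h1 : ∀ n ∈ range (M0 * (G * G)), 1 / (8 * ((G : ℝ) ^ t * (G * G))) *
        Real.exp (∑ p ∈ P, k * (2 / (G : ℝ)) *
          ((B.filter (fun β => (β + p) % M0 = n % M0)).card : ℝ)) =
        1 / (8 * ((G : ℝ) ^ t * (G * G))) *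
          Real.exp (k * (2 / (G : ℝ)) * W B P M0 (n % M0)) := by
      intro n _
      have hmod : W B P M0 (n % M0) = W B P M0 n := by
        unfold W
        rw [Nat.mod_mod]
      rw [hmod, ← mul_sum]
      have h2 : ∑ p ∈ P, ((B.filter (fun β => (β + p) % M0 = n % M0)).card : ℝ) =
          (W B P M0 n : ℝ) := by
        exact_mod_cast we3 n
      rw [h2]
    rw [sum_congr rfl h1, ← mul_sum,
      sum_range_mod (fun n => Real.exp (k * (2 / (G : ℝ)) * W B P M0 n)) M0 (G * G)]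
    unfold pB
    push_cast
    rw [← hM0]
    apply le_of_eq
    field_simp
  calc _ ≤ _ := add_le_add hA hB
    _ ≤ _ := hsum
    _ ≤ _ := add_le_add hC hD

/-- the invariant -/
def Iv (B : Finset ℕ) (κ : ℝ) (G L t : ℕ) (P : Finset ℕ) : Prop :=
  Good (fun _ => G) t P ∧ (t ≤ L → pA G t P / (Real.exp ((t : ℝ) + 1) * (G : ℝ) ^ t) +
    pB B (kap G L κ t) G t P / (8 * (G : ℝ) ^ t) ≤ 1)

theorem iv_base {G L : ℕ} (hG : 8 ≤ G) (B : Finset ℕ) {κ : ℝ} (hκ : 0 < κ)
    (hcls : ∀ t ≤ L, ∀ c, κ * (2 / (G : ℝ)) ^ ((L - t) / 2) * G * cls B (G ^ t) c ≤ 1) (t : ℕ) :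
    Iv B κ G L t {0} := by
  refine ⟨(adm hG).good_base t, ?_⟩
  intro htL
  have hG0 : 0 < G := by omega
  have hGr : (0 : ℝ) < G := by exact_mod_cast hG0
  have hG8 : (8 : ℝ) ≤ G := by exact_mod_cast hG
  have ht0 : (0 : ℝ) ≤ t := Nat.cast_nonneg t
  have h1 : pA G t {0} / (Real.exp ((t : ℝ) + 1) * (G : ℝ) ^ t) ≤ Real.exp (-(15 / 16)) := by
    rw [div_le_iff₀ (by positivity)]
    have h2 : ∀ n ∈ range (G ^ t), Real.exp (lam (fun _ => G) t * Z {0} (G ^ t) n) ≤
        Real.exp (1 / 16) := by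
      intro n _
      apply Real.exp_le_exp.2
      have h1 : Z {0} (G ^ t) n ≤ 1 := by
        unfold Z
        refine (card_filter_le _ _).trans (by simp)
      have h2 : lam (fun _ => G) t ≤ 1 / 16 := by
        unfold lam
        apply one_div_le_one_div_of_le (by norm_num)
        have : (1 : ℝ) * 8 ≤ ((t : ℝ) + 1) * G := mul_le_mul (by linarith) hG8 (by norm_num)
          (by linarith)
        linarith
      have h3 := (adm hG).lam_pos t
      have h4 : (Z {0} (G ^ t) n : ℝ) ≤ 1 := by exact_mod_cast h1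
      have h5 : (0 : ℝ) ≤ (Z {0} (G ^ t) n : ℝ) := Nat.cast_nonneg _
      nlinarith
    have h3 : pA G t {0} ≤ (G : ℝ) ^ t * Real.exp (1 / 16) := by
      unfold pA
      refine (sum_le_sum h2).trans (le_of_eq ?_)
      rw [sum_const, card_range, nsmul_eq_mul]
      push_cast
      ring
    refine h3.trans ?_
    have h4 : Real.exp (1 / 16) ≤ Real.exp (-(15 / 16)) * Real.exp ((t : ℝ) + 1) := by
      rw [← Real.exp_add]
      apply Real.exp_le_exp.2
      linarith
    have h5 : (0 : ℝ) ≤ (G : ℝ) ^ t := by positivity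
    nlinarith [mul_le_mul_of_nonneg_left h4 h5]
  have h2 : pB B (kap G L κ t) G t {0} / (8 * (G : ℝ) ^ t) ≤ Real.exp 1 / 8 := by
    rw [div_le_div_iff₀ (by positivity) (by norm_num)]
    have h3 : ∀ n ∈ range (G ^ t), Real.exp (kap G L κ t * W B {0} (G ^ t) n) ≤
        Real.exp 1 := by
      intro n _
      apply Real.exp_le_exp.2
      have h4 := hcls t htL n
      have h5 : W B {0} (G ^ t) n = cls B (G ^ t) n := by
        unfold W cls
        rw [product_singleton, filter_map, card_map]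
        rfl
      rw [h5]
      have h6 : 0 ≤ kap G L κ t * cls B (G ^ t) n := by
        unfold kap
        positivity
      have h7 : kap G L κ t * cls B (G ^ t) n * 1 ≤ kap G L κ t * cls B (G ^ t) n * G :=
        mul_le_mul_of_nonneg_left (by linarith) h6
      have h8 : kap G L κ t * cls B (G ^ t) n * G =
          κ * (2 / (G : ℝ)) ^ ((L - t) / 2) * G * cls B (G ^ t) n := by
        unfold kap
        ring
      linarith
    have h4 : pB B (kap G L κ t) G t {0} ≤ (G : ℝ) ^ t * Real.exp 1 := by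
      unfold pB
      refine (sum_le_sum h3).trans (le_of_eq ?_)
      rw [sum_const, card_range, nsmul_eq_mul]
      push_cast
      ring
    nlinarith
  have h3 : Real.exp (-(15 / 16)) ≤ 1 / 2 := by
    rw [Real.exp_neg]
    have h4 := Real.quadratic_le_exp_of_nonneg (x := 15 / 16) (by norm_num)
    rw [inv_le_comm₀ (Real.exp_pos _) (by norm_num)]
    refine le_trans ?_ h4
    norm_num
  have h4 := Real.exp_one_lt_d9
  linarith

theorem iv_succ (hCH : S_CH) (hWE : S_WEXT) {G L : ℕ} (hG : 8 ≤ G) (B : Finset ℕ) {κ : ℝ}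
    (hκ : 0 < κ)
    (hcls : ∀ t ≤ L, ∀ c, κ * (2 / (G : ℝ)) ^ ((L - t) / 2) * G * cls B (G ^ t) c ≤ 1) (t : ℕ)
    (P : Finset ℕ) (hP : Iv B κ G L t P) :
    ∃ v : ℕ → ℕ, (∀ p, v p < G) ∧ Iv B κ G L (t + 2) (ext (M (fun _ => G) t) G P v) := by
  have hG0 : 0 < G := by omega
  have hGr : (0 : ℝ) < G := by exact_mod_cast hG0
  by_cases h : t + 2 ≤ L
  · have hP1 : ∀ x ∈ P, x < G ^ t := by
      intro x hx
      have := hP.1.1 x hx
      rwa [M_eq] at this
    have hk : 0 < kap G L κ (t + 2) := by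
      unfold kap
      positivity
    obtain ⟨v, hv, h1⟩ := step hCH hWE hG B hk t (fun c => hcls (t + 2) h c) P hP1
    rw [← kap_step h] at h1
    have h2 := h1.trans (hP.2 (by omega))
    rw [M_eq]
    refine ⟨v, hv, ⟨?_, ?_⟩, ?_⟩
    · intro x hx
      have := ext_lt hP1 hv x hx
      rw [M_eq]
      calc x < _ := this
        _ = _ := by ring
    · have h3 : 0 ≤ pB B (kap G L κ (t + 2)) G (t + 2) (ext (G ^ t) G P v) /
          (8 * (G : ℝ) ^ (t + 2)) := by
        unfold pB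
        positivity
      have h4 : pA G (t + 2) (ext (G ^ t) G P v) / (Real.exp ((t : ℝ) + 3) * (G : ℝ) ^ (t + 2))
          ≤ 1 := by linarith
      rw [div_le_one (by positivity)] at h4
      rw [M_eq]
      unfold pA at h4
      refine h4.trans (le_of_eq ?_)
      push_cast
      ring_nf
    · intro _
      have e : ((t + 2 : ℕ) : ℝ) + 1 = (t : ℝ) + 3 := by push_cast; ring
      rw [e]
      exact h2
  · obtain ⟨v, hv, h1⟩ := (adm hG).good_succ t P hP.1
    exact ⟨v, hv, h1, fun h2 => absurd h2 h⟩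

theorem main (hCH : S_CH) (hWE : S_WEXT) : S_TW := by
  intro G L B κ hG hκ hcls
  have hG0 : 0 < G := by omega
  have hGr : (0 : ℝ) < G := by exact_mod_cast hG0
  have stp : ∀ (t : ℕ) (P : {P : Finset ℕ // Iv B κ G L t P}), ∃ v : ℕ → ℕ,
      (∀ p, v p < G) ∧ Iv B κ G L (t + 2) (ext (M (fun _ => G) t) G P.1 v) :=
    fun t P => iv_succ hCH hWE hG B hκ hcls t P.1 P.2
  choose v hv hgood using stp
  let Q : ∀ t : ℕ, {P : Finset ℕ // Iv B κ G L t P} × {P : Finset ℕ // Iv B κ G L (t + 1) P} :=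
    fun t => Nat.rec (⟨{0}, iv_base hG B hκ hcls 0⟩, ⟨{0}, iv_base hG B hκ hcls 1⟩)
      (fun t P => (P.2, ⟨ext (M (fun _ => G) t) G P.1.1 (v t P.1), hgood t P.1⟩)) t
  refine ⟨fun t => (Q t).1.1, fun t => v t (Q t).1, ⟨adm hG, rfl, rfl, fun t p => hv t (Q t).1 p,
    fun t => rfl, ?_⟩, ?_⟩
  · intro t n
    exact (adm hG).good_bound (Q t).1.2.1 n
  · intro t ht n
    show κ * (2 / (G : ℝ)) ^ ((L - t) / 2) * W B (Q t).1.1 (G ^ t) n ≤ _
    have h1 := (Q t).1.2.2 ht
    set P := (Q t).1.1 with hP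
    have hmod : W B P (G ^ t) n = W B P (G ^ t) (n % G ^ t) := by
      unfold W
      rw [Nat.mod_mod]
    rw [hmod]
    have h2 : 0 ≤ pA G t P / (Real.exp ((t : ℝ) + 1) * (G : ℝ) ^ t) := by
      unfold pA
      positivity
    have h3 : pB B (kap G L κ t) G t P / (8 * (G : ℝ) ^ t) ≤ 1 := by linarith
    rw [div_le_one (by positivity)] at h3
    have h4 : Real.exp (kap G L κ t * W B P (G ^ t) (n % G ^ t)) ≤ pB B (kap G L κ t) G t P :=
      single_le_sum (f := fun n => Real.exp (kap G L κ t * W B P (G ^ t) n))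
        (fun _ _ => (Real.exp_pos _).le)
        (mem_range.2 (Nat.mod_lt n (pow_pos hG0 t)))
    have h5 := Real.log_le_log (Real.exp_pos _) (h4.trans h3)
    rw [Real.log_exp] at h5
    exact h5

end Pool.Agent.H53.BS.TW
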