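import Pool.Agent.H53.BS.Stm

/-! # BS-WEXT (helper21) -/

set_option autoImplicit false

open Finset Pool.Agent.H53.ET

namespace Pool.Agent.H53.BS.WEXT

theorem part1 (B P : Finset ℕ) (M g q : ℕ) (v : ℕ → ℕ) (n : ℕ) :
    W B (ext M g P v) (M * (g * q)) n ≤ ∑ p ∈ P, fw B M g q n p (v p) := by
  have h1 : ∑ p ∈ P, fw B M g q n p (v p) =
      ((P ×ˢ (B ×ˢ range g)).filter (fun r =>
        (r.2.1 + (r.1 + M * (r.2.2 + g * v r.1))) % (M * (g * q)) = n % (M * (g * q)))).card := by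
    rw [card_filter, sum_product]
    refine sum_congr rfl fun p _ => ?_
    rw [fw, card_filter]
  rw [h1, W]
  refine (card_le_card ?_).trans (card_image_le (f := fun r : ℕ × (ℕ × ℕ) =>
    (r.2.1, r.1 + M * (r.2.2 + g * v r.1))))
  rintro ⟨β, y⟩ h
  simp only [mem_filter, mem_product] at h
  obtain ⟨⟨hβ, hy⟩, h2⟩ := h
  obtain ⟨p, hp, t, ht, rfl⟩ := mem_ext.1 hy
  rw [mem_image]
  refine ⟨(p, (β, t)), ?_, rfl⟩
  simp only [mem_filter, mem_product, mem_range]
  exact ⟨⟨hp, hβ, ht⟩, h2⟩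

theorem exists_w {M N x n : ℕ} (hM : 0 < M) (hN : 0 < N) (h : x % M = n % M) :
    ∃ w < N, (x + M * w) % (M * N) = n % (M * N) := by
  have hMN : 0 < M * N := Nat.mul_pos hM hN
  have h1 : x ≤ n + x * (M * N) := by
    have : x * 1 ≤ x * (M * N) := Nat.mul_le_mul_left _ hMN
    omega
  have h2 : M ∣ n + x * (M * N) - x := by
    have h3 : x ≡ n + x * (M * N) [MOD M] := by
      have h4 : x * (M * N) ≡ 0 [MOD M] := by
        rw [Nat.modEq_zero_iff_dvd]
        exact Dvd.dvd.mul_left (Dvd.intro _ rfl) _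
      have h5 : x ≡ n [MOD M] := h
      simpa using h5.trans (Nat.ModEq.add_left n h4.symm)
    exact (Nat.modEq_iff_dvd' h1).1 h3
  obtain ⟨e, he⟩ := h2
  refine ⟨e % N, Nat.mod_lt _ hN, ?_⟩
  have h6 : x + M * (e % N) ≡ x + M * e [MOD M * N] := by
    refine Nat.ModEq.add_left x ?_
    exact Nat.ModEq.mul_left' M (Nat.mod_modEq e N)
  have h7 : x + M * e = n + x * (M * N) := by omega
  rw [h7] at h6
  have h8 : n + x * (M * N) ≡ n [MOD M * N] := by
    have h4 : x * (M * N) ≡ 0 [MOD M * N] := by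
      rw [Nat.modEq_zero_iff_dvd]
      exact Dvd.intro_left _ rfl
    simpa using Nat.ModEq.add_left n h4
  exact h6.trans h8

theorem part2 (B : Finset ℕ) (M g q n p : ℕ) (hM : 0 < M) (hg : 0 < g) (hq : 0 < q) :
    ∑ b ∈ range q, fw B M g q n p b = (B.filter (fun β => (β + p) % M = n % M)).card := by
  have h1 : ∑ b ∈ range q, fw B M g q n p b =
      ((range q ×ˢ (B ×ˢ range g)).filter (fun r =>
        (r.2.1 + (p + M * (r.2.2 + g * r.1))) % (M * (g * q)) = n % (M * (g * q)))).card := by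
    rw [card_filter, sum_product]
    refine sum_congr rfl fun b _ => ?_
    rw [fw, card_filter]
  rw [h1]
  refine card_nbij (fun r => r.2.1) ?_ ?_ ?_
  · rintro ⟨b, β, t⟩ h
    simp only [coe_filter, mem_product, mem_range, Set.mem_ofPred_eq] at h ⊢
    obtain ⟨⟨_, hβ, _⟩, h2⟩ := h
    refine ⟨hβ, ?_⟩
    have h3 : (β + (p + M * (t + g * b))) % M = n % M := Nat.ModEq.of_mul_right _ h2
    rw [← h3, ← add_assoc, Nat.add_mul_mod_self_left]
  · rintro ⟨b, β, t⟩ h ⟨b', β', t'⟩ h' heq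
    simp only [coe_filter, mem_product, mem_range, Set.mem_ofPred_eq] at h h'
    simp only at heq
    subst heq
    have h3 : β + (p + M * (t + g * b)) ≡ β + (p + M * (t' + g * b')) [MOD M * (g * q)] :=
      h.2.trans h'.2.symm
    have h4 := Nat.ModEq.add_left_cancel' _ (Nat.ModEq.add_left_cancel' _ h3)
    have h5 := Nat.ModEq.mul_left_cancel' hM.ne' h4
    have h6 : t + g * b = t' + g * b' :=
      Nat.ModEq.eq_of_lt_of_lt h5 (digit_lt h.1.2.2 h.1.1) (digit_lt h'.1.2.2 h'.1.1)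
    have h7 := digit_unique h.1.2.2 h'.1.2.2 h6
    simp [h7.1, h7.2]
  · intro β hβ
    simp only [coe_filter, Set.mem_ofPred_eq] at hβ
    obtain ⟨w, hw, hw2⟩ := exists_w (N := g * q) hM (Nat.mul_pos hg hq) hβ.2
    rw [Set.mem_image]
    refine ⟨(w / g, β, w % g), ?_, rfl⟩
    simp only [coe_filter, mem_product, mem_range, Set.mem_ofPred_eq]
    refine ⟨⟨?_, hβ.1, Nat.mod_lt _ hg⟩, ?_⟩
    · exact Nat.div_lt_of_lt_mul hw
    · rw [Nat.mod_add_div, ← add_assoc]
      exact hw2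

theorem part3 (B P : Finset ℕ) (M n : ℕ) :
    ∑ p ∈ P, (B.filter (fun β => (β + p) % M = n % M)).card = W B P M n := by
  rw [W, card_filter, sum_product, sum_comm]
  refine sum_congr rfl fun p _ => ?_
  rw [card_filter]

theorem part4 (B : Finset ℕ) (M g q n p b K : ℕ) (hK : ∀ c, cls B (M * (g * q)) c ≤ K) :
    fw B M g q n p b ≤ g * K := by
  have h1 : fw B M g q n p b = ∑ t ∈ range g, (B.filter (fun β =>
      (β + (p + M * (t + g * b))) % (M * (g * q)) = n % (M * (g * q)))).card := by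
    rw [fw, card_filter, sum_product, sum_comm]
    refine sum_congr rfl fun t _ => ?_
    rw [card_filter]
  rw [h1]
  have h2 : ∀ t ∈ range g, (B.filter (fun β =>
      (β + (p + M * (t + g * b))) % (M * (g * q)) = n % (M * (g * q)))).card ≤ K := by
    intro t _
    rcases (B.filter (fun β =>
      (β + (p + M * (t + g * b))) % (M * (g * q)) = n % (M * (g * q)))).eq_empty_or_nonempty
      with h | ⟨β0, h0⟩
    · rw [h]; simp
    · refine le_trans (card_le_card ?_) (hK β0)
      intro β hβ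
      rw [mem_filter] at hβ h0 ⊢
      refine ⟨hβ.1, ?_⟩
      have h3 : β + (p + M * (t + g * b)) ≡ β0 + (p + M * (t + g * b)) [MOD M * (g * q)] :=
        hβ.2.trans h0.2.symm
      exact Nat.ModEq.add_right_cancel' _ h3
  refine (sum_le_sum h2).trans (le_of_eq ?_)
  rw [sum_const, card_range, smul_eq_mul]

theorem main : S_WEXT := by
  intro B P M g q v hM hg hq
  exact ⟨fun n => part1 B P M g q v n, fun n p => part2 B M g q n p hM hg hq,
    fun n => part3 B P M n, fun n p b K hK => part4 B M g q n p b K hK⟩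

end Pool.Agent.H53.BS.WEXT
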