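import Pool.Agent.H53.BS.CH
import Pool.Agent.H53.BS.WEXT
import Pool.Agent.H53.BS.TW
import Pool.Agent.H53.BS.HASH
import Pool.Agent.H53.BS.CP
import Pool.Agent.H53.BS.COV
import Pool.Agent.H53.BS.LH
import Pool.Agent.H53.BS.SIZE
import Pool.Agent.H53.BS.LL
import Pool.Agent.H53.BS.FIB
import Pool.Agent.H53.BS.CLS
import Pool.Agent.H53.BS.NUM
import Pool.Agent.H53.BS.STAGE
import Pool.Agent.H53.BS.SEQ
import Pool.Agent.H53.BS.INV
import Pool.Agent.H53.BS.ASM
import Pool.Agent.H53.BS.FIN
import Pool.Agent.H53.BS.SEQ2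
import Pool.Agent.H53.BS.INV2
import Pool.Agent.H53.BS.ASM2
import Pool.Agent.H53.BS.FIN2
import Pool.Agent.H53.BS.NUM3
import Pool.Agent.H53.BS.STAGE3
import Pool.Agent.H53.BS.SEQ3
import Pool.Agent.H53.BS.INV3
import Pool.Agent.H53.BS.ASM3
import Pool.Agent.H53.BS.FIN3
import Pool.Agent.H53.BS.COR3

/-!
# Project BS: all parts together
-/

set_option autoImplicit false

namespace Pool.Agent.H53.BS.Glue

theorem tw : S_TW := TW.main CH.main WEXT.main

theorem cls : S_CLS := CLS.main FIB.main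

theorem stage : S_STAGE := STAGE.main tw HASH.main CP.main COV.main LH.main SIZE.main LL.main cls
  NUM.main

theorem inv : S_INV := INV.main SEQ.main

theorem asm : S_ASM := ASM.main stage SEQ.main inv

theorem fin : S_FIN := FIN.main asm

theorem inv2 : S_INV2 := INV2.main SEQ2.main

theorem asm2 : S_ASM2 := ASM2.main stage SEQ2.main inv2

theorem fin2 : S_FIN2 := FIN2.main asm2

theorem stage3 : S_STAGE3 := STAGE3.main tw HASH.main CP.main COV.main LH.main SIZE.main LL.main
  cls NUM3.main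

theorem inv3 : S_INV3 := INV3.main SEQ3.main

theorem asm3 : S_ASM3 := ASM3.main stage3 SEQ3.main inv3

theorem fin3 : S_FIN3 := FIN3.main asm3 SEQ3.main

theorem cor3 : S_COR3 := COR3.main fin3

end Pool.Agent.H53.BS.Glue
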