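import Mathlib
import Pool.Agent.H53.BS.Stm

/-!
# Project BS, second part: growing parameter `k`
-/

set_option autoImplicit false

open Finset Filter Pool.Agent.H53.ET

namespace Pool.Agent.H53.BS

/-- next parameter when the number of levels goes from `k` to `k'` -/
def nx2 (k k' u : ℕ) : ℕ := (u * (k + 41) - 2) / (k' + 25)

/-! ### BS-SEQ2 -/

def S_SEQ2 : Prop := ∀ k k' u : ℕ, (k' = k ∨ k' = k + 1) → k + 60 ≤ u →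
  nx2 k k' u * (k' + 25) + 2 ≤ u * (k + 41) ∧
  u * (k + 41) < nx2 k k' u * (k' + 25) + 2 + (k' + 25) ∧
  u + 2 ≤ nx2 k k' u ∧ u * (k + 52) + 8 ≤ nx2 k k' u * (k' + 40) ∧
  u * (k + 25) + 8 * u ≤ nx2 k k' u * (k' + 25) ∧
  k + 29 + u * (k + 25) ≤ nx2 k k' u * (k' + 25) ∧ k' + 60 ≤ nx2 k k' u

/-! ### BS-INV2 (from SEQ2; model INV) -/

def S_INV2 : Prop := ∀ (k k' u : ℕ) (B U : Finset ℕ), (k' = k ∨ k' = k + 1) → k + 60 ≤ u →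
  (∀ a ∈ U, 2 ^ (u * (k + 25)) ≤ a ∧ a < 2 ^ (u * (k + 41) + 1)) →
  (∀ e c : ℕ, (cls U (2 ^ e) c : ℝ) ≤
    3 * (2 : ℝ) ^ (((u : ℝ) * (k + 52) - e) / 2) + 2 ^ (16 * u) + 1) →
  (B = ∅ ∨ ∃ j u' : ℕ, j ≤ k ∧ u' + 2 ≤ u ∧ Inv j u' B) →
  Inv k u (B ∪ U) ∧ Sp k' (nx2 k k' u) (B ∪ U)

/-! ### BS-ASM2 (from STAGE, SEQ2, INV2; model ASM) -/

def S_ASM2 : Prop := ∀ τ : ℕ → ℕ, ∃ (A : Set ℕ) (k u : ℕ → ℕ), k 0 = 0 ∧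
  (∀ t, τ (k t) ≤ u t ∧ k t + 60 ≤ u t) ∧
  (∀ t, k (t + 1) = k t ∨ k (t + 1) = k t + 1) ∧ Tendsto k atTop atTop ∧
  (∀ t, u t * (k t + 25) + 8 * u t ≤ u (t + 1) * (k (t + 1) + 25)) ∧
  (∀ n, 4 * 2 ^ (u 0 * 25) ≤ n → 1 ≤ rep A n) ∧
  (∀ n, n < 2 ^ (u 0 * 25) → rep A n = 0) ∧
  ∀ t n, 2 ^ (u t * (k t + 25)) ≤ n → n < 2 ^ (u (t + 1) * (k (t + 1) + 25)) →
    rep A n ≤ 2 * (5 * k t + 224) + 2 ^ (27 * u t) ∧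
    (2 ^ (k t + 29 + u t * (k t + 25)) ≤ n → rep A n ≤ 5 * k t + 224)

/-! ### BS-FIN2 (from ASM2) -/

def S_FIN2 : Prop := ∀ ω : ℕ → ℝ, Tendsto ω atTop atTop → ∃ A : Set ℕ,
  (∀ᶠ n : ℕ in atTop, 1 ≤ rep A n) ∧
  (∀ ε : ℝ, 0 < ε → ∀ᶠ n : ℕ in atTop, (rep A n : ℝ) ≤ (n : ℝ) ^ ε) ∧
  ∀ᶠ K : ℕ in atTop, (({k : ℕ | k < K ∧ ∃ n, 2 ^ k ≤ n ∧ n < 2 ^ (k + 1) ∧
    ω k < (rep A n : ℝ)}.ncard : ℕ) : ℝ) ≤ ω K * Real.log K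

end Pool.Agent.H53.BS
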