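import Mathlib
import Pool.Agent.H53.BS.Stm2

/-!
# Project BS, third part: arbitrary regular parameter functions
-/

set_option autoImplicit false

open Finset Filter Pool.Agent.H53.ET

namespace Pool.Agent.H53.BS

/-! ### BS-NUM3 (copy of NUM; explicit threshold) -/

def S_NUM3 : Prop := ∀ k u : ℕ, k + 60 ≤ u → ∀ G : ℝ, G = 2 ^ u →
  2 * G ^ 16 * (2 * (((k + 1 : ℕ) : ℝ) + 1) * G * (Real.log (G ^ (k + 1)) + ((k + 1 : ℕ) : ℝ) + 1))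
    + G ^ 22 * Real.log (8 * G ^ (k + 1)) ≤ G ^ 23 ∧
  2 * (G ^ 22 * Real.log (8 * G ^ k)) +
    2 * (G * G ^ 24) * (2 * ((k : ℝ) + 1) * G * (Real.log (G ^ k) + (k : ℝ) + 1)) ≤ G ^ 27 ∧
  5 * (Real.log (((2 ^ (u * (k + 42)) : ℕ)) : ℝ) + 1) ≤ (5 * (k : ℝ) + 218) * (u * Real.log 2)

/-! ### BS-STAGE3 (copy of STAGE, with NUM3) -/

def S_STAGE3 : Prop := ∀ k u : ℕ, k + 60 ≤ u → ∀ B : Finset ℕ, Sp k u B → ∃ U : Finset ℕ,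
  (∀ a ∈ U, 2 ^ (u * (k + 25)) ≤ a ∧ a < 2 ^ (u * (k + 41) + 1)) ∧
  (∀ n, 4 * 2 ^ (u * (k + 25)) ≤ n → n < 2 ^ (u * (k + 41)) → ∃ a ∈ U, ∃ b ∈ U, a + b = n) ∧
  (∀ n, rp (B ∪ U) (B ∪ U) n ≤ rp B B n + (5 * k + 224) +
    if n < 2 ^ (k + 29 + u * (k + 25)) then 2 ^ (27 * u) else 0) ∧
  (∀ e c : ℕ, (cls U (2 ^ e) c : ℝ) ≤
    3 * (2 : ℝ) ^ (((u : ℝ) * (k + 52) - e) / 2) + 2 ^ (16 * u) + 1)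

/-! ### BS-SEQ3 (model SEQ2) -/

def S_SEQ3 : Prop := ∀ k k' u : ℕ, k ≤ k' → k' ≤ k + 8 → k + 60 ≤ u →
  nx2 k k' u * (k' + 25) + 2 ≤ u * (k + 41) ∧
  u * (k + 41) < nx2 k k' u * (k' + 25) + 2 + (k' + 25) ∧
  u + 2 ≤ nx2 k k' u ∧ u * (k + 52) + 8 ≤ nx2 k k' u * (k' + 40) ∧
  u * (k + 25) + 8 * u ≤ nx2 k k' u * (k' + 25) ∧
  k + 29 + u * (k + 25) ≤ nx2 k k' u * (k' + 25) ∧ k' + 60 ≤ nx2 k k' u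

/-! ### BS-INV3 (from SEQ3; model INV2, same proof) -/

def S_INV3 : Prop := ∀ (k k' u : ℕ) (B U : Finset ℕ), k ≤ k' → k' ≤ k + 8 → k + 60 ≤ u →
  (∀ a ∈ U, 2 ^ (u * (k + 25)) ≤ a ∧ a < 2 ^ (u * (k + 41) + 1)) →
  (∀ e c : ℕ, (cls U (2 ^ e) c : ℝ) ≤
    3 * (2 : ℝ) ^ (((u : ℝ) * (k + 52) - e) / 2) + 2 ^ (16 * u) + 1) →
  (B = ∅ ∨ ∃ j u' : ℕ, j ≤ k ∧ u' + 2 ≤ u ∧ Inv j u' B) →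
  Inv k u (B ∪ U) ∧ Sp k' (nx2 k k' u) (B ∪ U)

/-! ### BS-ASM3 (from STAGE3, SEQ3, INV3; model ASM2) -/

def S_ASM3 : Prop := ∀ (p : ℕ → ℕ → ℕ), (∀ k u, k ≤ p k u ∧ p k u ≤ k + 8) →
  ∀ k₀ u₀ : ℕ, k₀ + 60 ≤ u₀ → ∃ (A : Set ℕ) (k u : ℕ → ℕ), k 0 = k₀ ∧ u 0 = u₀ ∧
  (∀ t, k (t + 1) = p (k t) (u t)) ∧ (∀ t, u (t + 1) = nx2 (k t) (k (t + 1)) (u t)) ∧
  (∀ t, k t + 60 ≤ u t) ∧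
  (∀ n, 4 * 2 ^ (u 0 * (k 0 + 25)) ≤ n → 1 ≤ rep A n) ∧
  (∀ n, n < 2 ^ (u 0 * (k 0 + 25)) → rep A n = 0) ∧
  ∀ t n, 2 ^ (u t * (k t + 25)) ≤ n → n < 2 ^ (u (t + 1) * (k (t + 1) + 25)) →
    rep A n ≤ 2 * (5 * k t + 224) + 2 ^ (27 * u t) ∧
    (2 ^ (k t + 29 + u t * (k t + 25)) ≤ n → rep A n ≤ 5 * k t + 224)

/-! ### BS-FIN3 (from ASM3, SEQ3) -/

def S_FIN3 : Prop := ∀ κ : ℕ → ℝ, (∀ j, 1 ≤ κ j) → Monotone κ →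
  (∀ i j : ℕ, 1 ≤ i → i ≤ j → κ j * √(i : ℝ) ≤ κ i * √(j : ℝ)) →
  (∃ j : ℕ, 1 ≤ j ∧ 2 * κ j ≤ √(j : ℝ)) → ∃ (A : Set ℕ) (C : ℝ),
  (∀ᶠ n : ℕ in atTop, 1 ≤ rep A n) ∧
  (∀ n : ℕ, 1 ≤ n → (rep A n : ℝ) ≤ (n : ℝ) ^ (28 / κ (Nat.log 2 n))) ∧
  ∀ K : ℕ, (({k : ℕ | k < K ∧ ∃ n, 2 ^ k ≤ n ∧ n < 2 ^ (k + 1) ∧
    6 * κ k + 224 < (rep A n : ℝ)}.ncard : ℕ) : ℝ) ≤ C + 300 * ∑ j ∈ Icc 1 K, κ j ^ 2 / j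

/-! ### BS-COR3 (from FIN3, with `κ j = max 1 (c √j)`, `c` small) -/

def S_COR3 : Prop := ∀ δ : ℝ, 0 < δ → ∃ (A : Set ℕ) (C : ℝ),
  (∀ᶠ n : ℕ in atTop, 1 ≤ rep A n) ∧
  (∀ n : ℕ, 1 ≤ n → (rep A n : ℝ) ≤ Real.exp (C * √(Real.log n))) ∧
  ∀ K : ℕ, (({k : ℕ | k < K ∧ ∃ n, 2 ^ k ≤ n ∧ n < 2 ^ (k + 1) ∧
    C * √((k : ℝ) + 1) < (rep A n : ℝ)}.ncard : ℕ) : ℝ) ≤ C + δ * K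

end Pool.Agent.H53.BS
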